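import Mathlib

/-!
Definitions for MP_94ab8c_nt.
-/

namespace QP

/-- the setting: primes `q1 < q2`, both `3 mod 4`, with `Δ = q1 q2` congruent to `5` modulo `8` -/
structure Setting (q1 q2 : ℕ) : Prop where
  prime1 : q1.Prime
  prime2 : q2.Prime
  lt : q1 < q2
  mod1 : q1 % 4 = 3
  mod2 : q2 % 4 = 3
  mod8 : q1 * q2 % 8 = 5

/-- the polynomial `F(x) = q1 x ^ 2 + q1 x + (q1 - q2) / 4` -/
def F (q1 q2 : ℕ) (x : ℤ) : ℤ := q1 * x ^ 2 + q1 * x + ((q1 : ℤ) - q2) / 4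

/-- condition (1): `|F(x)|` is `1` or a prime for all integers `0 ≤ x < (√Δ - 2) / 4` -/
def Cond1 (q1 q2 : ℕ) : Prop :=
  ∀ x : ℤ, 0 ≤ x → (x : ℝ) < (Real.sqrt ((q1 : ℝ) * q2) - 2) / 4 →
    (F q1 q2 x).natAbs = 1 ∨ (F q1 q2 x).natAbs.Prime

/-- the three shapes of condition (2) -/
def Shape (q1 q2 : ℕ) : Prop :=
  ∃ s : ℤ, (q1 : ℤ) * q2 = q1 ^ 2 * s ^ 2 + 4 * q1 ∨ (q1 : ℤ) * q2 = q1 ^ 2 * s ^ 2 - 4 * q1 ∨
    (q1 : ℤ) * q2 = 4 * q1 ^ 2 * s ^ 2 - q1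

/-- condition (2) for a number field `K` (to be used for `K = ℚ(√Δ)`): class number one and one of
the three shapes -/
def Cond2 (q1 q2 : ℕ) (K : Type*) [Field K] [NumberField K] : Prop :=
  NumberField.classNumber K = 1 ∧ Shape q1 q2

/-- the first additional family: `9 q2 = q1 c ^ 2 ± 4`, except for `Δ = 133, 341, 917` -/
def Family9 (q1 q2 : ℕ) : Prop :=
  (q1 * q2 ≠ 133 ∧ q1 * q2 ≠ 341 ∧ q1 * q2 ≠ 917) ∧
    ∃ c : ℤ, 0 < c ∧ ((q1 : ℤ) * c ^ 2 = 9 * q2 + 4 ∨ (q1 : ℤ) * c ^ 2 = 9 * q2 - 4)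

/-- the second additional family: `4 q2 = q1 c ^ 2 + 1` with `c` congruent to `1` modulo `4` and
`4 c + 5 < q1`, such that every factorisation `q1 - 4 = d f` with `d > 0` congruent to `1`
modulo `4` has `f - d > 4 c`, and every factorisation `q1 + 4 = d f` with `d > 0` congruent to `1`
modulo `4` has `d - f < 4 c` -/
def Family4 (q1 q2 : ℕ) : Prop :=
  ∃ c : ℤ, 0 < c ∧ c % 4 = 1 ∧ 4 * c + 5 < q1 ∧ (q1 : ℤ) * c ^ 2 = 4 * q2 - 1 ∧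
    (∀ d f : ℤ, 0 < d → d % 4 = 1 → (q1 : ℤ) - 4 = d * f → 4 * c < f - d) ∧
    (∀ d f : ℤ, 0 < d → d % 4 = 1 → (q1 : ℤ) + 4 = d * f → d - f < 4 * c)

end QP
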