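import Mathlib

/-!
Basics on the ring `ℤ[ω]`, `ω ^ 2 = e + ω` (the order of discriminant `4 e + 1`), in the
coordinates `z = (tr z + im z * √D) / 2`.
-/

namespace QP

open QuadraticAlgebra

/-- the order `ℤ[(1 + √D) / 2]` with `D = 4 e + 1` -/
abbrev R (e : ℤ) := QuadraticAlgebra ℤ e 1

variable {e : ℤ}

/-- the trace -/
def tr (z : R e) : ℤ := 2 * z.re + z.im

theorem ext' {z w : R e} (h1 : tr z = tr w) (h2 : z.im = w.im) : z = w := by
  unfold tr at h1
  ext
  · omega
  · exact h2

theorem exists_mk (a b : ℤ) (h : (a - b) % 2 = 0) : ∃ z : R e, tr z = a ∧ z.im = b :=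
  ⟨⟨(a - b) / 2, b⟩, by simp only [tr]; omega, rfl⟩

theorem tr_parity (z : R e) : (tr z - z.im) % 2 = 0 := by unfold tr; omega

theorem tr_mul (z w : R e) :
    2 * tr (z * w) = tr z * tr w + (4 * e + 1) * (z.im * w.im) := by
  simp only [tr, re_mul, im_mul]; ring

theorem im_mul2 (z w : R e) : 2 * (z * w).im = tr z * w.im + z.im * tr w := by
  simp only [tr, im_mul]; ring

theorem four_norm (z : R e) : 4 * norm z = tr z ^ 2 - (4 * e + 1) * z.im ^ 2 := by
  simp only [tr, norm_def]; ring

theorem tr_neg (z : R e) : tr (-z) = -tr z := by simp only [tr, re_neg, im_neg]; ring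

theorem tr_star (z : R e) : tr (star z) = tr z := by simp only [tr, re_star, im_star]; ring

theorem tr_int (n : ℤ) : tr (n : R e) = 2 * n := by simp [tr]

theorem mul_star_self (z : R e) : z * star z = ((norm z : ℤ) : R e) := by
  have := algebraMap_norm_eq_mul_star z
  rw [← this]
  rfl

theorem norm_eq_zero (he : ¬ IsSquare (4 * e + 1)) {z : R e} (hz : norm z = 0) : z = 0 := by
  have h := four_norm z
  rw [hz, mul_zero] at h
  have h1 : (4 * e + 1) * z.im ^ 2 = tr z ^ 2 := by linarith
  by_cases hi : z.im = 0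
  · rw [hi] at h1
    have h2 : tr z ^ 2 = 0 := by rw [← h1]; ring
    have h3 : tr z = 0 := by simpa using h2
    apply ext'
    · rw [h3]; simp [tr]
    · rw [hi]; rfl
  · exfalso
    apply he
    have h2 : z.im ^ 2 ∣ tr z ^ 2 := ⟨4 * e + 1, by rw [← h1]; ring⟩
    have h3 : z.im ∣ tr z := (Int.pow_dvd_pow_iff two_ne_zero).1 h2
    obtain ⟨k, hk⟩ := h3
    refine ⟨k, ?_⟩
    have h4 : z.im ^ 2 ≠ 0 := pow_ne_zero _ hi
    apply mul_right_cancel₀ h4
    rw [h1, hk]; ring

theorem norm_ne_zero (he : ¬ IsSquare (4 * e + 1)) {z : R e} (hz : z ≠ 0) : norm z ≠ 0 :=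
  fun h => hz (norm_eq_zero he h)

theorem isDomain (he : ¬ IsSquare (4 * e + 1)) : IsDomain (R e) := by
  have h1 : NoZeroDivisors (R e) := by
    constructor
    intro a b hab
    have h2 : norm a * norm b = 0 := by rw [← map_mul, hab]; simp
    rcases mul_eq_zero.1 h2 with h | h
    · exact Or.inl (norm_eq_zero he h)
    · exact Or.inr (norm_eq_zero he h)
  exact NoZeroDivisors.to_isDomain _

/-- the real embedding sending `√D` to `s` -/
noncomputable def emb (s : ℝ) (hs : s ^ 2 = 4 * e + 1) : R e →+* ℝ where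
  toFun z := z.re + z.im * ((1 + s) / 2)
  map_one' := by simp
  map_zero' := by simp
  map_add' z w := by simp only [re_add, im_add]; push_cast; ring
  map_mul' z w := by
    simp only [re_mul, im_mul]; push_cast
    have h1 : ((1 + s) / 2) ^ 2 = e + (1 + s) / 2 := by
      have : ((1 + s) / 2) ^ 2 = (1 + 2 * s + s ^ 2) / 4 := by ring
      rw [this, hs]; ring
    have h2 : (z.re + z.im * ((1 + s) / 2)) * (w.re + w.im * ((1 + s) / 2))
        = z.re * w.re + (z.re * w.im + z.im * w.re) * ((1 + s) / 2)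
          + z.im * w.im * ((1 + s) / 2) ^ 2 := by ring
    rw [h2, h1]; ring

theorem emb_eq (s : ℝ) (hs : s ^ 2 = 4 * e + 1) (z : R e) :
    emb s hs z = (tr z + z.im * s) / 2 := by
  simp only [emb, tr, RingHom.coe_mk, MonoidHom.coe_mk, OneHom.coe_mk]; push_cast; ring

theorem emb_mul_conj (s : ℝ) (hs : s ^ 2 = 4 * e + 1) (hs' : (-s) ^ 2 = 4 * e + 1) (z : R e) :
    emb s hs z * emb (-s) hs' z = norm z := by
  rw [emb_eq, emb_eq]
  have h := four_norm z
  have h2 : (4 : ℝ) * norm z = tr z ^ 2 - (4 * e + 1) * z.im ^ 2 := by exact_mod_cast h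
  have h3 : ((tr z : ℝ) + z.im * s) / 2 * ((tr z + z.im * (-s)) / 2)
      = (tr z ^ 2 - s ^ 2 * z.im ^ 2) / 4 := by ring
  rw [h3, hs, ← h2]; ring

theorem emb_star (s : ℝ) (hs : s ^ 2 = 4 * e + 1) (hs' : (-s) ^ 2 = 4 * e + 1) (z : R e) :
    emb s hs (star z) = emb (-s) hs' z := by
  rw [emb_eq, emb_eq, tr_star, im_star]; push_cast; ring

theorem norm_prime_irreducible (z : R e) (h : (norm z).natAbs.Prime) :
    Irreducible z := by
  have h1 : Irreducible (norm z) := by
    rw [← Int.prime_iff_natAbs_prime] at h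
    exact h.irreducible
  constructor
  · intro hu
    exact h1.not_isUnit (isUnit_iff_norm_isUnit.1 hu)
  · intro a b hab
    have h2 : norm z = norm a * norm b := by rw [hab, map_mul]
    rcases h1.isUnit_or_isUnit h2 with h | h
    · exact Or.inl (isUnit_iff_norm_isUnit.2 h)
    · exact Or.inr (isUnit_iff_norm_isUnit.2 h)

theorem not_isUnit_natAbs {z : R e} (h : ¬ IsUnit z) : (norm z).natAbs ≠ 1 := by
  intro h1
  apply h
  rw [isUnit_iff_norm_isUnit, Int.isUnit_iff_natAbs_eq]
  exact h1

/-- in a principal ideal ring of this kind, an element whose norm is divisible by the prime `p`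
but which is not divisible by `p` is a multiple of an element of norm `± p` -/
theorem exists_factor (he : ¬ IsSquare (4 * e + 1)) [IsPrincipalIdealRing (R e)]
    {p : ℕ} (hp : p.Prime) {δ : R e} (h1 : (p : ℤ) ∣ norm δ) (h2 : ¬ (p : R e) ∣ δ) :
    ∃ β γ : R e, δ = β * γ ∧ (norm β).natAbs = p := by
  have hD : IsDomain (R e) := isDomain he
  have hnp : ¬ Prime (p : R e) := by
    intro hP
    have h3 : (p : R e) ∣ δ * star δ := by
      rw [mul_star_self]
      obtain ⟨k, hk⟩ := h1
      rw [hk]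
      push_cast
      exact dvd_mul_right _ _
    rcases hP.dvd_or_dvd h3 with h | h
    · exact h2 h
    · apply h2
      obtain ⟨k, hk⟩ := h
      refine ⟨star k, ?_⟩
      have := congrArg star hk
      rw [star_star, star_mul, star_natCast, mul_comm] at this
      exact this
  have hni : ¬ Irreducible (p : R e) := fun h => hnp (irreducible_iff_prime.1 h)
  have hnu : ¬ IsUnit (p : R e) := by
    intro hu
    have := isUnit_iff_norm_isUnit.1 hu
    rw [QuadraticAlgebra.norm_natCast, Int.isUnit_iff_natAbs_eq, Int.natAbs_pow, Int.natAbs_natCast] at this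
    have h3 := hp.one_lt
    nlinarith
  rw [irreducible_iff] at hni
  push Not at hni
  obtain ⟨π, π', hpp, hu, hu'⟩ := hni hnu
  have hN : (norm π).natAbs * (norm π').natAbs = p ^ 2 := by
    rw [← Int.natAbs_mul, ← map_mul, ← hpp, QuadraticAlgebra.norm_natCast, Int.natAbs_pow, Int.natAbs_natCast]
  have hN1 : (norm π).natAbs = p := by
    have h3 : (norm π).natAbs ∣ p ^ 2 := ⟨_, hN.symm⟩
    rw [Nat.dvd_prime_pow hp] at h3
    obtain ⟨k, hk, hk2⟩ := h3
    interval_cases k
    · exact absurd (by simpa using hk2) (not_isUnit_natAbs hu)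
    · simpa using hk2
    · exfalso
      rw [hk2] at hN
      have h4 : (norm π').natAbs = 1 := by
        have : 0 < p ^ 2 := pow_pos hp.pos 2
        nlinarith
      exact not_isUnit_natAbs hu' h4
  have hπ : Prime π := irreducible_iff_prime.1
    (norm_prime_irreducible π (by rw [hN1]; exact hp))
  have h5 : π ∣ δ * star δ := by
    rw [mul_star_self]
    obtain ⟨k, hk⟩ := h1
    rw [hk]
    push_cast
    rw [hpp, mul_assoc]
    exact dvd_mul_right _ _
  rcases hπ.dvd_or_dvd h5 with h | h
  · obtain ⟨γ, hγ⟩ := h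
    exact ⟨π, γ, hγ, hN1⟩
  · obtain ⟨k, hk⟩ := h
    refine ⟨star π, star k, ?_, by rw [QuadraticAlgebra.norm_star]; exact hN1⟩
    have := congrArg star hk
    rw [star_star, star_mul, mul_comm] at this
    exact this

end QP
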