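import Mathlib
import Pool.Agent.Lib_MP_94ab8c.Defs

/-!
Integer form of condition (1).
-/

namespace QP

/-- integer form of condition (1) -/
def CondInt (q1 q2 : ℕ) : Prop :=
  ∀ m : ℤ, 0 < m → m % 2 = 1 → 4 * m ^ 2 < q1 * q2 →
    ∃ n : ℕ, ((q1 : ℤ) * m ^ 2 - q2).natAbs = 4 * n ∧ (n = 1 ∨ n.Prime)

theorem four_F {q1 q2 : ℕ} (h : Setting q1 q2) (x : ℤ) :
    4 * F q1 q2 x = q1 * (2 * x + 1) ^ 2 - q2 := by
  have h1 := h.mod1
  have h2 := h.mod2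
  have h3 : 4 * (((q1 : ℤ) - q2) / 4) = q1 - q2 := by omega
  unfold F
  linear_combination h3

theorem cond1_iff {q1 q2 : ℕ} (h : Setting q1 q2) : Cond1 q1 q2 ↔ CondInt q1 q2 := by
  have key : ∀ x : ℤ, 0 ≤ x → ((x : ℝ) < (Real.sqrt ((q1 : ℝ) * q2) - 2) / 4 ↔
      4 * (2 * x + 1) ^ 2 < (q1 : ℤ) * q2) := by
    intro x hx
    have hx' : (0 : ℝ) ≤ x := by exact_mod_cast hx
    rw [lt_div_iff₀ (by norm_num : (0 : ℝ) < 4), lt_sub_iff_add_lt]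
    rw [Real.lt_sqrt (by positivity)]
    have : ((x : ℝ) * 4 + 2) ^ 2 = ((4 * (2 * x + 1) ^ 2 : ℤ) : ℝ) := by push_cast; ring
    rw [this]
    have h2 : (q1 : ℝ) * q2 = (((q1 : ℤ) * q2 : ℤ) : ℝ) := by push_cast; ring
    rw [h2, Int.cast_lt]
  constructor
  · intro hc m hm hmo hmD
    obtain ⟨x, hx⟩ : ∃ x : ℤ, m = 2 * x + 1 := ⟨m / 2, by omega⟩
    have hx0 : 0 ≤ x := by omega
    have h1 := hc x hx0 ((key x hx0).2 (by rw [← hx]; exact hmD))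
    refine ⟨(F q1 q2 x).natAbs, ?_, h1⟩
    rw [hx, ← four_F h, Int.natAbs_mul]; rfl
  · intro hc x hx0 hxD
    obtain ⟨n, hn, hn2⟩ := hc (2 * x + 1) (by omega) (by omega) ((key x hx0).1 hxD)
    rw [← four_F h, Int.natAbs_mul] at hn
    have h4 : (4 : ℤ).natAbs = 4 := rfl
    rw [h4] at hn
    have : (F q1 q2 x).natAbs = n := by omega
    rw [this]
    exact hn2

theorem not_sq {q1 q2 : ℕ} (h : Setting q1 q2) {e : ℤ} (he : 4 * e + 1 = q1 * q2) :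
    ¬ IsSquare (4 * e + 1) := by
  rw [he]
  rintro ⟨r, hr⟩
  have h1 : q1 * q2 = r.natAbs * r.natAbs := by
    have := congrArg Int.natAbs hr
    rw [Int.natAbs_mul, Int.natAbs_mul] at this
    simpa using this
  have h2 : q1 ∣ r.natAbs * r.natAbs := ⟨q2, h1.symm⟩
  have h3 : q1 ∣ r.natAbs := by
    rcases h.prime1.dvd_mul.1 h2 with h | h <;> exact h
  obtain ⟨k, hk⟩ := h3
  rw [hk] at h1
  have h4 : q2 = q1 * (k * k) := by
    have : q1 * q2 = q1 * (q1 * (k * k)) := by rw [h1]; ring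
    exact Nat.eq_of_mul_eq_mul_left h.prime1.pos this
  have h5 : q1 ∣ q2 := ⟨_, h4⟩
  rw [Nat.prime_dvd_prime_iff_eq h.prime1 h.prime2] at h5
  exact absurd h5 h.lt.ne

end QP
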