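import Mathlib
import Pool.Agent.Lib_MP_94ab8c.Defs
import Pool.Agent.Lib_MP_94ab8c.Quad
import Pool.Agent.Lib_MP_94ab8c.CondInt

/-!
The ring of integers of `ℚ(√D)` is `ℤ[(1 + √D) / 2]`, for `D = q1 q2`.
-/

namespace QP

open QuadraticAlgebra NumberField

variable {e : ℤ} {K : Type*} [Field K] [NumberField K]

/-- the embedding of the explicit order -/
noncomputable def toK (α : K) (hα : α ^ 2 = 4 * e + 1) : R e →+* K where
  toFun z := z.re + z.im * ((1 + α) / 2)
  map_one' := by simp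
  map_zero' := by simp
  map_add' z w := by simp only [re_add, im_add]; push_cast; ring
  map_mul' z w := by
    simp only [re_mul, im_mul]; push_cast
    have h1 : ((1 + α) / 2) ^ 2 = e + (1 + α) / 2 := by
      have : ((1 + α) / 2) ^ 2 = (1 + 2 * α + α ^ 2) / 4 := by ring
      rw [this, hα]; ring
    have h2 : (z.re + z.im * ((1 + α) / 2)) * (w.re + w.im * ((1 + α) / 2))
        = z.re * w.re + (z.re * w.im + z.im * w.re) * ((1 + α) / 2)
          + z.im * w.im * ((1 + α) / 2) ^ 2 := by ring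
    rw [h2, h1]; ring

theorem toK_apply (α : K) (hα : α ^ 2 = 4 * e + 1) (z : R e) :
    toK α hα z = (tr z + z.im * α) / 2 := by
  simp only [toK, tr, RingHom.coe_mk, MonoidHom.coe_mk, OneHom.coe_mk]; push_cast; ring

theorem toK_integral (α : K) (hα : α ^ 2 = 4 * e + 1) (z : R e) : IsIntegral ℤ (toK α hα z) := by
  have h1 : IsIntegral ℤ z := Algebra.IsIntegral.isIntegral z
  exact h1.map ((toK α hα).toIntAlgHom)

theorem toK_injective (he : ¬ IsSquare (4 * e + 1)) (α : K) (hα : α ^ 2 = 4 * e + 1) :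
    Function.Injective (toK α hα : R e →+* K) := by
  rw [injective_iff_map_eq_zero]
  intro z hz
  rw [toK_apply] at hz
  have h1 : (tr z : K) = -(z.im * α) := by
    have : (tr z + z.im * α : K) = 0 := by
      have h2 : (2 : K) ≠ 0 := two_ne_zero
      field_simp at hz
      simpa using hz
    linear_combination this
  have h2 : ((tr z : ℤ) : K) ^ 2 = ((4 * e + 1) * z.im ^ 2 : ℤ) := by
    rw [h1]; push_cast
    linear_combination (z.im : K) ^ 2 * hα
  have h3 : (tr z) ^ 2 = (4 * e + 1) * z.im ^ 2 := by exact_mod_cast h2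
  have h4 := four_norm z
  rw [h3] at h4
  exact norm_eq_zero he (by linarith)

theorem rat_int_of_sq {D : ℤ} (hD : Squarefree D) {w : ℚ} {k : ℤ} (h : (D : ℚ) * w ^ 2 = k) :
    ∃ b : ℤ, (b : ℚ) = w := by
  have hden : (w.den : ℚ) ≠ 0 := by exact_mod_cast w.den_ne_zero
  have h1 : (D : ℚ) * (w.num : ℚ) ^ 2 = k * (w.den : ℚ) ^ 2 := by
    have h2 : w = w.num / w.den := (Rat.num_div_den w).symm
    rw [h2] at h
    field_simp at h
    rw [h]; ring
  have h2 : D * w.num ^ 2 = k * (w.den : ℤ) ^ 2 := by exact_mod_cast h1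
  have h3 : ((w.den : ℤ)) ^ 2 ∣ D * w.num ^ 2 := ⟨k, by rw [h2]; ring⟩
  have h4 : IsCoprime ((w.den : ℤ) ^ 2) (w.num ^ 2) := by
    apply IsCoprime.pow
    rw [Int.isCoprime_iff_gcd_eq_one]
    have := w.reduced
    rw [Nat.Coprime] at this
    rw [Int.gcd_comm]
    simpa [Int.gcd] using this
  have h5 : ((w.den : ℤ)) ^ 2 ∣ D := h4.dvd_of_dvd_mul_right h3
  rw [sq] at h5
  have h6 := hD _ h5
  have h7 : w.den = 1 := by
    have := Int.isUnit_iff_natAbs_eq.1 h6
    simpa using this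
  exact ⟨w.num, (Rat.den_eq_one_iff w).1 h7⟩

theorem squarefree_D {q1 q2 : ℕ} (h : Setting q1 q2) : Squarefree ((q1 : ℤ) * q2) := by
  have hp1 : Prime (q1 : ℤ) := Nat.prime_iff_prime_int.1 h.prime1
  have hp2 : Prime (q2 : ℤ) := Nat.prime_iff_prime_int.1 h.prime2
  have hco : Nat.Coprime q1 q2 := (Nat.coprime_primes h.prime1 h.prime2).2 h.lt.ne
  have h1 : Squarefree (q1 * q2) := by
    rw [Nat.squarefree_mul hco]
    exact ⟨h.prime1.squarefree, h.prime2.squarefree⟩
  have := Int.squarefree_natCast.2 h1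
  exact_mod_cast this

theorem exists_coords (α : K) {D : ℤ} (hα : α ^ 2 = D) (hD : ¬ IsSquare D)
    (hK : Module.finrank ℚ K = 2) (x : K) (hx : IsIntegral ℤ x) :
    ∃ u v : ℚ, x = u + v * α ∧ (∃ A : ℤ, (A : ℚ) = 2 * u) ∧
      ∃ N : ℤ, (N : ℚ) = u ^ 2 - D * v ^ 2 := by
  have hli : LinearIndependent ℚ ![(1 : K), α] := by
    rw [LinearIndependent.pair_iff]
    intro s t hst
    simp only [Algebra.smul_def, mul_one, eq_ratCast] at hst
    have ht : t = 0 := by
      by_contra ht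
      apply hD
      have htK : (t : K) ≠ 0 := by exact_mod_cast ht
      have h1 : α = ((-s / t : ℚ) : K) := by
        push_cast
        field_simp
        linear_combination hst
      have h2 : ((D : ℤ) : K) = (((-s / t) ^ 2 : ℚ) : K) := by
        rw [← hα, h1]; push_cast; ring
      have h3 : ((D : ℤ) : ℚ) = (-s / t) ^ 2 := by exact_mod_cast h2
      have h4 : IsSquare ((D : ℤ) : ℚ) := ⟨-s / t, by rw [h3]; ring⟩
      exact (Rat.isSquare_intCast_iff).1 h4
    rw [ht] at hst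
    simp at hst
    exact ⟨hst, ht⟩
  let b : Module.Basis (Fin 2) ℚ K := basisOfLinearIndependentOfCardEqFinrank hli (by simp [hK])
  have hb0 : b 0 = 1 := by simp [b]
  have hb1 : b 1 = α := by simp [b]
  set u := b.repr x 0 with hu
  set v := b.repr x 1 with hv
  have hxuv : x = u + v * α := by
    have := b.sum_repr x
    rw [Fin.sum_univ_two, hb0, hb1] at this
    rw [← this, ← hu, ← hv]
    simp [Algebra.smul_def]
  have hrepr : ∀ s t : ℚ, b.repr ((s : K) + t * α) = Finsupp.single 0 s + Finsupp.single 1 t := by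
    intro s t
    have h1 : (s : K) + t * α = s • b 0 + t • b 1 := by
      rw [hb0, hb1]; simp [Algebra.smul_def]
    rw [h1, map_add, map_smul, map_smul, b.repr_self, b.repr_self]
    simp
  have hmat : Algebra.leftMulMatrix b x = !![u, D * v; v, u] := by
    ext i j
    rw [Algebra.leftMulMatrix_eq_repr_mul]
    fin_cases j
    · have h1 : x * b 0 = (u : K) + v * α := by rw [hb0, mul_one]; exact hxuv
      show (b.repr (x * b 0)) i = _
      rw [h1, hrepr]
      fin_cases i <;> simp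
    · have h1 : x * b 1 = (((D : ℚ) * v : ℚ) : K) + u * α := by
        rw [hb1, hxuv]; push_cast
        linear_combination (v : K) * hα
      show (b.repr (x * b 1)) i = _
      rw [h1, hrepr]
      fin_cases i <;> simp
  refine ⟨u, v, hxuv, ?_, ?_⟩
  · have h1 := Algebra.isIntegral_trace (L := ℚ) hx
    rw [Algebra.trace_eq_matrix_trace b, hmat, Matrix.trace_fin_two_of] at h1
    obtain ⟨A, hA⟩ := IsIntegrallyClosed.isIntegral_iff.1 h1
    exact ⟨A, by rw [two_mul]; simpa using hA⟩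
  · have h1 := Algebra.isIntegral_norm ℚ hx
    rw [Algebra.norm_eq_matrix_det b, hmat, Matrix.det_fin_two_of] at h1
    obtain ⟨N, hN⟩ := IsIntegrallyClosed.isIntegral_iff.1 h1
    refine ⟨N, ?_⟩
    have : (N : ℚ) = u * u - D * v * v := by simpa using hN
    rw [this]; ring

theorem toK_surj {q1 q2 : ℕ} (h : Setting q1 q2) (he : 4 * e + 1 = q1 * q2)
    (hK : Module.finrank ℚ K = 2) (α : K) (hα : α ^ 2 = 4 * e + 1) (x : K) (hx : IsIntegral ℤ x) :
    ∃ z : R e, toK α hα z = x := by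
  have hsq := not_sq h he
  have hα' : α ^ 2 = ((4 * e + 1 : ℤ) : K) := by rw [hα]; push_cast; ring
  obtain ⟨u, v, hxuv, ⟨A, hA⟩, ⟨N, hN⟩⟩ := exists_coords α hα' hsq hK x hx
  have h1 : ((4 * e + 1 : ℤ) : ℚ) * (2 * v) ^ 2 = ((A ^ 2 - 4 * N : ℤ) : ℚ) := by
    push_cast
    rw [hA, hN]; push_cast; ring
  have hsf : Squarefree (4 * e + 1) := by rw [he]; exact squarefree_D h
  obtain ⟨B, hB⟩ := rat_int_of_sq hsf h1
  rw [← hB] at h1
  have h2 : (4 * e + 1) * B ^ 2 = A ^ 2 - 4 * N := by exact_mod_cast h1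
  have hpar : (A - B) % 2 = 0 := by
    rcases Int.emod_two_eq_zero_or_one A with h' | h' <;>
    rcases Int.emod_two_eq_zero_or_one B with h'' | h''
    · omega
    · exfalso
      obtain ⟨a, ha⟩ : ∃ a, A = 2 * a := ⟨A / 2, by omega⟩
      obtain ⟨b, hb⟩ : ∃ b, B = 2 * b + 1 := ⟨B / 2, by omega⟩
      rw [ha, hb] at h2
      have h3 : (4 * e + 1) * (2 * b + 1) ^ 2 = 2 * ((4 * e + 1) * (2 * b ^ 2 + 2 * b) + 2 * e) + 1 := by
        ring
      have h4 : (2 * a) ^ 2 - 4 * N = 2 * (2 * a ^ 2 - 2 * N) := by ring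
      omega
    · exfalso
      obtain ⟨a, ha⟩ : ∃ a, A = 2 * a + 1 := ⟨A / 2, by omega⟩
      obtain ⟨b, hb⟩ : ∃ b, B = 2 * b := ⟨B / 2, by omega⟩
      rw [ha, hb] at h2
      have h3 : (4 * e + 1) * (2 * b) ^ 2 = 2 * (2 * (4 * e + 1) * b ^ 2) := by ring
      have h4 : (2 * a + 1) ^ 2 - 4 * N = 2 * (2 * a ^ 2 + 2 * a - 2 * N) + 1 := by ring
      omega
    · omega
  obtain ⟨z, hz1, hz2⟩ := exists_mk (e := e) A B hpar
  refine ⟨z, ?_⟩
  rw [toK_apply, hz1, hz2, hxuv]
  have hA' : (A : K) = 2 * u := by exact_mod_cast congrArg (Rat.cast : ℚ → K) hA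
  have hB' : (B : K) = 2 * v := by exact_mod_cast congrArg (Rat.cast : ℚ → K) hB
  rw [hA', hB']; ring

theorem classNumber_iff {q1 q2 : ℕ} (h : Setting q1 q2) (he : 4 * e + 1 = q1 * q2)
    (hK : Module.finrank ℚ K = 2) (α : K) (hα : α ^ 2 = (q1 : K) * q2) :
    NumberField.classNumber K = 1 ↔ IsPrincipalIdealRing (R e) := by
  have hsq := not_sq h he
  have hα' : α ^ 2 = 4 * e + 1 := by
    have h1 : ((4 * e + 1 : ℤ) : K) = ((q1 * q2 : ℤ) : K) := by rw [he]
    push_cast at h1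
    rw [hα, h1]
  let f : R e →+* 𝓞 K := (toK α hα').codRestrict (integralClosure ℤ K).toSubring
    (fun z => toK_integral α hα' z)
  have hf : ∀ z, ((f z : 𝓞 K) : K) = toK α hα' z := fun z => rfl
  have hinj : Function.Injective f := by
    intro a b hab
    apply toK_injective hsq α hα'
    rw [← hf, ← hf, hab]
  have hsurj : Function.Surjective f := by
    intro x
    obtain ⟨z, hz⟩ := toK_surj h he hK α hα' (x : K) x.isIntegral_coe
    exact ⟨z, NumberField.RingOfIntegers.ext (by rw [hf, hz])⟩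
  let E : R e ≃+* 𝓞 K := RingEquiv.ofBijective f ⟨hinj, hsurj⟩
  rw [NumberField.classNumber_eq_one_iff]
  constructor
  · intro hP
    exact IsPrincipalIdealRing.of_surjective (E.symm : 𝓞 K →+* R e) E.symm.surjective
  · intro hP
    exact IsPrincipalIdealRing.of_surjective (E : R e →+* 𝓞 K) E.surjective

end QP
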