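import Mathlib
import Pool.Agent.Lib_MP_94ab8c.Quad

/-!
If the order of discriminant `D = q1 q2` is a principal ideal domain and there is an element of norm
`± q1` given by `q1 c ^ 2 - B ^ 2 q2 = 4 η`, then a composite value `(q1 m ^ 2 - q2) / 4` with
`4 m ^ 2 < D` comes from an identity between small elements.
-/

namespace QP

open QuadraticAlgebra

section T

variable {e : ℤ}

/-- the ratio of the two absolute values -/
noncomputable def TT (s : ℝ) (hs : s ^ 2 = 4 * e + 1) (hs' : (-s) ^ 2 = 4 * e + 1) (z : R e) : ℝ :=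
  |emb s hs z| / |emb (-s) hs' z|

variable {s : ℝ} {hs : s ^ 2 = 4 * e + 1} {hs' : (-s) ^ 2 = 4 * e + 1}

theorem TT_mul (z w : R e) : TT s hs hs' (z * w) = TT s hs hs' z * TT s hs hs' w := by
  unfold TT
  rw [map_mul, map_mul, abs_mul, abs_mul, mul_div_mul_comm]

theorem emb_ne_zero (he : ¬ IsSquare (4 * e + 1)) {z : R e} (hz : z ≠ 0) : emb s hs z ≠ 0 := by
  intro h
  have hs' : (-s) ^ 2 = 4 * e + 1 := by rw [neg_sq]; exact hs
  have h1 := emb_mul_conj s hs hs' z
  rw [h, zero_mul] at h1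
  exact norm_ne_zero he hz (by exact_mod_cast h1.symm)

theorem TT_pos (he : ¬ IsSquare (4 * e + 1)) {z : R e} (hz : z ≠ 0) : 0 < TT s hs hs' z := by
  unfold TT
  have h1 := abs_pos.2 (emb_ne_zero (hs := hs) he hz)
  have h2 := abs_pos.2 (emb_ne_zero (hs := hs') he hz)
  positivity

theorem TT_star (z : R e) : TT s hs hs' (star z) = (TT s hs hs' z)⁻¹ := by
  unfold TT
  have h1 : emb s hs (star z) = emb (-s) hs' z := emb_star s hs hs' z
  have h2 : emb (-s) hs' (star z) = emb s hs z := by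
    have := emb_star s hs hs' (star z)
    rw [star_star] at this
    exact this.symm
  rw [h1, h2, inv_div]

/-- if the first absolute value is the larger one, the coordinates have the same sign -/
theorem coherent (he : ¬ IsSquare (4 * e + 1)) (hs0 : 0 < s) {z : R e} (hz : z ≠ 0)
    (h : 1 ≤ TT s hs hs' z) : 0 ≤ tr z * z.im := by
  unfold TT at h
  have h2 := abs_pos.2 (emb_ne_zero (hs := hs') he hz)
  rw [one_le_div h2, emb_eq, emb_eq] at h
  have h3 := sq_le_sq.2 h
  have h4 : (0 : ℝ) ≤ tr z * z.im * s := by nlinarith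
  have h5 : (0 : ℝ) ≤ tr z * z.im := by
    by_contra hc
    push Not at hc
    have := mul_neg_of_neg_of_pos hc hs0
    linarith
  exact_mod_cast h5

theorem abs_tr_le (he : ¬ IsSquare (4 * e + 1)) {z : R e} (hz : z ≠ 0)
    (h : 1 ≤ TT s hs hs' z) : |(tr z : ℝ)| ≤ 2 * |emb s hs z| := by
  unfold TT at h
  have h2 := abs_pos.2 (emb_ne_zero (hs := hs') he hz)
  rw [one_le_div h2] at h
  have h3 : (tr z : ℝ) = emb s hs z + emb (-s) hs' z := by rw [emb_eq, emb_eq]; ring
  rw [h3]
  have := abs_add_le (emb s hs z) (emb (-s) hs' z)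
  linarith

end T

theorem abs_combo {a b c d D : ℤ} (hD : 0 ≤ D) (h1 : 0 ≤ a * b) (h2 : 0 ≤ c * d) :
    |a| * |c| + D * (|b| * |d|) = |a * c + D * (b * d)| ∧
      |a| * |d| + |b| * |c| = |a * d + b * c| := by
  have h3 : 0 ≤ (a * c) * (b * d) := by
    have := mul_nonneg h1 h2
    have h : (a * c) * (b * d) = a * b * (c * d) := by ring
    rw [h]; exact this
  have h4 : 0 ≤ (a * d) * (b * c) := by
    have := mul_nonneg h1 h2
    have h : (a * d) * (b * c) = a * b * (c * d) := by ring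
    rw [h]; exact this
  constructor
  · rw [← abs_mul, ← abs_mul]
    have h5 : D * |b * d| = |D * (b * d)| := by rw [abs_mul D, abs_of_nonneg hD]
    rw [h5]
    have h6 : 0 ≤ (a * c) * (D * (b * d)) := by
      have := mul_nonneg hD h3
      have h : (a * c) * (D * (b * d)) = D * ((a * c) * (b * d)) := by ring
      rw [h]; exact this
    exact ((abs_add_eq_add_abs_iff _ _).2 (by
      rcases le_total 0 (a * c) with h | h
      · rcases h.eq_or_lt with h' | h'
        · rw [← h']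
          rcases le_total 0 (D * (b * d)) with h'' | h''
          · exact Or.inl ⟨le_refl _, h''⟩
          · exact Or.inr ⟨le_refl _, h''⟩
        · exact Or.inl ⟨h, nonneg_of_mul_nonneg_right h6 h'⟩
      · rcases h.eq_or_lt with h' | h'
        · rw [h']
          rcases le_total 0 (D * (b * d)) with h'' | h''
          · exact Or.inl ⟨le_refl _, h''⟩
          · exact Or.inr ⟨le_refl _, h''⟩
        · right
          refine ⟨h, ?_⟩
          by_contra hc
          push Not at hc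
          have := mul_neg_of_neg_of_pos h' hc
          linarith)).symm
  · rw [← abs_mul, ← abs_mul]
    exact ((abs_add_eq_add_abs_iff _ _).2 (by
      rcases le_total 0 (a * d) with h | h
      · rcases h.eq_or_lt with h' | h'
        · rw [← h']
          rcases le_total 0 (b * c) with h'' | h''
          · exact Or.inl ⟨le_refl _, h''⟩
          · exact Or.inr ⟨le_refl _, h''⟩
        · exact Or.inl ⟨h, nonneg_of_mul_nonneg_right h4 h'⟩
      · rcases h.eq_or_lt with h' | h'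
        · rw [h']
          rcases le_total 0 (b * c) with h'' | h''
          · exact Or.inl ⟨le_refl _, h''⟩
          · exact Or.inr ⟨le_refl _, h''⟩
        · right
          refine ⟨h, ?_⟩
          by_contra hc
          push Not at hc
          have := mul_neg_of_neg_of_pos h' hc
          linarith)).symm

/-- integers dividing an element with `im = 1` are units -/
theorem int_dvd_im_one {e : ℤ} {n : ℤ} {z : R e} (h : (n : R e) ∣ z) (hz : z.im = 1) :
    n.natAbs = 1 := by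
  obtain ⟨k, hk⟩ := h
  have := congrArg QuadraticAlgebra.im hk
  rw [hz] at this
  simp only [im_mul, im_intCast, re_intCast, zero_mul, add_zero, mul_zero] at this
  have h2 : n ∣ 1 := ⟨k.im, by simpa using this⟩
  exact Int.natAbs_of_isUnit (isUnit_of_dvd_one h2)

theorem factor_coords {q1 q2 c B η m e : ℤ} (hD : 4 * e + 1 = q1 * q2)
    (hsq : ¬ IsSquare (4 * e + 1)) [IsPrincipalIdealRing (R e)]
    (hq1 : 3 ≤ q1) (hq2 : q1 < q2) (hm1 : q1 % 4 = 3) (hm2 : q2 % 4 = 3)
    (hc : 0 < c) (hB : 0 < B) (hη : η = 1 ∨ η = -1) (hκ : q1 * c ^ 2 - B ^ 2 * q2 = 4 * η)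
    (hm : 0 < m) (hmo : m % 2 = 1) (hmD : 4 * m ^ 2 < q1 * q2)
    {p l : ℕ} (hp : p.Prime) (hl : 1 < l) (hF : (q1 * m ^ 2 - q2).natAbs = 4 * (p * l)) :
    ∃ a1 b1 a2 b2 : ℤ, 0 ≤ a1 ∧ 0 < b1 ∧ 0 ≤ a2 ∧ 0 < b2 ∧ (a1 - b1) % 2 = 0 ∧
      (a2 - b2) % 2 = 0 ∧
      ((a1 * a2 + q1 * q2 * (b1 * b2) = q1 * m * c + B * q2 ∧ a1 * b2 + b1 * a2 = c + m * B) ∨
        (a1 * a2 + q1 * q2 * (b1 * b2) = |q1 * m * c - B * q2| ∧
          a1 * b2 + b1 * a2 = |c - m * B|)) := by
  have hDom : IsDomain (R e) := isDomain hsq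
  have hq1p : 0 < q1 := by omega
  have hq2p : 0 < q2 := by omega
  have hηη : η * η = 1 := by rcases hη with h | h <;> rw [h] <;> norm_num
  -- parities
  have hcB : (c - B) % 2 = 0 := by
    have h1 : (q1 * c ^ 2 - B ^ 2 * q2) % 2 = 0 := by rw [hκ]; omega
    rcases Int.emod_two_eq_zero_or_one c with h | h <;>
    rcases Int.emod_two_eq_zero_or_one B with h' | h'
    · omega
    · exfalso
      obtain ⟨x, hx⟩ : ∃ x, c = 2 * x := ⟨c / 2, by omega⟩
      obtain ⟨y, hy⟩ : ∃ y, B = 2 * y + 1 := ⟨B / 2, by omega⟩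
      obtain ⟨z, hz⟩ : ∃ z, q2 = 2 * z + 1 := ⟨q2 / 2, by omega⟩
      rw [hx, hy, hz] at h1
      ring_nf at h1
      omega
    · exfalso
      obtain ⟨x, hx⟩ : ∃ x, c = 2 * x + 1 := ⟨c / 2, by omega⟩
      obtain ⟨y, hy⟩ : ∃ y, B = 2 * y := ⟨B / 2, by omega⟩
      obtain ⟨z, hz⟩ : ∃ z, q1 = 2 * z + 1 := ⟨q1 / 2, by omega⟩
      rw [hx, hy, hz] at h1
      ring_nf at h1
      omega
    · omega
  obtain ⟨q1', hq1'⟩ : ∃ x, q1 = 4 * x + 3 := ⟨q1 / 4, by omega⟩
  obtain ⟨q2', hq2'⟩ : ∃ x, q2 = 4 * x + 3 := ⟨q2 / 4, by omega⟩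
  obtain ⟨m', hm'⟩ : ∃ x, m = 2 * x + 1 := ⟨m / 2, by omega⟩
  obtain ⟨c', hc'⟩ : ∃ x, c = B + 2 * x := ⟨(c - B) / 2, by omega⟩
  -- κ
  obtain ⟨κ, hκt, hκi⟩ : ∃ z : R e, tr z = q1 * c ∧ z.im = B := by
    apply exists_mk
    rw [hq1', hc']
    have : (4 * q1' + 3) * (B + 2 * c') - B = 2 * ((2 * q1' + 1) * B + (4 * q1' + 3) * c') := by ring
    rw [this]; omega
  -- ε
  obtain ⟨ε, hεt, hεi⟩ : ∃ z : R e, tr z = B ^ 2 * q2 + 2 * η ∧ z.im = c * B := by
    apply exists_mk
    rw [hq2', hc']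
    have : B ^ 2 * (4 * q2' + 3) + 2 * η - (B + 2 * c') * B
        = 2 * (B ^ 2 * (2 * q2' + 1) + η - c' * B) := by ring
    rw [this]; omega
  -- α
  obtain ⟨α, hαt, hαi⟩ : ∃ z : R e, tr z = q1 * m ∧ z.im = 1 := by
    apply exists_mk
    rw [hq1', hm']
    have : (4 * q1' + 3) * (2 * m' + 1) - 1 = 2 * ((4 * q1' + 3) * m' + 2 * q1' + 1) := by ring
    rw [this]; omega
  -- δ
  obtain ⟨δ, hδt, hδi⟩ : ∃ z : R e, 2 * tr z = η * (q1 * c * m - q2 * B) ∧
      2 * z.im = η * (c - B * m) := by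
    have h1 : q1 * c * m - q2 * B = 2 * ((q1 * c * m - q2 * B) / 2) := by
      have : q1 * c * m - q2 * B = 2 * ((4 * q1' + 3) * (B + 2 * c') * m'
        + 2 * q1' * B + (4 * q1' + 3) * c' - 2 * q2' * B) := by
        rw [hq1', hc', hm', hq2']; ring
      omega
    have h2 : c - B * m = 2 * (c' - B * m') := by rw [hc', hm']; ring
    obtain ⟨z, hz1, hz2⟩ := exists_mk (e := e) (η * ((q1 * c * m - q2 * B) / 2))
      (η * (c' - B * m')) (by
        have h3 : (q1 * c * m - q2 * B) / 2 = (4 * q1' + 3) * (B + 2 * c') * m'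
          + 2 * q1' * B + (4 * q1' + 3) * c' - 2 * q2' * B := by
          have : q1 * c * m - q2 * B = 2 * ((4 * q1' + 3) * (B + 2 * c') * m'
            + 2 * q1' * B + (4 * q1' + 3) * c' - 2 * q2' * B) := by
            rw [hq1', hc', hm', hq2']; ring
          omega
        rw [h3]
        have : η * ((4 * q1' + 3) * (B + 2 * c') * m' + 2 * q1' * B + (4 * q1' + 3) * c'
          - 2 * q2' * B) - η * (c' - B * m')
          = 2 * (η * ((2 * q1' + 2) * B * m' + (4 * q1' + 3) * c' * m' + q1' * B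
            + (2 * q1' + 1) * c' - q2' * B)) := by ring
        rw [this]; omega)
    refine ⟨z, ?_, ?_⟩
    · rw [hz1]
      have : 2 * (η * ((q1 * c * m - q2 * B) / 2)) = η * (2 * ((q1 * c * m - q2 * B) / 2)) := by ring
      rw [this, ← h1]
    · rw [hz2, h2]; ring
  -- relations
  have hκε : κ * κ = (q1 : R e) * ε := by
    apply ext'
    · have h1 := tr_mul κ κ
      have h2 := tr_mul (q1 : R e) ε
      rw [tr_int, im_intCast] at h2
      rw [hκt, hκi, hD] at h1
      rw [hεt] at h2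
      have h3 : q1 * (q1 * c ^ 2) = q1 * (B ^ 2 * q2 + 4 * η) := by rw [← hκ]; ring
      have : 2 * tr (κ * κ) = 2 * tr ((q1 : R e) * ε) := by
        rw [h1, h2]; linear_combination h3
      omega
    · have h1 := im_mul2 κ κ
      have h2 := im_mul2 (q1 : R e) ε
      rw [tr_int, im_intCast] at h2
      rw [hκt, hκi] at h1
      rw [hεi] at h2
      have : 2 * (κ * κ).im = 2 * ((q1 : R e) * ε).im := by rw [h1, h2]; ring
      omega
  have hκδ : κ * δ = α := by
    apply ext'
    · have h1 := tr_mul κ δ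
      rw [hκt, hκi, hD] at h1
      have : 4 * tr (κ * δ) = 4 * tr α := by
        rw [hαt]
        linear_combination 2 * h1 + q1 * c * hδt + q1 * q2 * B * hδi + η * q1 * m * hκ
          + 4 * q1 * m * hηη
      omega
    · have h1 := im_mul2 κ δ
      rw [hκt, hκi] at h1
      have : 4 * (κ * δ).im = 4 * α.im := by
        rw [hαi]
        linear_combination 2 * h1 + q1 * c * hδi + B * hδt + η * hκ + 4 * hηη
      omega
  have hNκ : norm κ = η * q1 := by
    have h1 := four_norm κ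
    rw [hκt, hκi, hD] at h1
    have : 4 * norm κ = 4 * (η * q1) := by linear_combination h1 + q1 * hκ
    omega
  have hNε : norm ε = 1 := by
    have h1 := four_norm ε
    rw [hεt, hεi, hD] at h1
    have : 4 * norm ε = 4 := by
      linear_combination h1 - B ^ 2 * q2 * hκ + 4 * hηη
    omega
  have hNα : 4 * norm α = q1 * (q1 * m ^ 2 - q2) := by
    have h1 := four_norm α
    rw [hαt, hαi, hD] at h1
    linear_combination h1
  have hq10 : q1 ≠ 0 := by omega
  have hNδ : (norm δ).natAbs = p * l := by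
    have h1 : norm κ * norm δ = norm α := by rw [← map_mul, hκδ]
    have h2 : 4 * (η * q1 * norm δ) = q1 * (q1 * m ^ 2 - q2) := by
      rw [← hNκ, h1, hNα]
    have h3 : 4 * (η * norm δ) = q1 * m ^ 2 - q2 := by
      apply mul_left_cancel₀ hq10
      linear_combination h2
    have h4 : (4 * (η * norm δ)).natAbs = 4 * (p * l) := by rw [h3, hF]
    rw [Int.natAbs_mul, Int.natAbs_mul] at h4
    have h5 : η.natAbs = 1 := by rcases hη with h | h <;> rw [h] <;> rfl
    rw [h5, one_mul] at h4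
    have h6 : (4 : ℤ).natAbs = 4 := rfl
    rw [h6] at h4
    omega
  have hpδ : ¬ (p : R e) ∣ δ := by
    intro h
    have h1 : ((p : ℤ) : R e) ∣ α := by
      rw [← hκδ]
      exact (by simpa using h : ((p : ℤ) : R e) ∣ δ).mul_left κ
    have h2 := int_dvd_im_one h1 hαi
    have h3 := hp.one_lt
    simp at h2
    omega
  have hpN : (p : ℤ) ∣ norm δ := by
    rw [Int.natCast_dvd, hNδ]
    exact dvd_mul_right _ _
  obtain ⟨β, γ, hβγ, hNβ⟩ := exists_factor hsq hp hpN hpδ
  have hNγ : (norm γ).natAbs = l := by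
    have h1 : (norm β).natAbs * (norm γ).natAbs = p * l := by
      rw [← Int.natAbs_mul, ← map_mul, ← hβγ, hNδ]
    rw [hNβ] at h1
    exact Nat.eq_of_mul_eq_mul_left hp.pos h1
  have hβ0 : β ≠ 0 := by
    rintro rfl
    simp at hNβ
    exact hp.ne_zero hNβ.symm
  have hγ0 : γ ≠ 0 := by
    rintro rfl
    simp at hNγ
    omega
  -- the unit
  have hεs : ε * star ε = 1 := by rw [mul_star_self, hNε]; simp
  let u : (R e)ˣ := ⟨ε, star ε, hεs, by rw [mul_comm]; exact hεs⟩
  -- real embeddings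
  have hDpos : (0 : ℝ) < q1 * q2 := by
    have h1 : (0 : ℤ) < q1 * q2 := by positivity
    exact_mod_cast h1
  set s : ℝ := Real.sqrt (q1 * q2) with hsdef
  have hs0 : 0 < s := Real.sqrt_pos.2 hDpos
  have hs2 : s ^ 2 = q1 * q2 := Real.sq_sqrt hDpos.le
  have hs : s ^ 2 = 4 * e + 1 := by rw [hs2]; exact_mod_cast hD.symm
  have hs' : (-s) ^ 2 = 4 * e + 1 := by rw [neg_sq]; exact hs
  set E : ℝ := emb s hs ε with hE
  have hc1 : (1 : ℝ) ≤ c := by exact_mod_cast hc
  have hB1 : (1 : ℝ) ≤ B := by exact_mod_cast hB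
  have hq1r : (3 : ℝ) ≤ q1 := by exact_mod_cast hq1
  have hq2r : (7 : ℝ) ≤ q2 := by
    have : (7 : ℤ) ≤ q2 := by omega
    exact_mod_cast this
  have hηr : (-1 : ℝ) ≤ η := by rcases hη with h | h <;> rw [h] <;> norm_num
  have hE1 : 1 < E := by
    rw [hE, emb_eq, hεt, hεi]
    push_cast
    have h1 : (1 : ℝ) * 7 ≤ (B : ℝ) ^ 2 * q2 := by
      apply mul_le_mul _ hq2r (by norm_num) (by positivity)
      nlinarith
    have h2 : 0 < (c : ℝ) * B * s := by positivity
    linarith
  have hE0 : 0 < E := by linarith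
  have hEE : E * emb (-s) hs' ε = 1 := by
    rw [hE, emb_mul_conj s hs hs', hNε]; simp
  have hE' : emb (-s) hs' ε = E⁻¹ := by
    field_simp
    linarith
  -- powers of the unit
  have hpow : ∀ k : ℤ, emb s hs ((u ^ k : (R e)ˣ) : R e) = E ^ k := by
    intro k
    have h1 : ((Units.map (emb s hs : R e →* ℝ)) (u ^ k) : ℝ) = emb s hs ((u ^ k : (R e)ˣ) : R e) :=
      rfl
    rw [← h1, map_zpow, Units.val_zpow_eq_zpow_val]
    rfl
  have hpow' : ∀ k : ℤ, emb (-s) hs' ((u ^ k : (R e)ˣ) : R e) = (E⁻¹) ^ k := by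
    intro k
    have h1 : ((Units.map (emb (-s) hs' : R e →* ℝ)) (u ^ k) : ℝ)
      = emb (-s) hs' ((u ^ k : (R e)ˣ) : R e) := rfl
    rw [← h1, map_zpow, Units.val_zpow_eq_zpow_val]
    congr 1
  have hTu : ∀ k : ℤ, TT s hs hs' ((u ^ k : (R e)ˣ) : R e) = (E ^ 2) ^ k := by
    intro k
    unfold TT
    rw [hpow, hpow', abs_of_pos (zpow_pos hE0 k), abs_of_pos (zpow_pos (inv_pos.2 hE0) k),
      inv_zpow', zpow_neg, div_inv_eq_mul, ← mul_zpow, sq]
  have hE2 : 1 < E ^ 2 := by nlinarith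
  have hnormalise : ∀ z : R e, z ≠ 0 → ∃ k : ℤ, 1 ≤ TT s hs hs' (((u ^ k : (R e)ˣ) : R e) * z) ∧
      TT s hs hs' (((u ^ k : (R e)ˣ) : R e) * z) < E ^ 2 := by
    intro z hz
    obtain ⟨n, hn1, hn2⟩ := exists_mem_Ico_zpow (TT_pos (hs := hs) (hs' := hs') hsq hz) hE2
    have hp0 : 0 < (E ^ 2) ^ n := zpow_pos (by linarith) n
    refine ⟨-n, ?_, ?_⟩
    · rw [TT_mul, hTu, zpow_neg, inv_mul_eq_div, one_le_div hp0]
      exact hn1
    · rw [TT_mul, hTu, zpow_neg, inv_mul_eq_div, div_lt_iff₀ hp0]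
      rw [zpow_add₀ (by positivity), zpow_one] at hn2
      rw [mul_comm]; exact hn2
  obtain ⟨k1, hk1a, hk1b⟩ := hnormalise β hβ0
  obtain ⟨k2, hk2a, hk2b⟩ := hnormalise γ hγ0
  set β1 : R e := ((u ^ k1 : (R e)ˣ) : R e) * β with hβ1
  set γ1 : R e := ((u ^ k2 : (R e)ˣ) : R e) * γ with hγ1
  have hu0 : ∀ k : ℤ, ((u ^ k : (R e)ˣ) : R e) ≠ 0 := fun k => (u ^ k).ne_zero
  have hβ10 : β1 ≠ 0 := mul_ne_zero (hu0 _) hβ0
  have hγ10 : γ1 ≠ 0 := mul_ne_zero (hu0 _) hγ0
  have hδ0 : δ ≠ 0 := by rw [hβγ]; exact mul_ne_zero hβ0 hγ0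
  set j : ℤ := k1 + k2 with hj
  have hZ : β1 * γ1 = ((u ^ j : (R e)ˣ) : R e) * δ := by
    rw [hβ1, hγ1, hj, zpow_add, Units.val_mul, hβγ]; ring
  -- im ≠ 0
  have hNu : ∀ k : ℤ, (norm ((u ^ k : (R e)ˣ) : R e)).natAbs = 1 := by
    intro k
    have := isUnit_iff_norm_isUnit.1 (u ^ k).isUnit
    rwa [Int.isUnit_iff_natAbs_eq] at this
  have hβi : β1.im ≠ 0 := by
    intro h0
    have h1 := four_norm β1
    rw [h0] at h1
    have h2 : (norm β1).natAbs = p := by
      rw [hβ1, map_mul, Int.natAbs_mul, hNu, one_mul, hNβ]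
    have h3 : β1.re * β1.re = norm β1 := by
      rw [norm_def, h0]; ring
    have h4 : β1.re.natAbs * β1.re.natAbs = p := by
      rw [← Int.natAbs_mul, h3, h2]
    exact hp.not_isSquare ⟨_, h4.symm⟩
  have hγi : γ1.im ≠ 0 := by
    intro h0
    have h2 : (norm γ1).natAbs = l := by
      rw [hγ1, map_mul, Int.natAbs_mul, hNu, one_mul, hNγ]
    have h3 : γ1.re * γ1.re = norm γ1 := by
      rw [norm_def, h0]; ring
    have h4 : γ1.re.natAbs * γ1.re.natAbs = l := by
      rw [← Int.natAbs_mul, h3, h2]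
    have h5 : (γ1.re : R e) = γ1 := by
      ext
      · simp
      · simp [h0]
    have h6 : (γ1.re : R e) ∣ α := by
      rw [h5, ← hκδ, hβγ]
      have h7 : γ = ((u ^ (-k2) : (R e)ˣ) : R e) * γ1 := by
        rw [hγ1, ← mul_assoc, ← Units.val_mul, ← zpow_add]; simp
      rw [h7]
      exact ⟨κ * β * ((u ^ (-k2) : (R e)ˣ) : R e), by ring⟩
    have h7 := int_dvd_im_one h6 hαi
    rw [h7] at h4
    omega
  have hDnn : (0 : ℤ) ≤ q1 * q2 := by positivity
  -- T of κ, α, δ
  have hφκ : emb s hs κ = (q1 * c + B * s) / 2 := by rw [emb_eq, hκt, hκi]; push_cast; ring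
  have hφα : emb s hs α = (q1 * m + s) / 2 := by rw [emb_eq, hαt, hαi]; push_cast; ring
  have hmr : (1 : ℝ) ≤ m := by exact_mod_cast hm
  have hφκpos : 0 < emb s hs κ := by rw [hφκ]; positivity
  have hφαpos : 0 < emb s hs α := by rw [hφα]; positivity
  have hκsq : emb s hs κ * emb s hs κ = q1 * E := by
    rw [← map_mul, hκε, map_mul]
    congr 1
    simp [emb]
  have hTκ : TT s hs hs' κ = E := by
    unfold TT
    have h1 := emb_mul_conj s hs hs' κ
    have h2 : |emb s hs κ| * |emb (-s) hs' κ| = q1 := by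
      rw [← abs_mul, h1, hNκ]
      push_cast
      rw [abs_mul, abs_of_pos (by positivity : (0 : ℝ) < q1)]
      rcases hη with h | h <;> rw [h] <;> simp
    rw [abs_of_pos hφκpos] at h2 ⊢
    have h3 : |emb (-s) hs' κ| = q1 / emb s hs κ := by
      field_simp
      linarith
    rw [h3, div_div_eq_mul_div, hκsq]
    field_simp
  have hTα : 1 ≤ TT s hs hs' α := by
    unfold TT
    have hα0 : α ≠ 0 := by
      intro h
      rw [h] at hαi
      simp at hαi
    have h2 := abs_pos.2 (emb_ne_zero (hs := hs') hsq hα0)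
    rw [one_le_div h2, abs_of_pos hφαpos, hφα, emb_eq, hαt, hαi]
    push_cast
    rw [abs_le]
    constructor <;> nlinarith
  have hTδ : TT s hs hs' δ = TT s hs hs' α / E := by
    rw [← hκδ, TT_mul, hTκ]
    field_simp
  -- T of the product
  have hTZ1 : 1 ≤ TT s hs hs' (β1 * γ1) := by
    rw [TT_mul]; exact one_le_mul_of_one_le_of_one_le hk1a hk2a
  have hTZ2 : TT s hs hs' (β1 * γ1) < E ^ 4 := by
    rw [TT_mul]
    have : E ^ 4 = E ^ 2 * E ^ 2 := by ring
    rw [this]
    exact mul_lt_mul'' hk1b hk2b (by linarith) (by linarith)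
  have hTZ3 : TT s hs hs' (β1 * γ1) = (E ^ 2) ^ j * (TT s hs hs' α / E) := by
    rw [hZ, TT_mul, hTu, hTδ]
  -- the coordinates
  have hcβ := coherent (hs := hs) (hs' := hs') hsq hs0 hβ10 hk1a
  have hcγ := coherent (hs := hs) (hs' := hs') hsq hs0 hγ10 hk2a
  have hcombo := abs_combo hDnn hcβ hcγ
  have hparity : ∀ z : R e, (|tr z| - |z.im|) % 2 = 0 := by
    intro z
    have := tr_parity z
    rcases abs_cases (tr z) with ⟨h, _⟩ | ⟨h, _⟩ <;> rcases abs_cases z.im with ⟨h', _⟩ | ⟨h', _⟩ <;>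
      rw [h, h'] <;> omega
  -- case distinction on j
  rcases lt_or_ge j 1 with hj1 | hj1
  · -- j ≤ 0
    exfalso
    have hZ0 : β1 * γ1 ≠ 0 := mul_ne_zero hβ10 hγ10
    have h1 := abs_tr_le (hs := hs) (hs' := hs') hsq hZ0 hTZ1
    have h2 : |emb s hs (β1 * γ1)| ≤ emb s hs α / emb s hs κ := by
      rw [hZ, map_mul, hpow, abs_mul, abs_of_pos (zpow_pos hE0 j)]
      have h3 : |emb s hs δ| = emb s hs α / emb s hs κ := by
        rw [← hκδ, map_mul]
        have h4 : 0 < emb s hs κ * emb s hs δ := by rw [← map_mul, hκδ]; exact hφαpos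
        have h5 : 0 < emb s hs δ := (mul_pos_iff_of_pos_left hφκpos).1 h4
        rw [abs_of_pos h5]
        field_simp
      rw [h3]
      have h4 : E ^ j ≤ 1 := zpow_le_one_of_nonpos₀ hE1.le (by omega)
      exact mul_le_of_le_one_left (by positivity) h4
    have h3 : ((q1 * q2 : ℤ) : ℝ) ≤ |((2 * tr (β1 * γ1) : ℤ) : ℝ)| := by
      have h4 : q1 * q2 ≤ |2 * tr (β1 * γ1)| := by
        rw [tr_mul, hD, ← hcombo.1]
        have h5 : 1 ≤ |β1.im| := Int.one_le_abs hβi
        have h6 : 1 ≤ |γ1.im| := Int.one_le_abs hγi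
        have h7 : 1 ≤ |β1.im| * |γ1.im| := one_le_mul_of_one_le_of_one_le h5 h6
        have h8 : 0 ≤ |tr β1| * |tr γ1| := by positivity
        nlinarith
      have := (Int.cast_le (R := ℝ)).2 h4
      rw [Int.cast_abs] at this
      exact this
    push_cast at h3
    rw [abs_mul, abs_of_pos (by norm_num : (0 : ℝ) < 2)] at h3
    have h4 : (q1 : ℝ) * q2 ≤ 4 * (emb s hs α / emb s hs κ) := by linarith
    have h5 : (q1 : ℝ) * q2 * emb s hs κ ≤ 4 * emb s hs α := by
      rw [mul_div_assoc', le_div_iff₀ hφκpos] at h4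
      exact h4
    rw [hφκ, hφα] at h5
    have h6 : 2 * (m : ℝ) < s := by
      have h7 : (2 * (m : ℝ)) ^ 2 < s ^ 2 := by
        rw [hs2]
        have : ((4 * m ^ 2 : ℤ) : ℝ) < ((q1 * q2 : ℤ) : ℝ) := by exact_mod_cast hmD
        push_cast at this
        linarith
      exact lt_of_pow_lt_pow_left₀ 2 hs0.le h7
    -- D (q1 c + B s) ≤ 4 (q1 m + s)
    have h7 : (q1 : ℝ) * q2 * s ≤ 4 * (q1 * m + s) := by
      have h8 : s ≤ q1 * c + B * s := by nlinarith
      have h9 : (q1 : ℝ) * q2 * s ≤ q1 * q2 * (q1 * c + B * s) :=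
        mul_le_mul_of_nonneg_left h8 hDpos.le
      linarith
    have h8 : (q1 : ℝ) * q2 * s < (2 * q1 + 4) * s := by nlinarith
    have h9 : (q1 : ℝ) * q2 < 2 * q1 + 4 := lt_of_mul_lt_mul_right h8 hs0.le
    nlinarith
  rcases lt_or_ge j 3 with hj3 | hj3
  · have hj' : j = 1 ∨ j = 2 := by omega
    rcases hj' with hj' | hj'
    · -- j = 1
      refine ⟨|tr β1|, |β1.im|, |tr γ1|, |γ1.im|, abs_nonneg _, abs_pos.2 hβi, abs_nonneg _,
        abs_pos.2 hγi, hparity _, hparity _, Or.inl ⟨?_, ?_⟩⟩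
      · rw [hcombo.1, ← hD, ← tr_mul, hZ, hj', zpow_one]
        have h1 : (q1 : R e) * (ε * δ) = κ * α := by
          rw [← mul_assoc, ← hκε, mul_assoc, hκδ]
        have h2 := congrArg tr h1
        have h3 := tr_mul (q1 : R e) (ε * δ)
        have h4 := tr_mul κ α
        rw [tr_int, im_intCast] at h3
        rw [hκt, hκi, hαt, hαi, hD] at h4
        have h5 : q1 * (2 * tr (ε * δ)) = q1 * (q1 * m * c + B * q2) := by
          linear_combination h4 + 2 * h2 - h3
        have h6 := mul_left_cancel₀ hq10 h5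
        show |2 * tr (ε * δ)| = _
        rw [h6, abs_of_nonneg (by positivity)]
      · rw [hcombo.2]
        have h0 := im_mul2 β1 γ1
        rw [← h0, hZ, hj', zpow_one]
        have h1 : (q1 : R e) * (ε * δ) = κ * α := by
          rw [← mul_assoc, ← hκε, mul_assoc, hκδ]
        have h2 := congrArg QuadraticAlgebra.im h1
        have h3 := im_mul2 (q1 : R e) (ε * δ)
        have h4 := im_mul2 κ α
        rw [tr_int, im_intCast] at h3
        rw [hκt, hκi, hαt, hαi] at h4
        have h5 : q1 * (2 * (ε * δ).im) = q1 * (c + m * B) := by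
          linear_combination h4 + 2 * h2 - h3
        have h6 := mul_left_cancel₀ hq10 h5
        show |2 * (ε * δ).im| = _
        rw [h6, abs_of_nonneg (by positivity)]
    · -- j = 2
      set β2 : R e := ε * star β1 with hβ2
      set γ2 : R e := ε * star γ1 with hγ2
      have hprod : β2 * γ2 = star δ := by
        have h1 : β2 * γ2 = ε * ε * star (β1 * γ1) := by
          have h0 : star (β1 * γ1) = star γ1 * star β1 := star_mul β1 γ1
          rw [hβ2, hγ2, h0]; ring
        rw [h1, hZ, hj', star_mul]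
        have h2 : ((u ^ (2 : ℤ) : (R e)ˣ) : R e) = ε * ε := by
          rw [zpow_two, Units.val_mul]
        rw [h2, star_mul]
        calc ε * ε * (star δ * (star ε * star ε)) = star δ * ((ε * star ε) * (ε * star ε)) := by ring
          _ = star δ := by rw [hεs]; ring
      have hε0 : ε ≠ 0 := by
        intro h
        rw [h, zero_mul] at hεs
        exact zero_ne_one hεs
      have hβ20 : β2 ≠ 0 := mul_ne_zero hε0 (star_ne_zero.2 hβ10)
      have hγ20 : γ2 ≠ 0 := mul_ne_zero hε0 (star_ne_zero.2 hγ10)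
      have hTε : TT s hs hs' ε = E ^ 2 := by
        have := hTu 1
        rw [zpow_one, zpow_one] at this
        exact this
      have hTβ2 : 1 ≤ TT s hs hs' β2 := by
        rw [hβ2, TT_mul, hTε, TT_star, ← div_eq_mul_inv, one_le_div (by linarith)]
        exact hk1b.le
      have hTγ2 : 1 ≤ TT s hs hs' γ2 := by
        rw [hγ2, TT_mul, hTε, TT_star, ← div_eq_mul_inv, one_le_div (by linarith)]
        exact hk2b.le
      have hcβ2 := coherent (hs := hs) (hs' := hs') hsq hs0 hβ20 hTβ2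
      have hcγ2 := coherent (hs := hs) (hs' := hs') hsq hs0 hγ20 hTγ2
      have hcombo2 := abs_combo hDnn hcβ2 hcγ2
      have hβ2i : β2.im ≠ 0 := by
        intro h0
        have h2 : (norm β2).natAbs = p := by
          rw [hβ2, map_mul, Int.natAbs_mul, hNε, QuadraticAlgebra.norm_star, hβ1, map_mul,
            Int.natAbs_mul, hNu, hNβ]
          simp
        have h3 : β2.re * β2.re = norm β2 := by
          rw [norm_def, h0]; ring
        have h4 : β2.re.natAbs * β2.re.natAbs = p := by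
          rw [← Int.natAbs_mul, h3, h2]
        exact hp.not_isSquare ⟨_, h4.symm⟩
      have hγ2i : γ2.im ≠ 0 := by
        intro h0
        have h2 : (norm γ2).natAbs = l := by
          rw [hγ2, map_mul, Int.natAbs_mul, hNε, QuadraticAlgebra.norm_star, hγ1, map_mul,
            Int.natAbs_mul, hNu, hNγ]
          simp
        have h3 : γ2.re * γ2.re = norm γ2 := by
          rw [norm_def, h0]; ring
        have h4 : γ2.re.natAbs * γ2.re.natAbs = l := by
          rw [← Int.natAbs_mul, h3, h2]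
        have h5 : (γ2.re : R e) = γ2 := by
          ext
          · simp
          · simp [h0]
        have h6 : (γ2.re : R e) ∣ α := by
          have h7 : star (γ2.re : R e) = (γ2.re : R e) := by simp
          have h8 : γ2 ∣ star δ := ⟨β2, by rw [← hprod]; ring⟩
          rw [← h5] at h8
          obtain ⟨k, hk⟩ := h8
          have h9 := congrArg star hk
          rw [star_star, star_mul, h7] at h9
          rw [← hκδ, h9]
          exact ⟨κ * star k, by ring⟩
        have h7 := int_dvd_im_one h6 hαi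
        rw [h7] at h4
        omega
      refine ⟨|tr β2|, |β2.im|, |tr γ2|, |γ2.im|, abs_nonneg _, abs_pos.2 hβ2i, abs_nonneg _,
        abs_pos.2 hγ2i, hparity _, hparity _, Or.inr ⟨?_, ?_⟩⟩
      · rw [hcombo2.1, ← hD, ← tr_mul, hprod, tr_star, hδt, abs_mul]
        have : |η| = 1 := by rcases hη with h | h <;> rw [h] <;> norm_num
        rw [this, one_mul]
        congr 1; ring
      · rw [hcombo2.2]
        have h0 := im_mul2 β2 γ2
        rw [← h0, hprod, im_star]
        have h1 : 2 * -δ.im = η * (-(c - m * B)) := by linear_combination -hδi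
        rw [h1, abs_mul, abs_neg]
        have : |η| = 1 := by rcases hη with h | h <;> rw [h] <;> norm_num
        rw [this, one_mul]
  · -- j ≥ 3
    exfalso
    have h1 : E ^ 4 ≤ (E ^ 2) ^ j * (TT s hs hs' α / E) := by
      have h2 : (E ^ 2) ^ (3 : ℤ) ≤ (E ^ 2) ^ j := zpow_le_zpow_right₀ hE2.le hj3
      have h3 : 1 / E ≤ TT s hs hs' α / E := by gcongr
      have h4 : (E ^ 2) ^ (3 : ℤ) * (1 / E) ≤ (E ^ 2) ^ j * (TT s hs hs' α / E) :=
        mul_le_mul h2 h3 (by positivity) (by positivity)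
      have h5 : (E ^ 2) ^ (3 : ℤ) * (1 / E) = E ^ 5 := by
        have : (E ^ 2) ^ (3 : ℤ) = E ^ 6 := by norm_cast; ring
        rw [this]
        field_simp
      rw [h5] at h4
      have h6 : E ^ 4 ≤ E ^ 5 := pow_le_pow_right₀ hE1.le (by norm_num)
      linarith
    rw [← hTZ3] at h1
    linarith

end QP
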