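import Mathlib
import Pool.Agent.Lib_MP_94ab8c.Defs
import Pool.Agent.Lib_MP_94ab8c.CondInt
import Pool.Agent.Lib_MP_94ab8c.Factor

/-!
In the family `q1 c ^ 2 = 9 q2 ± 4` with `(q1 - 6) (c - 4) > 13`, class number one implies (1).
-/

namespace QP

theorem add_le_abs_mul {x y : ℤ} (hx : x ≠ 0) (hy : y ≠ 0) : x + y ≤ |x * y| + 1 := by
  have h1 : 1 ≤ |x| := Int.one_le_abs hx
  have h2 : 1 ≤ |y| := Int.one_le_abs hy
  have h3 : 0 ≤ (|x| - 1) * (|y| - 1) := mul_nonneg (by omega) (by omega)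
  have h4 : (|x| - 1) * (|y| - 1) = |x| * |y| - |x| - |y| + 1 := by ring
  have h5 := le_abs_self x
  have h6 := le_abs_self y
  rw [abs_mul]
  linarith

theorem three_conv {q1 q2 : ℕ} (h : Setting q1 q2) {e : ℤ} (he : 4 * e + 1 = q1 * q2)
    [IsPrincipalIdealRing (R e)] {c η : ℤ} (hη : η = 1 ∨ η = -1)
    (hκ : (q1 : ℤ) * c ^ 2 - 3 ^ 2 * q2 = 4 * η) (hc : 0 < c)
    (hbig : 13 < ((q1 : ℤ) - 6) * (c - 4)) : CondInt q1 q2 := by
  intro m hm hmo hmD
  have hsq := not_sq h he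
  have hq1 : (3 : ℤ) ≤ q1 := by have := h.mod1; omega
  have hlt : (q1 : ℤ) < q2 := by exact_mod_cast h.lt
  have hm1 : (q1 : ℤ) % 4 = 3 := by have := h.mod1; omega
  have hm2 : (q2 : ℤ) % 4 = 3 := by have := h.mod2; omega
  have hq2 : (7 : ℤ) ≤ q2 := by omega
  have hq17 : (7 : ℤ) ≤ q1 := by
    by_contra hcon
    have h1 : (q1 : ℤ) = 3 := by omega
    rw [h1] at hκ
    rcases hη with h' | h' <;> rw [h'] at hκ <;> omega
  have hc5 : 5 ≤ c := by
    by_contra hcon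
    have : ((q1 : ℤ) - 6) * (c - 4) ≤ 0 := mul_nonpos_of_nonneg_of_nonpos (by omega) (by omega)
    omega
  have hη1 : η ≤ 1 := by rcases hη with h | h <;> omega
  have hη2 : -1 ≤ η := by rcases hη with h | h <;> omega
  -- c is odd
  have hqc : ((q1 : ℤ) * c) % 2 = 1 := by
    rcases Int.emod_two_eq_zero_or_one c with h' | h'
    · exfalso
      obtain ⟨u, hu⟩ : ∃ u, c = 2 * u := ⟨c / 2, by omega⟩
      rw [hu] at hκ
      have : (q1 : ℤ) * (2 * u) ^ 2 = 4 * (q1 * u ^ 2) := by ring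
      omega
    · obtain ⟨u, hu⟩ : ∃ u, c = 2 * u + 1 := ⟨c / 2, by omega⟩
      obtain ⟨v, hv⟩ : ∃ v : ℤ, (q1 : ℤ) = 2 * v + 1 := ⟨q1 / 2, by omega⟩
      rw [hu, hv]
      have : (2 * v + 1) * (2 * u + 1) = 2 * (2 * v * u + v + u) + 1 := by ring
      omega
  -- divisibility by 4
  obtain ⟨n, hn⟩ : ∃ n : ℕ, ((q1 : ℤ) * m ^ 2 - q2).natAbs = 4 * n := by
    have h1 : (4 : ℤ) ∣ (q1 : ℤ) * m ^ 2 - q2 := by
      obtain ⟨x, hx⟩ : ∃ x : ℤ, m = 2 * x + 1 := ⟨m / 2, by omega⟩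
      obtain ⟨y, hy⟩ : ∃ y : ℤ, (q1 : ℤ) = 4 * y + 3 := ⟨q1 / 4, by omega⟩
      obtain ⟨z, hz⟩ : ∃ z : ℤ, (q2 : ℤ) = 4 * z + 3 := ⟨q2 / 4, by omega⟩
      rw [hx, hy, hz]
      refine ⟨(4 * y + 3) * (x ^ 2 + x) + y - z, by ring⟩
    obtain ⟨k, hk⟩ := h1
    refine ⟨k.natAbs, ?_⟩
    rw [hk, Int.natAbs_mul]; rfl
  refine ⟨n, hn, ?_⟩
  by_contra hcon
  push Not at hcon
  obtain ⟨hn1, hnp⟩ := hcon
  have hn0 : n ≠ 0 := by
    rintro rfl
    have h0 : (q1 : ℤ) * m ^ 2 - q2 = 0 := by simpa using hn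
    have h1 : (q1 : ℤ) ∣ q2 := ⟨m ^ 2, by linarith⟩
    have h2 : q1 ∣ q2 := by exact_mod_cast h1
    rw [Nat.prime_dvd_prime_iff_eq h.prime1 h.prime2] at h2
    exact absurd h2 h.lt.ne
  have hp : n.minFac.Prime := Nat.minFac_prime hn1
  obtain ⟨l, hl⟩ := Nat.minFac_dvd n
  have hl1 : 1 < l := by
    rcases Nat.lt_or_ge 1 l with h | h
    · exact h
    · exfalso
      interval_cases l
      · omega
      · apply hnp
        rw [hl, mul_one]; exact hp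
  rw [hl] at hn
  obtain ⟨a1, b1, a2, b2, ha1, hb1, ha2, hb2, hp1, hp2, hcase⟩ :=
    factor_coords (B := 3) he hsq hq1 hlt hm1 hm2 hc (by norm_num) hη hκ hm hmo hmD hp hl1 hn
  -- the bound 6 m ≤ q1 c - 1
  have hD9 : 9 * ((q1 : ℤ) * q2) = (q1 * c) ^ 2 - 4 * η * q1 := by
    linear_combination (-(q1 : ℤ)) * hκ
  have hqc5 : (q1 : ℤ) * 5 ≤ q1 * c := mul_le_mul_of_nonneg_left hc5 (by omega)
  have h6m : 6 * m ≤ q1 * c - 1 := by
    have h1 : (6 * m) ^ 2 < ((q1 : ℤ) * c + 1) ^ 2 := by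
      have h2 : (6 * m) ^ 2 = 9 * (4 * m ^ 2) := by ring
      have h3 : ((q1 : ℤ) * c + 1) ^ 2 = (q1 * c) ^ 2 + 2 * (q1 * c) + 1 := by ring
      have h4 : -(4 * η * (q1 : ℤ)) ≤ 4 * q1 := by nlinarith
      rw [h2, h3]
      linarith
    have h2 := lt_of_pow_lt_pow_left₀ 2 (by omega) h1
    omega
  have hqmc : 6 * ((q1 : ℤ) * m * c) ≤ 9 * (q1 * q2) - q1 := by
    have h1 : (q1 : ℤ) * c * (6 * m) ≤ q1 * c * (q1 * c - 1) :=
      mul_le_mul_of_nonneg_left h6m (by omega)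
    have h2 : (q1 : ℤ) * c * (q1 * c - 1) = (q1 * c) ^ 2 - q1 * c := by ring
    have h3 : 4 * η * (q1 : ℤ) ≤ 4 * q1 := by nlinarith
    have h4 : 6 * ((q1 : ℤ) * m * c) = q1 * c * (6 * m) := by ring
    linarith
  have h7q2 : 7 * (q2 : ℤ) ≤ q1 * q2 := mul_le_mul_of_nonneg_right hq17 (by omega)
  have hD0 : (0 : ℤ) < q1 * q2 := by omega
  have haa : 0 ≤ a1 * a2 := mul_nonneg ha1 ha2
  have hbb : 1 ≤ b1 * b2 := Int.mul_pos hb1 hb2
  have hge : (q1 : ℤ) * q2 ≤ a1 * a2 + q1 * q2 * (b1 * b2) := by nlinarith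
  have key : a1 * a2 + q1 * q2 * (b1 * b2) < 2 * (q1 * q2) → b1 = 1 ∧ b2 = 1 := by
    intro hlt2
    have hb12 : b1 * b2 ≤ 1 := by
      by_contra hcc
      push Not at hcc
      have h1 : (q1 : ℤ) * q2 * 2 ≤ q1 * q2 * (b1 * b2) :=
        mul_le_mul_of_nonneg_left (by omega) hD0.le
      linarith
    constructor
    · have : b1 ≤ b1 * b2 := le_mul_of_one_le_right hb1.le hb2
      omega
    · have : b2 ≤ b1 * b2 := le_mul_of_one_le_left hb2.le hb1
      omega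
  rcases hcase with ⟨hc1, hc2⟩ | ⟨hc1, hc2⟩
  · obtain ⟨rfl, rfl⟩ := key (by rw [hc1]; linarith)
    obtain ⟨U, hU⟩ : ∃ U, (q1 : ℤ) * c - 3 * a1 = 2 * U := ⟨(q1 * c - 3 * a1) / 2, by omega⟩
    obtain ⟨V, hV⟩ : ∃ V, (q1 : ℤ) * c - 3 * a2 = 2 * V := ⟨(q1 * c - 3 * a2) / 2, by omega⟩
    have hUV : U * V = η * (q1 - 3) := by
      have h1 : 4 * (U * V) = 4 * (η * (q1 - 3)) := by
        have h2 : 4 * (U * V) = (q1 * c - 3 * a1) * (q1 * c - 3 * a2) := by rw [hU, hV]; ring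
        rw [h2]
        have h3 : ((q1 : ℤ) * c - 3 * a1) * (q1 * c - 3 * a2)
          = (q1 * c) ^ 2 - 3 * (q1 * c) * (a1 * 1 + 1 * a2) + 9 * (a1 * a2 + q1 * q2 * (1 * 1))
            - 9 * (q1 * q2) := by ring
        rw [h3, hc1, hc2, hD9]
        linear_combination (-3 : ℤ) * hκ
      omega
    have hS : 4 * (U + V) = 4 * (q1 * c) - 6 * c - 18 * m := by
      have h1 : 2 * (U + V) = 2 * (q1 * c) - 3 * (a1 * 1 + 1 * a2) := by linear_combination -hU - hV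
      rw [hc2] at h1
      linarith
    have hU0 : U ≠ 0 := by
      rintro rfl
      rw [zero_mul] at hUV
      rcases hη with h' | h' <;> rw [h'] at hUV <;> omega
    have hV0 : V ≠ 0 := by
      rintro rfl
      rw [mul_zero] at hUV
      rcases hη with h' | h' <;> rw [h'] at hUV <;> omega
    have h1 := add_le_abs_mul hU0 hV0
    have h2 : |U * V| = q1 - 3 := by
      rw [hUV]
      rcases hη with h' | h' <;> rw [h']
      · rw [one_mul, abs_of_pos (by omega)]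
      · rw [neg_one_mul, abs_neg, abs_of_pos (by omega)]
    rw [h2] at h1
    have h3 : ((q1 : ℤ) - 6) * (c - 4) = q1 * c - 6 * c - 4 * q1 + 24 := by ring
    rw [h3] at hbig
    omega
  · have hpos : 0 ≤ (q1 : ℤ) * m * c - 3 * q2 := by
      by_contra hcon
      push Not at hcon
      rw [abs_of_neg hcon] at hc1
      have : (0 : ℤ) < q1 * m * c := by positivity
      linarith
    rw [abs_of_nonneg hpos] at hc1
    obtain ⟨rfl, rfl⟩ := key (by rw [hc1]; linarith)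
    have h3m : c ≤ 3 * m := by
      by_contra hcon
      push Not at hcon
      have h1 : (q1 : ℤ) * c * (3 * m) ≤ q1 * c * c := mul_le_mul_of_nonneg_left hcon.le (by omega)
      have h2 : (q1 : ℤ) * c * c = 9 * q2 + 4 * η := by linear_combination hκ
      have h4 : (q1 : ℤ) * c * (3 * m) = 3 * (q1 * m * c) := by ring
      rw [hc1] at hge
      linarith
    have habs : |c - m * 3| = 3 * m - c := by
      rw [abs_of_nonpos (by linarith)]; ring
    rw [habs] at hc2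
    obtain ⟨U, hU⟩ : ∃ U, (q1 : ℤ) * c - 3 * a1 = 2 * U := ⟨(q1 * c - 3 * a1) / 2, by omega⟩
    obtain ⟨V, hV⟩ : ∃ V, (q1 : ℤ) * c - 3 * a2 = 2 * V := ⟨(q1 * c - 3 * a2) / 2, by omega⟩
    have hUV : U * V = η * (q1 + 3) := by
      have h1 : 4 * (U * V) = 4 * (η * (q1 + 3)) := by
        have h2 : 4 * (U * V) = (q1 * c - 3 * a1) * (q1 * c - 3 * a2) := by rw [hU, hV]; ring
        rw [h2]
        have h3 : ((q1 : ℤ) * c - 3 * a1) * (q1 * c - 3 * a2)
          = (q1 * c) ^ 2 - 3 * (q1 * c) * (a1 * 1 + 1 * a2) + 9 * (a1 * a2 + q1 * q2 * (1 * 1))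
            - 9 * (q1 * q2) := by ring
        rw [h3, hc1, hc2, hD9]
        linear_combination (3 : ℤ) * hκ
      omega
    have hS : 4 * (U + V) = 4 * (q1 * c) + 6 * c - 18 * m := by
      have h1 : 2 * (U + V) = 2 * (q1 * c) - 3 * (a1 * 1 + 1 * a2) := by linear_combination -hU - hV
      rw [hc2] at h1
      linarith
    have hU0 : U ≠ 0 := by
      rintro rfl
      rw [zero_mul] at hUV
      rcases hη with h' | h' <;> rw [h'] at hUV <;> omega
    have hV0 : V ≠ 0 := by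
      rintro rfl
      rw [mul_zero] at hUV
      rcases hη with h' | h' <;> rw [h'] at hUV <;> omega
    have h1 := add_le_abs_mul hU0 hV0
    have h2 : |U * V| = q1 + 3 := by
      rw [hUV]
      rcases hη with h' | h' <;> rw [h']
      · rw [one_mul, abs_of_pos (by omega)]
      · rw [neg_one_mul, abs_neg, abs_of_pos (by omega)]
    rw [h2] at h1
    omega

end QP
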