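import Mathlib
import Pool.Agent.Lib_MP_94ab8c.Defs
import Pool.Agent.Lib_MP_94ab8c.CondInt
import Pool.Agent.Lib_MP_94ab8c.Factor
import Pool.Agent.Lib_MP_94ab8c.ThreeFam

/-!
The family `4 q2 = q1 c ^ 2 + 1`.
-/

namespace QP

/-- `2 q1 c - 4 s c - d + f` is `8 mod 16` -/
theorem four_parity {q1 q2 c d f s : ℤ} (hs : s = 1 ∨ s = -1) (hc : c % 4 = 1) (hd : d % 4 = 1)
    (hq2 : q2 % 8 = 7) (hκ : q1 * c ^ 2 = 4 * q2 - 1) (hq : q1 - 4 * s = d * f) :
    (2 * (q1 * c) - 4 * s * c - d + f) % 16 = 8 := by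
  obtain ⟨j, hj⟩ : ∃ j, c = 4 * j + 1 := ⟨c / 4, by omega⟩
  obtain ⟨i, hi⟩ : ∃ i, d = 4 * i + 1 := ⟨d / 4, by omega⟩
  obtain ⟨k, hk⟩ : ∃ k, q2 = 8 * k + 7 := ⟨q2 / 8, by omega⟩
  have h1 : q1 = 32 * k + 27 - 8 * (j * q1) - 16 * (j ^ 2 * q1) := by
    rw [hj, hk] at hκ
    linear_combination hκ
  obtain ⟨v, hv⟩ : ∃ v, q1 = 2 * v + 1 := ⟨q1 / 2, by omega⟩
  have h2 : j * q1 = 2 * (j * v) + j := by rw [hv]; ring
  have h2' : i * q1 = 2 * (i * v) + i := by rw [hv]; ring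
  set X := 2 * (q1 * c) - 4 * s * c - d + f with hX
  have h3 : d * X = 2 * q1 + 8 * (i * q1) + 8 * (j * q1) + 32 * (i * j * q1)
      - 4 * s - 16 * (s * i) - 16 * (s * j) - 64 * (s * i * j) - 16 * i ^ 2 - 8 * i - 1
      + q1 - 4 * s := by
    have h4 : d * X = 2 * (q1 * c) * d - 4 * s * c * d - d ^ 2 + d * f := by rw [hX]; ring
    rw [h4, ← hq, hj, hi]; ring
  have h5 : d * X = 4 * (i * X) + X := by rw [hi]; ring
  have h6 : X % 4 = 0 := by
    rcases hs with h' | h' <;> rw [h'] at h3 <;> omega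
  obtain ⟨Y, hY⟩ : ∃ Y, X = 4 * Y := ⟨X / 4, by omega⟩
  have h7 : i * X = 4 * (i * Y) := by rw [hY]; ring
  rcases hs with h' | h' <;> rw [h'] at h3 <;> omega

theorem four_q2 {q1 q2 : ℕ} (h : Setting q1 q2) {c : ℤ} (hc4 : c % 4 = 1)
    (hκ : (q1 : ℤ) * c ^ 2 = 4 * q2 - 1) : (q2 : ℤ) % 8 = 7 := by
  have hm2 : (q2 : ℤ) % 4 = 3 := by have := h.mod2; omega
  have hm8 : ((q1 : ℤ) * q2) % 8 = 5 := by exact_mod_cast h.mod8
  obtain ⟨j, hj⟩ : ∃ j, c = 4 * j + 1 := ⟨c / 4, by omega⟩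
  have h1 : (q1 : ℤ) = 4 * q2 - 1 - 8 * (j * q1) - 16 * (j ^ 2 * q1) := by
    rw [hj] at hκ
    linear_combination hκ
  obtain ⟨k, hk⟩ : ∃ k : ℤ, (q1 : ℤ) = 8 * k + 3 := ⟨q1 / 8, by omega⟩
  have h2 : (q1 : ℤ) * q2 = 8 * (k * q2) + 3 * q2 := by rw [hk]; ring
  omega

theorem four_compl {q1 q2 : ℕ} (h : Setting q1 q2) (hc : CondInt q1 q2) {c s d f : ℤ}
    (hs : s = 1 ∨ s = -1) (hc0 : 0 < c) (hc4 : c % 4 = 1) (hcq : 4 * c + 5 < q1)
    (hκ : (q1 : ℤ) * c ^ 2 = 4 * q2 - 1) (hd0 : 0 < d) (hd4 : d % 4 = 1)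
    (hq : (q1 : ℤ) - 4 * s = d * f) (hrange : f - d ≤ 4 * s * c) : False := by
  have hq1 : (9 : ℤ) < q1 := by omega
  have hm1 : (q1 : ℤ) % 4 = 3 := by have := h.mod1; omega
  have hm2 : (q2 : ℤ) % 4 = 3 := by have := h.mod2; omega
  have hss : s * s = 1 := by rcases hs with h | h <;> rw [h] <;> norm_num
  have hpar := four_parity hs hc4 hd4 (four_q2 h hc4 hκ) hκ hq
  have hq1c : (q1 : ℤ) ≤ q1 * c := le_mul_of_one_le_right (by omega) hc0
  have hdf0 : 0 < d * f := by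
    rw [← hq]
    rcases hs with h' | h' <;> rw [h'] <;> omega
  have hf0 : 0 < f := (mul_pos_iff_of_pos_left hd0).1 hdf0
  have hdle : d ≤ q1 + 4 := by
    have h1 : d ≤ d * f := le_mul_of_one_le_right hd0.le hf0
    rw [← hq] at h1
    rcases hs with h' | h' <;> rw [h'] at h1 <;> omega
  have hcc : 4 * s * c = 4 * c ∨ 4 * s * c = -(4 * c) := by
    rcases hs with h' | h' <;> rw [h']
    · left; ring
    · right; ring
  obtain ⟨m, hm⟩ : ∃ m : ℤ, 2 * ((q1 : ℤ) * c) - 4 * s * c - d + f = 8 * m :=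
    ⟨(2 * ((q1 : ℤ) * c) - 4 * s * c - d + f) / 8, by omega⟩
  have hmo : m % 2 = 1 := by omega
  have hm0 : 0 < m := by
    have h2 : 4 * c + 5 < q1 := hcq
    rcases hcc with h' | h'
    · omega
    · omega
  have hmle : 4 * m ≤ q1 * c := by omega
  have hm4 : 4 * m ^ 2 < q1 * q2 := by
    have h1 : (4 * m) ^ 2 ≤ ((q1 : ℤ) * c) ^ 2 := pow_le_pow_left₀ (by omega) hmle 2
    have h2 : ((q1 : ℤ) * c) ^ 2 = 4 * (q1 * q2) - q1 := by linear_combination (q1 : ℤ) * hκ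
    have h3 : (4 * m) ^ 2 = 4 * (4 * m ^ 2) := by ring
    rw [h2, h3] at h1
    omega
  obtain ⟨k, hk, hk2⟩ := hc m hm0 hmo hm4
  -- parities
  have hqc4 : ((q1 : ℤ) * c) % 4 = 3 := by
    obtain ⟨u, hu⟩ : ∃ u, c = 4 * u + 1 := ⟨c / 4, by omega⟩
    rw [hu]
    have : (q1 : ℤ) * (4 * u + 1) = 4 * (q1 * u) + q1 := by ring
    omega
  have hf4 : f % 4 = 3 := by
    obtain ⟨u, hu⟩ : ∃ u, d = 4 * u + 1 := ⟨d / 4, by omega⟩
    rw [hu] at hq
    have : (4 * u + 1) * f = 4 * (u * f) + f := by ring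
    rcases hs with h' | h' <;> rw [h'] at hq <;> omega
  obtain ⟨x, hx⟩ : ∃ x : ℤ, (q1 : ℤ) * c - d = 2 * (2 * x + 1) :=
    ⟨(q1 * c - d) / 4, by omega⟩
  obtain ⟨y, hy⟩ : ∃ y : ℤ, (q1 : ℤ) * c + f = 2 * (2 * y + 1) :=
    ⟨(q1 * c + f) / 4, by omega⟩
  obtain ⟨D', hD'⟩ : ∃ D' : ℤ, (q1 : ℤ) * q2 = 4 * D' + 1 := by
    have hm8 : ((q1 : ℤ) * q2) % 8 = 5 := by exact_mod_cast h.mod8
    exact ⟨(q1 : ℤ) * q2 / 4, by omega⟩
  -- the two factors
  set L1 := x ^ 2 + x - D' with hL1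
  set L2 := y ^ 2 + y - D' with hL2
  have e1 : 16 * L1 = d ^ 2 - 2 * (q1 * c) * d - q1 := by
    have h2 : ((q1 : ℤ) * c) ^ 2 = 4 * (q1 * q2) - q1 := by linear_combination (q1 : ℤ) * hκ
    have h3 : ((q1 : ℤ) * c - d) ^ 2 = (2 * (2 * x + 1)) ^ 2 := by rw [hx]
    rw [hL1]
    linear_combination -h3 + h2 + 4 * hD'
  have e2 : 16 * L2 = f ^ 2 + 2 * (q1 * c) * f - q1 := by
    have h2 : ((q1 : ℤ) * c) ^ 2 = 4 * (q1 * q2) - q1 := by linear_combination (q1 : ℤ) * hκ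
    have h3 : ((q1 : ℤ) * c + f) ^ 2 = (2 * (2 * y + 1)) ^ 2 := by rw [hy]
    rw [hL2]
    linear_combination -h3 + h2 + 4 * hD'
  have hprod : 4 * (L1 * L2) = -((q1 : ℤ) * m ^ 2 - q2) := by
    have h1 : 64 * (4 * (L1 * L2)) = 64 * (-((q1 : ℤ) * m ^ 2 - q2)) := by
      have h2 : 64 * (4 * (L1 * L2)) = (16 * L1) * (16 * L2) := by ring
      rw [h2, e1, e2]
      have h3 : 64 * (-((q1 : ℤ) * m ^ 2 - q2)) = -(q1 * (8 * m) ^ 2) + 16 * (q1 * c ^ 2 + 1) := by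
        rw [hκ]; ring
      rw [h3, ← hm]
      have h4 : (q1 : ℤ) = d * f + 4 * s := by linarith
      rcases hs with h' | h' <;> rw [h'] at h4 ⊢ <;> rw [h4] <;> ring
    omega
  have hc5 : 5 ≤ c := by
    have hlt : (q1 : ℤ) < q2 := by exact_mod_cast h.lt
    by_contra hcon
    have h1 : c = 1 := by omega
    rw [h1] at hκ
    omega
  have hqc5 : (q1 : ℤ) * 5 ≤ q1 * c := mul_le_mul_of_nonneg_left hc5 (by omega)
  have hL1neg : L1 ≤ -2 := by
    have h1 : 1 * (2 * (q1 * c) - d) ≤ d * (2 * (q1 * c) - d) :=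
      mul_le_mul_of_nonneg_right hd0 (by omega)
    have h2 : d * (2 * (q1 * c) - d) = 2 * (q1 * c) * d - d ^ 2 := by ring
    omega
  have hL2pos : 2 ≤ L2 := by
    have h1 : 1 * (2 * (q1 * c) + f) ≤ f * (2 * (q1 * c) + f) :=
      mul_le_mul_of_nonneg_right hf0 (by omega)
    have h2 : f * (2 * (q1 * c) + f) = f ^ 2 + 2 * (q1 * c) * f := by ring
    omega
  have hkL : k = L1.natAbs * L2.natAbs := by
    have h1 : ((q1 : ℤ) * m ^ 2 - q2).natAbs = 4 * (L1.natAbs * L2.natAbs) := by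
      have h2 : ((q1 : ℤ) * m ^ 2 - q2) = -(4 * (L1 * L2)) := by rw [hprod]; ring
      rw [h2, Int.natAbs_neg, Int.natAbs_mul, Int.natAbs_mul]; rfl
    omega
  have hA : 2 ≤ L1.natAbs := by omega
  have hB : 2 ≤ L2.natAbs := by omega
  rcases hk2 with h' | h'
  · rw [h'] at hkL
    have : 2 * 2 ≤ L1.natAbs * L2.natAbs := Nat.mul_le_mul hA hB
    omega
  · rw [hkL] at h'
    exact Nat.not_prime_mul (by omega) (by omega) h'

theorem four_conv {q1 q2 : ℕ} (h : Setting q1 q2) {e : ℤ} (he : 4 * e + 1 = q1 * q2)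
    [IsPrincipalIdealRing (R e)] {c : ℤ} (hc : 0 < c) (hc4 : c % 4 = 1) (hcq : 4 * c + 5 < q1)
    (hκ : (q1 : ℤ) * c ^ 2 = 4 * q2 - 1)
    (hfac1 : ∀ d f : ℤ, 0 < d → d % 4 = 1 → (q1 : ℤ) - 4 = d * f → 4 * c < f - d)
    (hfac2 : ∀ d f : ℤ, 0 < d → d % 4 = 1 → (q1 : ℤ) + 4 = d * f → d - f < 4 * c) :
    CondInt q1 q2 := by
  intro m hm hmo hmD
  have hsq := not_sq h he
  have hq1 : (3 : ℤ) ≤ q1 := by have := h.mod1; omega
  have hlt : (q1 : ℤ) < q2 := by exact_mod_cast h.lt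
  have hm1 : (q1 : ℤ) % 4 = 3 := by have := h.mod1; omega
  have hm2 : (q2 : ℤ) % 4 = 3 := by have := h.mod2; omega
  have hc5 : 5 ≤ c := by
    by_contra hcon
    have h1 : c = 1 := by omega
    rw [h1] at hκ
    omega
  have hqc4 : ((q1 : ℤ) * c) % 4 = 3 := by
    obtain ⟨u, hu⟩ : ∃ u, c = 4 * u + 1 := ⟨c / 4, by omega⟩
    rw [hu]
    have : (q1 : ℤ) * (4 * u + 1) = 4 * (q1 * u) + q1 := by ring
    omega
  -- divisibility by 4
  obtain ⟨n, hn⟩ : ∃ n : ℕ, ((q1 : ℤ) * m ^ 2 - q2).natAbs = 4 * n := by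
    have h1 : (4 : ℤ) ∣ (q1 : ℤ) * m ^ 2 - q2 := by
      obtain ⟨x, hx⟩ : ∃ x : ℤ, m = 2 * x + 1 := ⟨m / 2, by omega⟩
      obtain ⟨y, hy⟩ : ∃ y : ℤ, (q1 : ℤ) = 4 * y + 3 := ⟨q1 / 4, by omega⟩
      obtain ⟨z, hz⟩ : ∃ z : ℤ, (q2 : ℤ) = 4 * z + 3 := ⟨q2 / 4, by omega⟩
      rw [hx, hy, hz]
      refine ⟨(4 * y + 3) * (x ^ 2 + x) + y - z, by ring⟩
    obtain ⟨k, hk⟩ := h1
    refine ⟨k.natAbs, ?_⟩
    rw [hk, Int.natAbs_mul]; rfl
  refine ⟨n, hn, ?_⟩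
  by_contra hcon
  push Not at hcon
  obtain ⟨hn1, hnp⟩ := hcon
  have hn0 : n ≠ 0 := by
    rintro rfl
    have h0 : (q1 : ℤ) * m ^ 2 - q2 = 0 := by simpa using hn
    have h1 : (q1 : ℤ) ∣ q2 := ⟨m ^ 2, by linarith⟩
    have h2 : q1 ∣ q2 := by exact_mod_cast h1
    rw [Nat.prime_dvd_prime_iff_eq h.prime1 h.prime2] at h2
    exact absurd h2 h.lt.ne
  have hp : n.minFac.Prime := Nat.minFac_prime hn1
  obtain ⟨l, hl⟩ := Nat.minFac_dvd n
  have hl1 : 1 < l := by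
    rcases Nat.lt_or_ge 1 l with h | h
    · exact h
    · exfalso
      interval_cases l
      · omega
      · apply hnp
        rw [hl, mul_one]; exact hp
  rw [hl] at hn
  have hκ4 : (q1 : ℤ) * (2 * c) ^ 2 - 4 ^ 2 * q2 = 4 * (-1) := by linear_combination 4 * hκ
  obtain ⟨a1, b1, a2, b2, ha1, hb1, ha2, hb2, hp1, hp2, hcase⟩ :=
    factor_coords (B := 4) he hsq hq1 hlt hm1 hm2 (by omega : 0 < 2 * c) (by norm_num)
      (Or.inr rfl) hκ4 hm hmo hmD hp hl1 hn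
  have hD4 : 4 * ((q1 : ℤ) * q2) = (q1 * c) ^ 2 + q1 := by linear_combination (-(q1 : ℤ)) * hκ
  have hqc5 : (q1 : ℤ) * 5 ≤ q1 * c := mul_le_mul_of_nonneg_left hc5 (by omega)
  have h4m : 4 * m ≤ q1 * c - 1 := by
    have h1 : (4 * m) ^ 2 < ((q1 : ℤ) * c + 1) ^ 2 := by
      have h2 : (4 * m) ^ 2 = 4 * (4 * m ^ 2) := by ring
      have h3 : ((q1 : ℤ) * c + 1) ^ 2 = (q1 * c) ^ 2 + 2 * (q1 * c) + 1 := by ring
      rw [h2, h3]
      linarith
    have h2 := lt_of_pow_lt_pow_left₀ 2 (by omega) h1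
    omega
  have hqmc : 4 * ((q1 : ℤ) * m * c) ≤ 4 * (q1 * q2) - q1 - q1 * c := by
    have h1 : (q1 : ℤ) * c * (4 * m) ≤ q1 * c * (q1 * c - 1) :=
      mul_le_mul_of_nonneg_left h4m (by omega)
    have h2 : (q1 : ℤ) * c * (q1 * c - 1) = (q1 * c) ^ 2 - q1 * c := by ring
    have h4 : 4 * ((q1 : ℤ) * m * c) = q1 * c * (4 * m) := by ring
    linarith
  have h9q2 : 9 * (q2 : ℤ) ≤ q1 * q2 := mul_le_mul_of_nonneg_right (by omega) (by omega)
  have hD0 : (0 : ℤ) < q1 * q2 := by omega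
  have haa : 0 ≤ a1 * a2 := mul_nonneg ha1 ha2
  have hbb : 1 ≤ b1 * b2 := Int.mul_pos hb1 hb2
  have hc1eq : (q1 : ℤ) * m * (2 * c) = 2 * (q1 * m * c) := by ring
  have hle1 : b1 ≤ b1 * b2 := le_mul_of_one_le_right hb1.le hb2
  have hle2 : b2 ≤ b1 * b2 := le_mul_of_one_le_left hb2.le hb1
  rcases hcase with ⟨hc1, hc2⟩ | ⟨hc1, hc2⟩
  · rw [hc1eq] at hc1
    have hb12 : b1 * b2 ≤ 2 := by
      by_contra hcc
      push Not at hcc
      have h1 : (q1 : ℤ) * q2 * 3 ≤ q1 * q2 * (b1 * b2) :=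
        mul_le_mul_of_nonneg_left (by omega) hD0.le
      linarith
    -- the case b1 b2 = 2
    have htwo : ∀ a a' : ℤ, a * a' + q1 * q2 * 2 = 2 * (q1 * m * c) + 4 * q2 →
        2 * a + a' = 2 * c + m * 4 → False := by
      intro a a' h1 h2
      have hUV : (q1 * c - 2 * a) * (q1 * c - a') = -((q1 : ℤ) - 2) := by
        have h3 : 2 * (((q1 : ℤ) * c - 2 * a) * (q1 * c - a'))
          = 2 * (q1 * c) ^ 2 - 2 * (q1 * c) * (2 * a + a') + 4 * (a * a' + q1 * q2 * 2)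
            - 8 * (q1 * q2) := by ring
        have h4 : 2 * (((q1 : ℤ) * c - 2 * a) * (q1 * c - a')) = 2 * (-((q1 : ℤ) - 2)) := by
          rw [h3, h1, h2]
          linear_combination (-2 : ℤ) * hD4 - 4 * hκ
        omega
      have hU0 : (q1 : ℤ) * c - 2 * a ≠ 0 := by
        intro h0
        rw [h0, zero_mul] at hUV
        omega
      have hV0 : (q1 : ℤ) * c - a' ≠ 0 := by
        intro h0
        rw [h0, mul_zero] at hUV
        omega
      have h5 := add_le_abs_mul hU0 hV0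
      rw [hUV, abs_neg, abs_of_pos (by omega)] at h5
      have h6 : c * 5 ≤ c * q1 := mul_le_mul_of_nonneg_left (by omega) hc.le
      have h7 : (5 : ℤ) * (q1 - 2) ≤ c * (q1 - 2) := mul_le_mul_of_nonneg_right hc5 (by omega)
      have h8 : c * ((q1 : ℤ) - 2) = q1 * c - 2 * c := by ring
      omega
    have hb12' : b1 * b2 = 1 := by
      by_contra hne
      have h2 : b1 * b2 = 2 := by omega
      rw [h2] at hc1 hle1 hle2
      have hb1' : b1 = 1 ∨ b1 = 2 := by omega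
      rcases hb1' with h3 | h3
      · rw [h3, one_mul] at h2
        rw [h3, h2] at hc2
        exact htwo a1 a2 hc1 (by linarith)
      · have h4 : b2 = 1 := by
          rw [h3] at h2; omega
        rw [h3, h4] at hc2
        exact htwo a2 a1 (by rw [mul_comm a2 a1]; exact hc1) (by linarith)
    have hb1' : b1 = 1 := by omega
    have hb2' : b2 = 1 := by omega
    subst hb1'
    subst hb2'
    have hUV : (q1 * c - 2 * a1) * (q1 * c - 2 * a2) = 4 - (q1 : ℤ) := by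
      have h3 : ((q1 : ℤ) * c - 2 * a1) * (q1 * c - 2 * a2)
        = (q1 * c) ^ 2 - 2 * (q1 * c) * (a1 * 1 + 1 * a2) + 4 * (a1 * a2 + q1 * q2 * (1 * 1))
          - 4 * (q1 * q2) := by ring
      rw [h3, hc1, hc2]
      linear_combination (-2 : ℤ) * hD4 - 4 * hκ + hD4
    have hS : ((q1 : ℤ) * c - 2 * a1) + (q1 * c - 2 * a2) = 2 * (q1 * c) - 4 * c - 8 * m := by
      linear_combination (-2 : ℤ) * hc2
    -- the signs
    have hfin : ∀ u v : ℤ, 0 < u → v < 0 → u % 4 = 1 → u * v = 4 - (q1 : ℤ) →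
        u + v = 2 * (q1 * c) - 4 * c - 8 * m → False := by
      intro u v hu hv hu4 huv hs
      have h3 := hfac1 u (-v) hu hu4 (by linear_combination huv)
      omega
    have hUne : (q1 : ℤ) * c - 2 * a1 ≠ 0 := by
      intro h0
      rw [h0, zero_mul] at hUV
      omega
    rcases lt_or_gt_of_ne hUne with hlt' | hgt'
    · have hV : 0 < (q1 : ℤ) * c - 2 * a2 := by
        by_contra hcc
        push Not at hcc
        have := mul_nonneg_of_nonpos_of_nonpos hlt'.le hcc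
        omega
      exact hfin _ _ hV hlt' (by omega) (by rw [mul_comm]; exact hUV) (by rw [add_comm]; exact hS)
    · have hV : (q1 : ℤ) * c - 2 * a2 < 0 := by
        by_contra hcc
        push Not at hcc
        have := mul_nonneg hgt'.le hcc
        omega
      exact hfin _ _ hgt' hV (by omega) hUV hS
  · rw [hc1eq] at hc1
    have hpos : 0 ≤ 2 * ((q1 : ℤ) * m * c) - 4 * q2 := by
      by_contra hcon
      push Not at hcon
      rw [abs_of_neg hcon] at hc1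
      have h1 : (0 : ℤ) < q1 * m * c := by positivity
      have h2 : (q1 : ℤ) * q2 * 1 ≤ q1 * q2 * (b1 * b2) :=
        mul_le_mul_of_nonneg_left hbb hD0.le
      linarith
    rw [abs_of_nonneg hpos] at hc1
    have hb12 : b1 * b2 ≤ 1 := by
      by_contra hcc
      push Not at hcc
      have h1 : (q1 : ℤ) * q2 * 2 ≤ q1 * q2 * (b1 * b2) :=
        mul_le_mul_of_nonneg_left (by omega) hD0.le
      linarith
    have hb1' : b1 = 1 := by omega
    have hb2' : b2 = 1 := by omega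
    subst hb1'
    subst hb2'
    have h2m : c ≤ 2 * m := by
      by_contra hcon
      push Not at hcon
      have h1 : (q1 : ℤ) * c * (2 * m) ≤ q1 * c * c := mul_le_mul_of_nonneg_left hcon.le (by omega)
      have h2 : (q1 : ℤ) * c * c = 4 * q2 - 1 := by linear_combination hκ
      have h4 : (q1 : ℤ) * c * (2 * m) = 2 * (q1 * m * c) := by ring
      linarith
    have habs : |2 * c - m * 4| = 4 * m - 2 * c := by
      rw [abs_of_nonpos (by linarith)]; ring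
    rw [habs] at hc2
    have hUV : (q1 * c - 2 * a1) * (q1 * c - 2 * a2) = -4 - (q1 : ℤ) := by
      have h3 : ((q1 : ℤ) * c - 2 * a1) * (q1 * c - 2 * a2)
        = (q1 * c) ^ 2 - 2 * (q1 * c) * (a1 * 1 + 1 * a2) + 4 * (a1 * a2 + q1 * q2 * (1 * 1))
          - 4 * (q1 * q2) := by ring
      rw [h3, hc1, hc2]
      linear_combination 4 * hκ - hD4
    have hS : ((q1 : ℤ) * c - 2 * a1) + (q1 * c - 2 * a2) = 2 * (q1 * c) + 4 * c - 8 * m := by
      linear_combination (-2 : ℤ) * hc2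
    have hfin : ∀ u v : ℤ, 0 < u → v < 0 → u % 4 = 1 → u * v = -4 - (q1 : ℤ) →
        u + v = 2 * (q1 * c) + 4 * c - 8 * m → False := by
      intro u v hu hv hu4 huv hs
      have h3 := hfac2 u (-v) hu hu4 (by linear_combination huv)
      omega
    have hUne : (q1 : ℤ) * c - 2 * a1 ≠ 0 := by
      intro h0
      rw [h0, zero_mul] at hUV
      omega
    rcases lt_or_gt_of_ne hUne with hlt' | hgt'
    · have hV : 0 < (q1 : ℤ) * c - 2 * a2 := by
        by_contra hcc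
        push Not at hcc
        have := mul_nonneg_of_nonpos_of_nonpos hlt'.le hcc
        omega
      exact hfin _ _ hV hlt' (by omega) (by rw [mul_comm]; exact hUV) (by rw [add_comm]; exact hS)
    · have hV : (q1 : ℤ) * c - 2 * a2 < 0 := by
        by_contra hcc
        push Not at hcc
        have := mul_nonneg hgt'.le hcc
        omega
      exact hfin _ _ hgt' hV (by omega) hUV hS

end QP
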