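import Mathlib
import Pool.Agent.Lib_MP_94ab8c.Quad

/-!
Ideals of the order of discriminant `D = 4 e + 1`: if the ideals of prime norm `r < √D / 2` are
principal, then all ideals are principal.
-/

namespace QP

open QuadraticAlgebra

variable {e : ℤ}

/-- the element `b + ω` -/
def bb (e b : ℤ) : R e := ⟨b, 1⟩

theorem norm_bb (b : ℤ) : norm (bb e b) = b ^ 2 + b - e := by
  simp only [bb, norm_def]; ring

theorem mem_J {a b : ℤ} (h : a ∣ b ^ 2 + b - e) (z : R e) :
    z ∈ Ideal.span {(a : R e), bb e b} ↔ a ∣ z.re - b * z.im := by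
  rw [Ideal.mem_span_pair]
  constructor
  · rintro ⟨x, y, rfl⟩
    obtain ⟨k, hk⟩ := h
    refine ⟨x.re - b * x.im - y.im * k, ?_⟩
    simp only [bb, re_add, im_add, re_mul, im_mul, re_intCast, im_intCast, Int.cast_id]
    linear_combination -y.im * hk
  · rintro ⟨k, hk⟩
    refine ⟨(k : R e), (z.im : R e), ?_⟩
    ext
    · simp [bb]; linarith
    · simp [bb]

/-- dividing an ideal by an element which divides all its members -/
theorem principal_of_div {I : Ideal (R e)} {d : R e}
    (hd : ∀ z ∈ I, d ∣ z) (hI : ∀ I' : Ideal (R e), (∀ w, w ∈ I' ↔ d * w ∈ I) → I'.IsPrincipal) :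
    I.IsPrincipal := by
  let I' : Ideal (R e) :=
    { carrier := {w | d * w ∈ I}
      add_mem' := by
        intro a b ha hb
        show d * (a + b) ∈ I
        rw [mul_add]; exact I.add_mem ha hb
      zero_mem' := by show d * 0 ∈ I; rw [mul_zero]; exact I.zero_mem
      smul_mem' := by
        intro c x hx
        show d * (c * x) ∈ I
        have : d * (c * x) = c * (d * x) := by ring
        rw [this]; exact I.mul_mem_left _ hx }
  obtain ⟨γ, hγ⟩ := (hI I' (fun w => Iff.rfl)).principal
  refine ⟨⟨d * γ, ?_⟩⟩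
  apply le_antisymm
  · intro z hz
    obtain ⟨w, hw⟩ := hd z hz
    have h1 : w ∈ I' := by show d * w ∈ I; rw [← hw]; exact hz
    rw [hγ] at h1
    obtain ⟨c, hc⟩ := Submodule.mem_span_singleton.1 h1
    refine Submodule.mem_span_singleton.2 ⟨c, ?_⟩
    rw [hw, ← hc, smul_eq_mul, smul_eq_mul]; ring
  · rw [Submodule.span_singleton_le_iff_mem]
    have h1 : γ ∈ I' := by rw [hγ]; exact Submodule.mem_span_singleton_self γ
    exact h1

theorem pid_step (hsq : ¬ IsSquare (4 * e + 1)) (hpos : 0 < 4 * e + 1)
    (H : ∀ r : ℕ, r.Prime → 4 * (r : ℤ) ^ 2 < 4 * e + 1 → ∀ b : ℤ, (r : ℤ) ∣ b ^ 2 + b - e →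
      (Ideal.span {((r : ℤ) : R e), bb e b}).IsPrincipal) (n : ℕ) :
    0 < n → ∀ I : Ideal (R e), ((n : ℤ) : R e) ∈ I → I.IsPrincipal := by
  have hD : IsDomain (R e) := isDomain hsq
  induction n using Nat.strong_induction_on with
  | _ n ih =>
  intro hn I hnI
  by_cases hsmall : ∃ m : ℕ, 0 < m ∧ m < n ∧ ((m : ℤ) : R e) ∈ I
  · obtain ⟨m, hm0, hmn, hmI⟩ := hsmall
    exact ih m hmn hm0 I hmI
  push Not at hsmall
  -- integers in I are multiples of n
  have hint : ∀ k : ℤ, ((k : ℤ) : R e) ∈ I → (n : ℤ) ∣ k := by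
    intro k hk
    have h1 : ((k % n : ℤ) : R e) ∈ I := by
      have h2 : k % n = k - n * (k / n) := by
        have := Int.emod_add_mul_ediv k n
        linarith
      rw [h2]
      push_cast
      refine I.sub_mem hk (I.mul_mem_right _ ?_)
      simpa using hnI
    have h3 : 0 ≤ k % n := Int.emod_nonneg _ (by omega)
    have h4 : k % n < n := Int.emod_lt_of_pos _ (by omega)
    by_contra hc
    have h5 : k % n ≠ 0 := fun h => hc (Int.dvd_of_emod_eq_zero h)
    apply hsmall (k % n).toNat (by omega) (by omega)
    rw [Int.toNat_of_nonneg h3]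
    exact h1
  -- the imaginary parts
  let imm : R e →+ ℤ :=
    { toFun := fun z => z.im
      map_zero' := rfl
      map_add' := fun _ _ => rfl }
  obtain ⟨d, hd⟩ := Int.subgroup_cyclic (I.toAddSubgroup.map imm)
  have hdiv : ∀ z ∈ I, d ∣ z.im := by
    intro z hz
    have h1 : z.im ∈ I.toAddSubgroup.map imm := ⟨z, hz, rfl⟩
    rw [hd] at h1
    exact Int.mem_zmultiples_iff.1 (by rwa [AddSubgroup.zmultiples_eq_closure])
  obtain ⟨z0, hz0, hz0i⟩ : ∃ z0 ∈ I, z0.im = d := by
    have h1 : d ∈ I.toAddSubgroup.map imm := by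
      rw [hd]; exact AddSubgroup.subset_closure rfl
    obtain ⟨z, hz, hz2⟩ := h1
    exact ⟨z, hz, hz2⟩
  have hω : (⟨0, 1⟩ : R e) * z0 ∈ I := I.mul_mem_left _ hz0
  have hdre : d ∣ z0.re := by
    have h1 := hdiv _ hω
    simp only [im_mul, zero_mul, one_mul, zero_add] at h1
    rw [hz0i] at h1
    exact (Int.dvd_add_left (dvd_refl d)).1 h1
  obtain ⟨b, hb⟩ := hdre
  have hdn : d ∣ n := by
    have h1 : (⟨0, 1⟩ : R e) * ((n : ℤ) : R e) ∈ I := I.mul_mem_left _ hnI
    have h2 := hdiv _ h1
    simp only [im_mul, one_mul, re_intCast, im_intCast, mul_zero, add_zero, zero_add,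
      Int.cast_id] at h2
    exact h2
  have hd0 : d ≠ 0 := by
    rintro rfl
    have := zero_dvd_iff.1 hdn
    omega
  -- all elements
  have hall : ∀ z ∈ I, ∃ k : ℤ, z.im = d * k ∧ (n : ℤ) ∣ z.re - k * z0.re := by
    intro z hz
    obtain ⟨k, hk⟩ := hdiv z hz
    refine ⟨k, hk, hint _ ?_⟩
    have h1 : ((z.re - k * z0.re : ℤ) : R e) = z - (k : R e) * z0 := by
      ext
      · simp
      · simp [hz0i, hk]; ring
    rw [h1]
    exact I.sub_mem hz (I.mul_mem_left _ hz0)
  by_cases hd1 : d.natAbs = 1
  · -- d = ± 1: the ideal is J(n, b)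
    have hbI : bb e b ∈ I := by
      have h1 : (d : R e) * bb e b = z0 := by
        ext
        · simp [bb, hb]
        · simp [bb, hz0i]
      have h2 : (d : R e) * (d : R e) = 1 := by
        have h3 : d * d = 1 := by
          have := Int.natAbs_mul_self (a := d)
          rw [hd1] at this
          exact this.symm
        exact_mod_cast congrArg (Int.cast : ℤ → R e) h3
      have h4 : bb e b = (d : R e) * z0 := by
        rw [← h1, ← mul_assoc, h2, one_mul]
      rw [h4]
      exact I.mul_mem_left _ hz0
    have hnb : (n : ℤ) ∣ b ^ 2 + b - e := by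
      apply hint
      rw [← norm_bb, ← mul_star_self]
      exact I.mul_mem_right _ hbI
    have hIJ : I = Ideal.span {((n : ℤ) : R e), bb e b} := by
      apply le_antisymm
      · intro z hz
        rw [mem_J hnb]
        apply hint
        have h1 : ((z.re - b * z.im : ℤ) : R e) = z - (z.im : R e) * bb e b := by
          ext
          · simp [bb]; ring
          · simp [bb]
        rw [h1]
        exact I.sub_mem hz (I.mul_mem_left _ hbI)
      · rw [Ideal.span_le]
        rintro x (rfl | rfl)
        · exact hnI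
        · exact hbI
    rcases lt_or_ge (4 * (n : ℤ) ^ 2) (4 * e + 1) with hlt | hge
    · -- small n
      by_cases hn1 : n = 1
      · subst hn1
        have : I = ⊤ := by rw [Ideal.eq_top_iff_one]; simpa using hnI
        rw [this]
        infer_instance
      · have hr : n.minFac.Prime := Nat.minFac_prime hn1
        obtain ⟨k, hk⟩ := Nat.minFac_dvd n
        set r := n.minFac with hrdef
        have hrn : (r : ℤ) ∣ n := by exact_mod_cast Nat.minFac_dvd n
        have hrb : (r : ℤ) ∣ b ^ 2 + b - e := hrn.trans hnb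
        have hrle : r ≤ n := Nat.minFac_le hn
        have hr2 : 4 * (r : ℤ) ^ 2 < 4 * e + 1 := by
          have h1 : (r : ℤ) ^ 2 ≤ (n : ℤ) ^ 2 := by
            exact_mod_cast Nat.pow_le_pow_left hrle 2
          linarith
        obtain ⟨π, hπ⟩ := (H r hr hr2 b hrb).principal
        have hπmem : π ∈ Ideal.span {((r : ℤ) : R e), bb e b} := by
          rw [hπ]; exact Submodule.mem_span_singleton_self π
        rw [mem_J hrb] at hπmem
        apply principal_of_div (d := π)
        · intro z hz
          have h1 : z ∈ Ideal.span {((r : ℤ) : R e), bb e b} := by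
            rw [mem_J hrb]
            rw [hIJ, mem_J hnb] at hz
            exact hrn.trans hz
          rw [hπ] at h1
          obtain ⟨c, hc⟩ := Submodule.mem_span_singleton.1 h1
          exact ⟨c, by rw [← hc, smul_eq_mul, mul_comm]⟩
        · intro I' hI'
          have hk0 : 0 < k := by
            rcases Nat.eq_zero_or_pos k with h | h
            · rw [h, mul_zero] at hk; omega
            · exact h
          have hkn : k < n := by
            have := hr.one_lt
            calc k = 1 * k := (one_mul k).symm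
              _ < r * k := Nat.mul_lt_mul_of_pos_right this hk0
              _ = n := hk.symm
          apply ih k hkn hk0 I'
          rw [hI', hIJ, mem_J hnb]
          obtain ⟨t, ht⟩ := hπmem
          refine ⟨t, ?_⟩
          simp only [re_mul, im_mul, re_intCast, im_intCast, mul_zero, add_zero, zero_add,
            Int.cast_id]
          have hkz : (n : ℤ) = r * k := by exact_mod_cast hk
          rw [hkz]
          linear_combination (k : ℤ) * ht
    · -- large n: reduction
      obtain ⟨b', hb'1, hb'2, hb'3⟩ : ∃ b' : ℤ, (n : ℤ) ∣ b - b' ∧ -(n : ℤ) ≤ 2 * b' + 1 ∧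
          2 * b' + 1 ≤ n := by
        obtain ⟨q, r, hr0, hrn, hbr⟩ : ∃ q r : ℤ, 0 ≤ r ∧ r < n ∧ b = n * q + r :=
          ⟨b / n, b % n, Int.emod_nonneg _ (by omega), Int.emod_lt_of_pos _ (by omega),
            (Int.mul_ediv_add_emod b n).symm⟩
        by_cases h1 : 2 * r + 1 ≤ n
        · exact ⟨r, ⟨q, by rw [hbr]; ring⟩, by omega, h1⟩
        · exact ⟨r - n, ⟨q + 1, by rw [hbr]; ring⟩, by omega, by omega⟩
      have hnb' : (n : ℤ) ∣ b' ^ 2 + b' - e := by
        obtain ⟨k, hk⟩ := hb'1
        obtain ⟨l, hl⟩ := hnb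
        have : b' = b - n * k := by linarith
        refine ⟨l - k * (2 * b - n * k) - k, ?_⟩
        rw [this]
        linear_combination hl
      have hIJ' : I = Ideal.span {((n : ℤ) : R e), bb e b'} := by
        rw [hIJ]
        ext z
        rw [mem_J hnb, mem_J hnb']
        obtain ⟨k, hk⟩ := hb'1
        have : z.re - b' * z.im = z.re - b * z.im + n * (k * z.im) := by
          have : b' = b - n * k := by linarith
          rw [this]; ring
        rw [this]
        exact (Int.dvd_add_left (dvd_mul_right _ _)).symm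
      obtain ⟨c, hc⟩ := hnb'
      have hβ0 : bb e b' ≠ 0 := by
        intro h
        have := congrArg QuadraticAlgebra.im h
        simp [bb] at this
      have hc0 : c ≠ 0 := by
        intro h
        rw [h, mul_zero, ← norm_bb] at hc
        exact norm_ne_zero hsq hβ0 hc
      have hcn : c.natAbs < n := by
        have h4 : 4 * ((n : ℤ) * c) = (2 * b' + 1) ^ 2 - (4 * e + 1) := by rw [← hc]; ring
        have h5 : (2 * b' + 1) ^ 2 ≤ (n : ℤ) ^ 2 := by nlinarith
        have hn' : (0 : ℤ) < n := by exact_mod_cast hn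
        have hne : 4 * (n : ℤ) ^ 2 ≠ 4 * e + 1 := by omega
        have h6 : 4 * e + 1 < 4 * (n : ℤ) ^ 2 := lt_of_le_of_ne hge (Ne.symm hne)
        have h7 : (n : ℤ) * c < n * n := by nlinarith
        have h8 : -((n : ℤ) * n) < n * c := by nlinarith
        have h9 : c < n := lt_of_mul_lt_mul_left h7 hn'.le
        have h10 : -(n : ℤ) < c := by
          have : (n : ℤ) * (-n) < n * c := by linarith
          exact lt_of_mul_lt_mul_left this hn'.le
        omega
      -- the other ideal
      have hN : bb e b' * star (bb e b') = ((n : ℤ) : R e) * (c : R e) := by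
        rw [mul_star_self, norm_bb, hc]; push_cast; ring
      obtain ⟨γ, hγ⟩ := (ih c.natAbs hcn (by omega) (Ideal.span {(c : R e), star (bb e b')}) (by
        have h1 : (c : R e) ∈ Ideal.span {(c : R e), star (bb e b')} :=
          Ideal.subset_span (by simp)
        rcases Int.natAbs_eq c with h | h
        · rw [← h]; exact h1
        · have : ((c.natAbs : ℤ) : R e) = -(c : R e) := by
            have h2 : (c.natAbs : ℤ) = -c := by omega
            rw [h2]; push_cast; rfl
          rw [this]; exact Ideal.neg_mem_iff _ |>.2 h1)).principal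
      have hγmem : γ ∈ Ideal.span {(c : R e), star (bb e b')} := by
        rw [hγ]; exact Submodule.mem_span_singleton_self γ
      obtain ⟨x, y, hxy⟩ := Ideal.mem_span_pair.1 hγmem
      set β := bb e b' with hβ
      have hsβ0 : star β ≠ 0 := star_ne_zero.2 hβ0
      -- η
      refine ⟨⟨x * β + y * ((n : ℤ) : R e), ?_⟩⟩
      have hη : star β * (x * β + y * ((n : ℤ) : R e)) = ((n : ℤ) : R e) * γ := by
        rw [← hxy]
        linear_combination x * hN
      apply le_antisymm
      · intro z hz
        rw [hIJ'] at hz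
        obtain ⟨x', y', hxy'⟩ := Ideal.mem_span_pair.1 hz
        have h1 : x' * star β + y' * (c : R e) ∈ Ideal.span {(c : R e), star β} :=
          Ideal.mem_span_pair.2 ⟨y', x', by ring⟩
        rw [hγ] at h1
        obtain ⟨w, hw⟩ := Submodule.mem_span_singleton.1 h1
        refine Submodule.mem_span_singleton.2 ⟨w, ?_⟩
        apply mul_left_cancel₀ hsβ0
        rw [smul_eq_mul] at hw ⊢
        rw [← hxy']
        linear_combination w * hη + ((n : ℤ) : R e) * hw - y' * hN
      · rw [Submodule.span_singleton_le_iff_mem, hIJ']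
        exact Ideal.mem_span_pair.2 ⟨y, x, by ring⟩
  · -- |d| > 1
    apply principal_of_div (d := (d : R e))
    · intro z hz
      obtain ⟨k, hk1, hk2⟩ := hall z hz
      have h1 : d ∣ z.re := by
        have h2 : d ∣ z.re - k * z0.re := hdn.trans hk2
        have h3 : d ∣ k * z0.re := ⟨k * b, by rw [hb]; ring⟩
        have := dvd_add h2 h3
        simpa using this
      obtain ⟨x, hx⟩ := h1
      refine ⟨⟨x, k⟩, ?_⟩
      ext
      · simp [hx]
      · simp [hk1]
    · intro I' hI'
      obtain ⟨a, ha⟩ := hdn
      have ha0 : a ≠ 0 := by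
        rintro rfl
        rw [mul_zero] at ha; omega
      have hna : n = d.natAbs * a.natAbs := by
        have := congrArg Int.natAbs ha
        rw [Int.natAbs_mul] at this
        simpa using this
      have hd2 : 2 ≤ d.natAbs := by
        have := Int.natAbs_ne_zero.2 hd0
        omega
      have han : a.natAbs < n := by
        have h1 : 0 < a.natAbs := by omega
        rw [hna]; nlinarith
      apply ih a.natAbs han (by omega) I'
      rw [hI']
      have h1 : (d : R e) * ((a.natAbs : ℤ) : R e) = ((n : ℤ) : R e) ∨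
          (d : R e) * ((a.natAbs : ℤ) : R e) = -((n : ℤ) : R e) := by
        rcases Int.natAbs_eq a with h | h
        · left
          rw [← h, ha]; push_cast; ring
        · right
          have h2 : (a.natAbs : ℤ) = -a := by omega
          rw [h2, ha]; push_cast; ring
      rcases h1 with h | h
      · rw [h]; exact hnI
      · rw [h]; exact I.neg_mem hnI

theorem pid_of_primes (hsq : ¬ IsSquare (4 * e + 1)) (hpos : 0 < 4 * e + 1)
    (H : ∀ r : ℕ, r.Prime → 4 * (r : ℤ) ^ 2 < 4 * e + 1 → ∀ b : ℤ, (r : ℤ) ∣ b ^ 2 + b - e →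
      (Ideal.span {((r : ℤ) : R e), bb e b}).IsPrincipal) : IsPrincipalIdealRing (R e) := by
  constructor
  intro I
  by_cases hI : I = ⊥
  · rw [hI]; infer_instance
  · obtain ⟨z, hz, hz0⟩ := Submodule.exists_mem_ne_zero_of_ne_bot hI
    have hN := norm_ne_zero hsq hz0
    apply pid_step hsq hpos H (norm z).natAbs (Int.natAbs_pos.2 hN) I
    have h1 : ((norm z : ℤ) : R e) ∈ I := by
      rw [← mul_star_self]; exact I.mul_mem_right _ hz
    rcases Int.natAbs_eq (norm z) with h | h
    · rw [← h]; exact h1
    · have h2 : ((norm z).natAbs : ℤ) = -norm z := by omega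
      rw [h2]
      push_cast
      exact I.neg_mem h1

end QP
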