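import Mathlib
import Pool.Agent.Lib_MP_94ab8c.Defs

/-!
For primes `q1, q2` congruent to `3` modulo `4` with `q1 q2` congruent to `5` modulo `8`, the
equation `q1 a ^ 2 - q2 b ^ 2 = ± 1` is solvable.
-/

namespace QP

theorem coprime_sq {a b c : ℕ} (h : Nat.Coprime a b) (hc : a * b = c ^ 2) :
    ∃ x y : ℕ, a = x ^ 2 ∧ b = y ^ 2 := by
  have h1 : IsUnit (gcd a b) := by
    show IsUnit (Nat.gcd a b)
    rw [Nat.Coprime] at h
    rw [h]; exact isUnit_one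
  have h2 : IsUnit (gcd b a) := by rwa [gcd_comm]
  obtain ⟨x, hx⟩ := exists_eq_pow_of_mul_eq_pow h1 hc
  obtain ⟨y, hy⟩ := exists_eq_pow_of_mul_eq_pow h2 (by rw [mul_comm]; exact hc)
  exact ⟨x, y, hx, hy⟩

theorem pell_q {q1 q2 : ℕ} (h : Setting q1 q2) :
    ∃ a b : ℤ, (q1 : ℤ) * a ^ 2 - q2 * b ^ 2 = 1 ∨ (q1 : ℤ) * a ^ 2 - q2 * b ^ 2 = -1 := by
  classical
  have hq1 := h.prime1
  have hq2 := h.prime2
  have hne : q1 ≠ q2 := h.lt.ne
  have hco : Nat.Coprime q1 q2 := (Nat.coprime_primes hq1 hq2).2 hne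
  have hsq : ¬ IsSquare ((q1 : ℤ) * q2) := by
    rintro ⟨r, hr⟩
    have h1 : q1 * q2 = r.natAbs * r.natAbs := by
      have := congrArg Int.natAbs hr
      rw [Int.natAbs_mul, Int.natAbs_mul] at this
      simpa using this
    have h2 : q1 ∣ r.natAbs * r.natAbs := ⟨q2, h1.symm⟩
    have h3 : q1 ∣ r.natAbs := by
      rcases h.prime1.dvd_mul.1 h2 with h | h <;> exact h
    obtain ⟨k, hk⟩ := h3
    rw [hk] at h1
    have h4 : q2 = q1 * (k * k) := by
      have : q1 * q2 = q1 * (q1 * (k * k)) := by rw [h1]; ring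
      exact Nat.eq_of_mul_eq_mul_left h.prime1.pos this
    have h5 : q1 ∣ q2 := ⟨_, h4⟩
    rw [Nat.prime_dvd_prime_iff_eq h.prime1 h.prime2] at h5
    exact absurd h5 h.lt.ne
  have hD0 : (0 : ℤ) < (q1 : ℤ) * q2 := by
    have := Nat.mul_pos hq1.pos hq2.pos
    exact_mod_cast this
  obtain ⟨x0, y0, hxy, hy0⟩ := Pell.exists_of_not_isSquare hD0 hsq
  -- minimal solution
  have hex : ∃ n : ℕ, n ≠ 0 ∧ ∃ x : ℕ, x ^ 2 = q1 * q2 * n ^ 2 + 1 := by
    refine ⟨y0.natAbs, Int.natAbs_ne_zero.2 hy0, x0.natAbs, ?_⟩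
    zify
    rw [sq_abs, sq_abs]
    linarith
  obtain ⟨hn0, x, hx⟩ := Nat.find_spec hex
  have hmin := fun m (hm : m < Nat.find hex) => Nat.find_min hex hm
  set y := Nat.find hex with hy
  clear_value y
  -- parities
  have hmod := h.mod8
  have hxodd : x % 2 = 1 := by
    by_contra hc
    have hx0 : x % 2 = 0 := by omega
    obtain ⟨x', hx'⟩ : ∃ x', x = 2 * x' := ⟨x / 2, by omega⟩
    obtain ⟨D', hD'⟩ : ∃ D', q1 * q2 = 4 * D' + 1 := ⟨q1 * q2 / 4, by omega⟩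
    rw [hx', hD'] at hx
    rcases Nat.even_or_odd' y with ⟨z, hz | hz⟩
    · rw [hz] at hx; ring_nf at hx; omega
    · rw [hz] at hx; ring_nf at hx; omega
  obtain ⟨t, ht⟩ : ∃ t, x = 2 * t + 1 := ⟨x / 2, by omega⟩
  obtain ⟨z, hz⟩ : ∃ z, y = 2 * z := by
    rcases Nat.even_or_odd' y with ⟨z, hz | hz⟩
    · exact ⟨z, hz⟩
    · exfalso
      obtain ⟨D', hD'⟩ : ∃ D', q1 * q2 = 2 * D' + 1 := ⟨q1 * q2 / 2, by omega⟩
      rw [ht, hz, hD'] at hx
      ring_nf at hx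
      omega
  have htz : t * (t + 1) = q1 * q2 * z ^ 2 := by
    rw [ht, hz] at hx
    have : 4 * (t * (t + 1)) = 4 * (q1 * q2 * z ^ 2) := by
      have h1 : (2 * t + 1) ^ 2 = 4 * (t * (t + 1)) + 1 := by ring
      have h2 : q1 * q2 * (2 * z) ^ 2 = 4 * (q1 * q2 * z ^ 2) := by ring
      rw [h1, h2] at hx
      omega
    omega
  have hz0 : z ≠ 0 := by rintro rfl; exact hn0 (by rw [hz])
  have hcop : Nat.Coprime t (t + 1) := by simp
  have hd1 : q1 ∣ t * (t + 1) := ⟨q2 * z ^ 2, by rw [htz]; ring⟩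
  have hd2 : q2 ∣ t * (t + 1) := ⟨q1 * z ^ 2, by rw [htz]; ring⟩
  have hqpos : 0 < q1 * q2 := Nat.mul_pos hq1.pos hq2.pos
  rcases hq1.dvd_mul.1 hd1 with h1 | h1 <;> rcases hq2.dvd_mul.1 hd2 with h2 | h2
  · -- both divide t
    exfalso
    have h3 : q1 * q2 ∣ t := hco.mul_dvd_of_dvd_of_dvd h1 h2
    obtain ⟨t', ht'⟩ := h3
    have h4 : t' * (t + 1) = z ^ 2 := by
      have : q1 * q2 * (t' * (t + 1)) = q1 * q2 * z ^ 2 := by
        rw [← htz]
        conv_rhs => rw [ht']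
        rw [ht']; ring
      exact Nat.eq_of_mul_eq_mul_left hqpos this
    have h5 : Nat.Coprime t' (t + 1) :=
      Nat.Coprime.coprime_dvd_left ⟨q1 * q2, by rw [ht']; ring⟩ hcop
    obtain ⟨a, b, ha, hb⟩ := coprime_sq h5 h4
    have ha0 : a ≠ 0 := by
      rintro rfl
      rw [ha] at h4
      simp at h4
      exact hz0 (by simpa using h4.symm)
    apply hmin a
    · have h6 : a ^ 2 ≤ z ^ 2 := by
        rw [← ha, ← h4]; exact Nat.le_mul_of_pos_right _ (Nat.succ_pos _)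
      have h7 : a ≤ z := (Nat.pow_le_pow_iff_left two_ne_zero).1 h6
      omega
    · exact ⟨ha0, b, by rw [← hb, ht', ha]⟩
  · -- q1 | t, q2 | t + 1
    obtain ⟨t1, ht1⟩ := h1
    obtain ⟨t2, ht2⟩ := h2
    have h4 : t1 * t2 = z ^ 2 := by
      have : q1 * q2 * (t1 * t2) = q1 * q2 * z ^ 2 := by
        rw [← htz, ht2]
        conv_rhs => rw [ht1]
        ring
      exact Nat.eq_of_mul_eq_mul_left hqpos this
    have h5 : Nat.Coprime t1 t2 := by
      have h6 : Nat.Coprime t (t + 1) := hcop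
      rw [ht2] at h6
      rw [ht1] at h6
      exact Nat.Coprime.coprime_dvd_left (dvd_mul_left _ _)
        (Nat.Coprime.coprime_dvd_right (dvd_mul_left _ _) h6)
    obtain ⟨a, b, ha, hb⟩ := coprime_sq h5 h4
    refine ⟨a, b, Or.inr ?_⟩
    have h6 : q1 * a ^ 2 + 1 = q2 * b ^ 2 := by rw [← ha, ← hb, ← ht1, ht2]
    have h7 : (q1 : ℤ) * a ^ 2 + 1 = q2 * b ^ 2 := by exact_mod_cast h6
    linarith
  · -- q2 | t, q1 | t + 1
    obtain ⟨t1, ht1⟩ := h1
    obtain ⟨t2, ht2⟩ := h2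
    have h4 : t1 * t2 = z ^ 2 := by
      have : q1 * q2 * (t1 * t2) = q1 * q2 * z ^ 2 := by
        rw [← htz, ht1]
        conv_rhs => rw [ht2]
        ring
      exact Nat.eq_of_mul_eq_mul_left hqpos this
    have h5 : Nat.Coprime t1 t2 := by
      have h6 : Nat.Coprime t (t + 1) := hcop
      rw [ht1] at h6
      rw [ht2] at h6
      exact (Nat.Coprime.coprime_dvd_left (dvd_mul_left _ _)
        (Nat.Coprime.coprime_dvd_right (dvd_mul_left _ _) h6)).symm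
    obtain ⟨a, b, ha, hb⟩ := coprime_sq h5 h4
    refine ⟨a, b, Or.inl ?_⟩
    have h6 : q2 * b ^ 2 + 1 = q1 * a ^ 2 := by rw [← ha, ← hb, ← ht2, ht1]
    have h7 : (q2 : ℤ) * b ^ 2 + 1 = q1 * a ^ 2 := by exact_mod_cast h6
    linarith
  · -- both divide t + 1
    exfalso
    have h3 : q1 * q2 ∣ t + 1 := hco.mul_dvd_of_dvd_of_dvd h1 h2
    obtain ⟨t', ht'⟩ := h3
    have h4 : t * t' = z ^ 2 := by
      have : q1 * q2 * (t * t') = q1 * q2 * z ^ 2 := by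
        rw [← htz, ht']; ring
      exact Nat.eq_of_mul_eq_mul_left hqpos this
    have h5 : Nat.Coprime t t' :=
      Nat.Coprime.coprime_dvd_right ⟨q1 * q2, by rw [ht']; ring⟩ hcop
    obtain ⟨a, b, ha, hb⟩ := coprime_sq h5 h4
    -- a ^ 2 + 1 = D b ^ 2
    have h6 : a ^ 2 + 1 = q1 * (q2 * b ^ 2) := by rw [← ha, ← hb, ht']; ring
    haveI : Fact q1.Prime := ⟨hq1⟩
    have h7 : ((a : ZMod q1)) ^ 2 = -1 := by
      have h8 : ((a ^ 2 + 1 : ℕ) : ZMod q1) = 0 := by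
        rw [h6]; push_cast; simp
      push_cast at h8
      exact eq_neg_of_add_eq_zero_left h8
    exact ZMod.mod_four_ne_three_of_sq_eq_neg_one h7 h.mod1

end QP
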