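import Mathlib
import Pool.Agent.Lib_MP_94ab8c.Defs
import Pool.Agent.Lib_MP_94ab8c.Quad
import Pool.Agent.Lib_MP_94ab8c.IdealQ
import Pool.Agent.Lib_MP_94ab8c.PellQ
import Pool.Agent.Lib_MP_94ab8c.CondInt

/-!
(1) implies that the maximal order is a principal ideal domain.
-/

namespace QP

open QuadraticAlgebra

variable {e : ℤ}

theorem dvd_mul_star {r b : ℤ} (hb : r ∣ b ^ 2 + b - e) {z w : R e} (hz : r ∣ z.re - b * z.im)
    (hw : r ∣ w.re - b * w.im) : (r : R e) ∣ z * star w := by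
  obtain ⟨k0, hk0⟩ := hb
  obtain ⟨k1, hk1⟩ := hz
  obtain ⟨k2, hk2⟩ := hw
  have h1 : z.re = b * z.im + r * k1 := by linarith
  have h2 : w.re = b * w.im + r * k2 := by linarith
  refine ⟨⟨z.im * w.im * k0 + k1 * (b + 1) * w.im + k2 * b * z.im + r * k1 * k2,
    z.im * k2 - k1 * w.im⟩, ?_⟩
  ext
  · simp only [re_mul, re_star, im_star, re_intCast, im_intCast, Int.cast_id, h1, h2]
    linear_combination z.im * w.im * hk0
  · simp only [im_mul, re_star, im_star, re_intCast, im_intCast, Int.cast_id, h1, h2]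
    ring

theorem J_principal {r b : ℤ} (hr : r ≠ 0) (hsq : ¬ IsSquare (4 * e + 1))
    (hb : r ∣ b ^ 2 + b - e) {π : R e}
    (hπ : r ∣ π.re - b * π.im) (hN : (norm π).natAbs = r.natAbs) :
    Ideal.span {(r : R e), bb e b} = Ideal.span {π} := by
  have hD : IsDomain (R e) := isDomain hsq
  apply le_antisymm
  · intro z hz
    rw [mem_J hb] at hz
    obtain ⟨w, hw⟩ := dvd_mul_star hb hz hπ
    rw [Ideal.mem_span_singleton]
    have hr0 : (r : R e) ≠ 0 := by
      intro h
      have := congrArg QuadraticAlgebra.re h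
      simp at this
      exact hr this
    have h1 : z * ((norm π : ℤ) : R e) = (r : R e) * (w * π) := by
      rw [← mul_star_self]
      linear_combination π * hw
    have h2 : norm π = r ∨ norm π = -r := Int.natAbs_eq_natAbs_iff.1 hN
    rcases h2 with h2 | h2
    · rw [h2] at h1
      refine ⟨w, ?_⟩
      apply mul_left_cancel₀ hr0
      linear_combination h1
    · rw [h2] at h1
      push_cast at h1
      refine ⟨-w, ?_⟩
      apply mul_left_cancel₀ hr0
      linear_combination -h1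
  · rw [Ideal.span_singleton_le_iff_mem, mem_J hb]
    exact hπ

theorem one_pid {q1 q2 : ℕ} (h : Setting q1 q2) (he : 4 * e + 1 = q1 * q2)
    (hc : CondInt q1 q2) : IsPrincipalIdealRing (R e) := by
  have hsq := not_sq h he
  have hD : IsDomain (R e) := isDomain hsq
  have hq1 : (3 : ℤ) ≤ q1 := by have := h.mod1; omega
  have hlt : (q1 : ℤ) < q2 := by exact_mod_cast h.lt
  have hm1 : (q1 : ℤ) % 4 = 3 := by have := h.mod1; omega
  have hm2 : (q2 : ℤ) % 4 = 3 := by have := h.mod2; omega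
  have hp1 : Prime (q1 : ℤ) := Nat.prime_iff_prime_int.1 h.prime1
  have hp2 : Prime (q2 : ℤ) := Nat.prime_iff_prime_int.1 h.prime2
  have hDpos : (0 : ℤ) < q1 * q2 := by
    apply mul_pos <;> omega
  have heodd : e % 2 = 1 := by
    have h1 := h.mod8
    have h2 : ((q1 : ℤ) * q2) % 8 = 5 := by exact_mod_cast h1
    omega
  -- κ
  obtain ⟨κ, hκt, hκN⟩ : ∃ κ : R e, (q1 : ℤ) ∣ tr κ ∧ (norm κ).natAbs = q1 := by
    obtain ⟨a, b, hab⟩ := pell_q h
    obtain ⟨κ, hκt, hκi⟩ := exists_mk (e := e) (2 * (q1 * a)) (2 * b) (by omega)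
    refine ⟨κ, by rw [hκt]; exact ⟨2 * a, by ring⟩, ?_⟩
    have h1 := four_norm κ
    rw [hκt, hκi, he] at h1
    have h2 : norm κ = q1 * (q1 * a ^ 2 - q2 * b ^ 2) := by linarith
    rw [h2, Int.natAbs_mul]
    rcases hab with h | h <;> rw [h] <;> simp
  have hκJ : ∀ b : ℤ, (q1 : ℤ) ∣ 2 * b + 1 → (q1 : ℤ) ∣ κ.re - b * κ.im := by
    intro b hb
    have h1 : (q1 : ℤ) ∣ 2 * (κ.re - b * κ.im) := by
      have h2 : 2 * (κ.re - b * κ.im) = tr κ - (2 * b + 1) * κ.im := by unfold tr; ring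
      rw [h2]
      exact dvd_sub hκt (hb.mul_right _)
    rcases hp1.dvd_or_dvd h1 with h' | h'
    · exfalso
      have := Int.le_of_dvd two_pos h'
      omega
    · exact h'
  apply pid_of_primes hsq (by rw [he]; exact hDpos)
  intro r hr hr2 b hb
  have hrp : Prime (r : ℤ) := Nat.prime_iff_prime_int.1 hr
  have hr0 : (r : ℤ) ≠ 0 := by exact_mod_cast hr.ne_zero
  rw [he] at hr2
  -- r ≠ 2
  have hr2' : r ≠ 2 := by
    rintro rfl
    obtain ⟨k, hk⟩ := hb
    rcases Int.even_or_odd' b with ⟨x, hx | hx⟩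
    · rw [hx] at hk; ring_nf at hk; push_cast at hk; omega
    · rw [hx] at hk; ring_nf at hk; push_cast at hk; omega
  have hrodd : r % 2 = 1 := by
    rcases hr.eq_two_or_odd with h | h
    · exact absurd h hr2'
    · exact h
  by_cases hrq : r = q1
  · -- r = q1
    subst hrq
    have h1 : (r : ℤ) ∣ 2 * b + 1 := by
      have h2 : (r : ℤ) ∣ (2 * b + 1) ^ 2 := by
        have h3 : (2 * b + 1) ^ 2 = 4 * (b ^ 2 + b - e) + r * q2 := by rw [← he]; ring
        rw [h3]
        exact dvd_add (hb.mul_left _) (dvd_mul_right _ _)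
      exact hrp.dvd_of_dvd_pow h2
    rw [J_principal hr0 hsq hb (hκJ b h1) (by rw [hκN]; simp)]
    exact ⟨⟨κ, rfl⟩⟩
  · -- r ≠ q1
    have hrq1 : ¬ (r : ℤ) ∣ q1 := by
      intro h1
      have h2 : r ∣ q1 := by exact_mod_cast h1
      exact hrq ((Nat.prime_dvd_prime_iff_eq hr h.prime1).1 h2)
    have hrq2 : ¬ (r : ℤ) ∣ q2 := by
      intro h1
      have h2 : r ∣ q2 := by exact_mod_cast h1
      have h3 := (Nat.prime_dvd_prime_iff_eq hr h.prime2).1 h2
      have h4 : (r : ℤ) = q2 := by exact_mod_cast h3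
      rw [h4] at hr2
      nlinarith
    have hrb : ¬ (r : ℤ) ∣ 2 * b + 1 := by
      intro h1
      have h2 : (r : ℤ) ∣ q1 * q2 := by
        have h3 : (q1 : ℤ) * q2 = (2 * b + 1) * (2 * b + 1) - 4 * (b ^ 2 + b - e) := by
          rw [← he]; ring
        rw [h3]
        exact dvd_sub (h1.mul_right _) (hb.mul_left _)
      rcases hrp.dvd_or_dvd h2 with h | h
      · exact hrq1 h
      · exact hrq2 h
    -- y with q1 y = 2 b + 1 mod r
    obtain ⟨y, hy0, hyr, hyd⟩ : ∃ y : ℤ, 0 ≤ y ∧ y < r ∧ (r : ℤ) ∣ q1 * y - (2 * b + 1) := by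
      have hco : IsCoprime (q1 : ℤ) r := by
        rw [isCoprime_comm]
        exact (hrp.coprime_iff_not_dvd).2 hrq1
      obtain ⟨u, v, huv⟩ := hco
      refine ⟨(u * (2 * b + 1)) % r, Int.emod_nonneg _ hr0, Int.emod_lt_of_pos _ (by
        have := hr.pos; omega), ?_⟩
      have h1 := Int.mul_ediv_add_emod (u * (2 * b + 1)) r
      have h2 : (u * (2 * b + 1)) % r = u * (2 * b + 1) - r * ((u * (2 * b + 1)) / r) := by
        linarith
      rw [h2]
      refine ⟨-(v * (2 * b + 1)) - q1 * ((u * (2 * b + 1)) / r), ?_⟩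
      linear_combination (2 * b + 1) * huv
    have hy1 : y ≠ 0 := by
      rintro rfl
      apply hrb
      have := (dvd_neg.2 hyd)
      simpa using this
    -- m and the sign
    obtain ⟨m, σ, hm0, hmr, hmo, hσ, hmd⟩ : ∃ m σ : ℤ, 0 < m ∧ m < r ∧ m % 2 = 1 ∧
        (σ = 1 ∨ σ = -1) ∧ (r : ℤ) ∣ σ * (q1 * m) - (2 * b + 1) := by
      rcases Int.emod_two_eq_zero_or_one y with h1 | h1
      · refine ⟨r - y, -1, by omega, by omega, by omega, Or.inr rfl, ?_⟩
        have : -1 * ((q1 : ℤ) * (r - y)) - (2 * b + 1) = q1 * y - (2 * b + 1) - r * q1 := by ring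
        rw [this]
        exact dvd_sub hyd (dvd_mul_right _ _)
      · refine ⟨y, 1, by omega, hyr, h1, Or.inl rfl, ?_⟩
        rw [one_mul]; exact hyd
    have hσσ : σ * σ = 1 := by rcases hσ with h | h <;> rw [h] <;> norm_num
    obtain ⟨n, hn, hn2⟩ := hc m hm0 hmo (by nlinarith)
    -- r divides q1 m ^ 2 - q2
    have hrd : (r : ℤ) ∣ (q1 : ℤ) * m ^ 2 - q2 := by
      have h1 : (r : ℤ) ∣ q1 * ((q1 : ℤ) * m ^ 2 - q2) := by
        obtain ⟨k, hk⟩ := hmd
        obtain ⟨l, hl⟩ := hb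
        refine ⟨k * (σ * (q1 * m) + (2 * b + 1)) + 4 * l, ?_⟩
        have h2 : (σ * ((q1 : ℤ) * m)) ^ 2 = (q1 * m) ^ 2 := by
          have : (σ * ((q1 : ℤ) * m)) ^ 2 = (σ * σ) * (q1 * m) ^ 2 := by ring
          rw [this, hσσ, one_mul]
        linear_combination (σ * (q1 * m) + (2 * b + 1)) * hk - h2 + 4 * hl + he
      rcases hrp.dvd_or_dvd h1 with h | h
      · exact absurd h hrq1
      · exact h
    have hnr : n = r := by
      have h1 : r ∣ 4 * n := by
        rw [← hn]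
        exact Int.natCast_dvd.1 hrd
      have h2 : r ∣ n := by
        rcases hr.dvd_mul.1 h1 with h | h
        · exfalso
          have h3 : r ∣ 2 ^ 2 := by simpa using h
          have := hr.dvd_of_dvd_pow h3
          rw [Nat.prime_dvd_prime_iff_eq hr Nat.prime_two] at this
          exact hr2' this
        · exact h
      rcases hn2 with h | h
      · rw [h] at h2
        exact absurd (Nat.dvd_one.1 h2) hr.one_lt.ne'
      · exact ((Nat.prime_dvd_prime_iff_eq hr h).1 h2).symm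
    rw [hnr] at hn
    -- α
    obtain ⟨α, hαt, hαi⟩ := exists_mk (e := e) (σ * (q1 * m)) 1 (by
      obtain ⟨x, hx⟩ : ∃ x : ℤ, m = 2 * x + 1 := ⟨m / 2, by omega⟩
      obtain ⟨y, hy⟩ : ∃ y : ℤ, (q1 : ℤ) = 2 * y + 1 := ⟨q1 / 2, by omega⟩
      rw [hx, hy]
      rcases hσ with h | h <;> rw [h] <;> ring_nf <;> omega)
    have hαN : (norm α).natAbs = q1 * r := by
      have h1 := four_norm α
      rw [hαt, hαi, he] at h1
      have h2 : 4 * norm α = q1 * ((q1 : ℤ) * m ^ 2 - q2) := by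
        have : (σ * ((q1 : ℤ) * m)) ^ 2 = (σ * σ) * (q1 * m) ^ 2 := by ring
        rw [this, hσσ] at h1
        linear_combination h1
      have h3 : (4 * norm α).natAbs = q1 * (4 * r) := by
        rw [h2, Int.natAbs_mul, hn]; simp
      rw [Int.natAbs_mul] at h3
      have h4 : (4 : ℤ).natAbs = 4 := rfl
      rw [h4] at h3
      have h5 : q1 * (4 * r) = 4 * (q1 * r) := by ring
      omega
    have hodd_cancel : ∀ {p : ℤ}, Prime p → ¬ p ∣ 2 → ∀ {x : ℤ}, p ∣ 2 * x → p ∣ x := by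
      intro p hp h2 x hx
      rcases hp.dvd_or_dvd hx with h | h
      · exact absurd h h2
      · exact h
    have hαJ : (r : ℤ) ∣ α.re - b * α.im := by
      apply hodd_cancel hrp
      · intro h1
        have h2 : r ∣ 2 := by exact_mod_cast h1
        rw [Nat.prime_dvd_prime_iff_eq hr Nat.prime_two] at h2
        exact hr2' h2
      · have : 2 * (α.re - b * α.im) = tr α - (2 * b + 1) * α.im := by unfold tr; ring
        rw [this, hαt, hαi, mul_one]
        exact hmd
    -- κ divides α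
    obtain ⟨b1, hb1⟩ : ∃ b1 : ℤ, 2 * b1 + 1 = q1 := ⟨(q1 - 1) / 2, by omega⟩
    have hb1e : (q1 : ℤ) ∣ b1 ^ 2 + b1 - e := by
      obtain ⟨k, hk⟩ : ∃ k : ℤ, (q1 : ℤ) - q2 = 4 * k := ⟨((q1 : ℤ) - q2) / 4, by omega⟩
      refine ⟨k, ?_⟩
      have h1 : 4 * (b1 ^ 2 + b1 - e) = 4 * (q1 * k) := by
        linear_combination (2 * b1 + 1 + q1) * hb1 - he + q1 * hk
      omega
    have hκ1 := hκJ b1 (by rw [hb1])
    have hα1 : (q1 : ℤ) ∣ α.re - b1 * α.im := by
      apply hodd_cancel hp1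
      · intro h1
        have := Int.le_of_dvd two_pos h1
        omega
      · have : 2 * (α.re - b1 * α.im) = tr α - (2 * b1 + 1) * α.im := by unfold tr; ring
        rw [this, hαt, hαi, hb1]
        exact ⟨σ * m - 1, by ring⟩
    have hκα : κ ∣ α := by
      have h1 := J_principal (by omega : (q1 : ℤ) ≠ 0) hsq hb1e hκ1 (by rw [hκN]; simp)
      have h2 : α ∈ Ideal.span {((q1 : ℤ) : R e), bb e b1} := (mem_J hb1e α).2 hα1
      rw [h1] at h2
      exact Ideal.mem_span_singleton.1 h2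
    obtain ⟨π, hπ⟩ := hκα
    have hπN : (norm π).natAbs = r := by
      have h1 : (norm κ).natAbs * (norm π).natAbs = q1 * r := by
        rw [← Int.natAbs_mul, ← map_mul, ← hπ, hαN]
      rw [hκN] at h1
      exact Nat.eq_of_mul_eq_mul_left h.prime1.pos h1
    have hπJ : (r : ℤ) ∣ π.re - b * π.im := by
      have h1 : (r : ℤ) ∣ (κ.re - b * κ.im) * (π.re - b * π.im) := by
        rw [hπ] at hαJ
        obtain ⟨k, hk⟩ := hαJ
        obtain ⟨l, hl⟩ := hb
        refine ⟨k + l * (κ.im * π.im), ?_⟩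
        simp only [re_mul, im_mul] at hk
        linear_combination hk + κ.im * π.im * hl
      rcases hrp.dvd_or_dvd h1 with h' | h'
      · exfalso
        apply hrq1
        have h2 : (r : ℤ) ∣ norm κ := by
          obtain ⟨k, hk⟩ := h'
          obtain ⟨l, hl⟩ := hb
          refine ⟨κ.im ^ 2 * l + k * (κ.re + b * κ.im) + k * κ.im, ?_⟩
          rw [norm_def]
          linear_combination κ.im ^ 2 * hl + (κ.re + b * κ.im) * hk + κ.im * hk
        have h3 : r ∣ q1 := by
          rw [← hκN]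
          exact Int.natCast_dvd.1 h2
        exact_mod_cast h3
      · exact h'
    rw [J_principal hr0 hsq hb hπJ (by rw [hπN]; simp)]
    exact ⟨⟨π, rfl⟩⟩

end QP
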