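import Mathlib
import Pool.Agent.Lib_MP_94ab8c.Defs
import Pool.Agent.Lib_MP_94ab8c.CondInt

/-!
(1) implies that `D` has one of six explicit shapes.
-/

namespace QP

/-- no square is congruent to `- k ^ 2` modulo a prime `3 mod 4` not dividing `k` -/
theorem no_neg_sq {q : ℕ} (hq : q.Prime) (h3 : q % 4 = 3) {x k : ℤ} (hk : ¬ (q : ℤ) ∣ k)
    (h : (q : ℤ) ∣ x ^ 2 + k ^ 2) : False := by
  have : Fact q.Prime := ⟨hq⟩
  have h1 : ((x : ZMod q)) ^ 2 + (k : ZMod q) ^ 2 = 0 := by
    have := (ZMod.intCast_zmod_eq_zero_iff_dvd (x ^ 2 + k ^ 2) q).2 h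
    push_cast at this
    exact this
  have hk0 : (k : ZMod q) ≠ 0 := by
    intro h0
    exact hk ((ZMod.intCast_zmod_eq_zero_iff_dvd k q).1 h0)
  have h2 : ((x : ZMod q) * (k : ZMod q)⁻¹) ^ 2 = -1 := by
    field_simp
    linear_combination h1
  exact ZMod.mod_four_ne_three_of_sq_eq_neg_one h2 h3

/-- the odd number next to `√D` with small `|D - a ^ 2|` -/
theorem near_sqrt {q1 q2 : ℕ} (h : Setting q1 q2) :
    ∃ a0 a σ n : ℤ, 0 < a0 ∧ a0 ^ 2 < q1 * q2 ∧ (q1 : ℤ) * q2 < (a0 + 2) ^ 2 ∧ a0 % 2 = 1 ∧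
      a % 2 = 1 ∧ a0 ≤ a ∧ a ≤ a0 + 2 ∧ (σ = 1 ∨ σ = -1) ∧ 0 < n ∧ n % 2 = 1 ∧
      2 * n ≤ a0 - 1 ∧ (q1 : ℤ) * q2 - a ^ 2 = 4 * σ * n := by
  have hm8 : ((q1 : ℤ) * q2) % 8 = 5 := by exact_mod_cast h.mod8
  have hq1 : (3 : ℤ) ≤ q1 := by have := h.mod1; omega
  have hlt : (q1 : ℤ) < q2 := by exact_mod_cast h.lt
  have hm2 : (q2 : ℤ) % 4 = 3 := by have := h.mod2; omega
  have hD21 : (21 : ℤ) ≤ q1 * q2 := by
    have h1 : (7 : ℤ) ≤ q2 := by omega
    nlinarith
  have hsq : ∀ r : ℤ, r * r ≠ (q1 : ℤ) * q2 := by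
    intro r hr
    have h1 : (r * r) % 8 = 5 := by rw [hr]; exact hm8
    rcases Int.emod_two_eq_zero_or_one r with h' | h'
    · obtain ⟨x, hx⟩ : ∃ x, r = 2 * x := ⟨r / 2, by omega⟩
      rw [hx] at h1
      have : 2 * x * (2 * x) = 2 * (2 * (x * x)) := by ring
      omega
    · obtain ⟨x, hx⟩ : ∃ x, r = 2 * x + 1 := ⟨r / 2, by omega⟩
      rw [hx] at h1
      have h2 : (2 * x + 1) * (2 * x + 1) = 4 * (x * (x + 1)) + 1 := by ring
      have h3 : (x * (x + 1)) % 2 = 0 := by
        rcases Int.emod_two_eq_zero_or_one x with h'' | h''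
        · obtain ⟨y, hy⟩ : ∃ y, x = 2 * y := ⟨x / 2, by omega⟩
          rw [hy]
          have : 2 * y * (2 * y + 1) = 2 * (y * (2 * y + 1)) := by ring
          omega
        · obtain ⟨y, hy⟩ : ∃ y, x = 2 * y + 1 := ⟨x / 2, by omega⟩
          rw [hy]
          have : (2 * y + 1) * (2 * y + 1 + 1) = 2 * ((2 * y + 1) * (y + 1)) := by ring
          omega
      omega
  obtain ⟨s, hs0, hs1, hs2⟩ : ∃ s : ℤ, 0 ≤ s ∧ s * s < q1 * q2 ∧ (q1 : ℤ) * q2 < (s + 1) * (s + 1) := by
    refine ⟨Nat.sqrt (q1 * q2), by positivity, ?_, ?_⟩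
    · have h1 : ((Nat.sqrt (q1 * q2) : ℤ)) * (Nat.sqrt (q1 * q2) : ℤ) ≤ q1 * q2 := by
        exact_mod_cast Nat.sqrt_le (q1 * q2)
      exact lt_of_le_of_ne h1 (hsq _)
    · exact_mod_cast Nat.lt_succ_sqrt (q1 * q2)
  obtain ⟨a0, ha0, ha1, ha2, ha3⟩ : ∃ a0 : ℤ, 0 < a0 ∧ a0 ^ 2 < q1 * q2 ∧
      (q1 : ℤ) * q2 < (a0 + 2) ^ 2 ∧ a0 % 2 = 1 := by
    have hs3 : 4 ≤ s := by
      by_contra hc
      push Not at hc
      have : (s + 1) * (s + 1) ≤ 4 * 4 := by nlinarith
      omega
    rcases Int.emod_two_eq_zero_or_one s with h' | h'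
    · refine ⟨s - 1, by omega, by nlinarith, ?_, by omega⟩
      have : (s - 1 + 2) ^ 2 = (s + 1) * (s + 1) := by ring
      rw [this]; exact hs2
    · exact ⟨s, by omega, by rw [sq]; exact hs1, by nlinarith, h'⟩
  -- the two values
  obtain ⟨x, hx⟩ : ∃ x, a0 = 2 * x + 1 := ⟨a0 / 2, by omega⟩
  have hxx : (x * (x + 1)) % 2 = 0 := by
    rcases Int.emod_two_eq_zero_or_one x with h'' | h''
    · obtain ⟨y, hy⟩ : ∃ y, x = 2 * y := ⟨x / 2, by omega⟩
      rw [hy]
      have : 2 * y * (2 * y + 1) = 2 * (y * (2 * y + 1)) := by ring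
      omega
    · obtain ⟨y, hy⟩ : ∃ y, x = 2 * y + 1 := ⟨x / 2, by omega⟩
      rw [hy]
      have : (2 * y + 1) * (2 * y + 1 + 1) = 2 * ((2 * y + 1) * (y + 1)) := by ring
      omega
  have hsq1 : a0 ^ 2 = 4 * (x * (x + 1)) + 1 := by rw [hx]; ring
  have hsq2 : (a0 + 2) ^ 2 = 4 * (x * (x + 1)) + 8 * x + 9 := by rw [hx]; ring
  obtain ⟨N1, hN1⟩ : ∃ N1 : ℤ, (q1 : ℤ) * q2 - a0 ^ 2 = 4 * N1 ∧ N1 % 2 = 1 :=
    ⟨((q1 : ℤ) * q2 - a0 ^ 2) / 4, by omega, by omega⟩
  obtain ⟨N2, hN2⟩ : ∃ N2 : ℤ, (a0 + 2) ^ 2 - (q1 : ℤ) * q2 = 4 * N2 ∧ N2 % 2 = 1 :=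
    ⟨((a0 + 2) ^ 2 - (q1 : ℤ) * q2) / 4, by omega, by omega⟩
  have hsum : N1 + N2 = a0 + 1 := by
    have : 4 * (N1 + N2) = 4 * (a0 + 1) := by
      have h1 := hN1.1
      have h2 := hN2.1
      linear_combination -h1 - h2
    omega
  have hne : N1 ≠ N2 := by
    intro heq
    have h1 : (q1 : ℤ) * q2 = (a0 + 1) ^ 2 + 1 := by
      have h1 := hN1.1
      have h2 := hN2.1
      rw [heq] at h1
      have : 2 * ((q1 : ℤ) * q2) = 2 * ((a0 + 1) ^ 2 + 1) := by linear_combination h1 - h2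
      omega
    refine no_neg_sq h.prime1 h.mod1 (x := a0 + 1) (k := 1) ?_ ⟨q2, by rw [h1]; ring⟩
    intro h2
    have := Int.le_of_dvd one_pos h2
    omega
  rcases lt_or_gt_of_ne hne with hlt' | hlt'
  · refine ⟨a0, a0, 1, N1, ha0, ha1, ha2, ha3, ha3, le_refl _, by omega, Or.inl rfl, ?_, hN1.2,
      by omega, by rw [hN1.1]; ring⟩
    have := hN1.1
    omega
  · refine ⟨a0, a0 + 2, -1, N2, ha0, ha1, ha2, ha3, by omega, by omega, le_refl _, Or.inr rfl, ?_,
      hN2.2, by omega, by linear_combination -hN2.1⟩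
    have := hN2.1
    omega

/-- the values at two arguments with the same prime cannot agree -/
theorem two_args {q1 q2 : ℕ} (h : Setting q1 q2) {m m' r : ℤ} (hm : 0 < m) (hm' : 0 < m')
    (hne : m ≠ m') (h1 : |(q1 : ℤ) * m ^ 2 - q2| = r) (h2 : |(q1 : ℤ) * m' ^ 2 - q2| = r) :
    False := by
  have hq1 : (3 : ℤ) ≤ q1 := by have := h.mod1; omega
  rw [← h2] at h1
  rcases abs_eq_abs.1 h1 with h3 | h3
  · have h4 : (q1 : ℤ) * m ^ 2 = q1 * m' ^ 2 := by linarith
    have h5 := mul_left_cancel₀ (by omega : (q1 : ℤ) ≠ 0) h4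
    have h6 := (sq_eq_sq₀ hm.le hm'.le).1 h5
    exact hne h6
  · have h4 : (q1 : ℤ) * (m ^ 2 + m' ^ 2) = 2 * q2 := by linarith
    have h5 : (q1 : ℤ) ∣ 2 * q2 := ⟨_, h4.symm⟩
    have hp1 : Prime (q1 : ℤ) := Nat.prime_iff_prime_int.1 h.prime1
    rcases hp1.dvd_or_dvd h5 with h6 | h6
    · have := Int.le_of_dvd two_pos h6
      omega
    · have h7 : q1 ∣ q2 := by exact_mod_cast h6
      rw [Nat.prime_dvd_prime_iff_eq h.prime1 h.prime2] at h7
      exact absurd h7 h.lt.ne

theorem natAbs_four {x : ℤ} {n : ℕ} (h : x.natAbs = 4 * n) : |x| = 4 * (n : ℤ) := by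
  rw [Int.abs_eq_natAbs, h]; push_cast; ring

/-- the six shapes -/
def SixShapes (q1 q2 : ℕ) : Prop :=
  Shape q1 q2 ∨
  (∃ c : ℤ, 0 < c ∧ ((q1 : ℤ) * c ^ 2 = 9 * q2 + 4 ∨ (q1 : ℤ) * c ^ 2 = 9 * q2 - 4)) ∨
  (∃ c : ℤ, 0 < c ∧ c % 4 = 1 ∧ 4 * c + 5 < q1 ∧ (q1 : ℤ) * c ^ 2 = 4 * q2 - 1)

theorem shape_of_prime {q1 q2 : ℕ} (h : Setting q1 q2) (hc : CondInt q1 q2) {a0 a σ m : ℤ}
    {r : ℕ} (hr : r.Prime) (hrq : r ≠ q1)
    (ha0 : 0 < a0) (ha1 : a0 ^ 2 < q1 * q2) (ha2 : (q1 : ℤ) * q2 < (a0 + 2) ^ 2)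
    (ha0o : a0 % 2 = 1) (hao : a % 2 = 1) (ha3 : a0 ≤ a) (ha4 : a ≤ a0 + 2)
    (hσ : σ = 1 ∨ σ = -1) (hro : r % 2 = 1) (hr2 : 2 * (r : ℤ) ≤ a0 - 1)
    (hDa : (q1 : ℤ) * q2 - a ^ 2 = 4 * σ * r) (hm0 : 0 < m) (hmo : m % 2 = 1) (hmr : m ≤ r)
    (hF : ((q1 : ℤ) * m ^ 2 - q2).natAbs = 4 * r) : SixShapes q1 q2 := by
  have hq1 : (3 : ℤ) ≤ q1 := by have := h.mod1; omega
  have hlt : (q1 : ℤ) < q2 := by exact_mod_cast h.lt
  have hm1 : (q1 : ℤ) % 4 = 3 := by have := h.mod1; omega
  have hm2 : (q2 : ℤ) % 4 = 3 := by have := h.mod2; omega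
  have hp1 : Prime (q1 : ℤ) := Nat.prime_iff_prime_int.1 h.prime1
  have hrp : Prime (r : ℤ) := Nat.prime_iff_prime_int.1 hr
  have hr1 : (1 : ℤ) < r := by exact_mod_cast hr.one_lt
  have hσσ : σ * σ = 1 := by rcases hσ with h | h <;> rw [h] <;> norm_num
  have hrq1 : ¬ (r : ℤ) ∣ q1 := by
    intro h1
    have h2 : r ∣ q1 := by exact_mod_cast h1
    exact hrq ((Nat.prime_dvd_prime_iff_eq hr h.prime1).1 h2)
  have hr3 : (3 : ℤ) ≤ r := by omega
  have hFabs := natAbs_four hF
  -- m < r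
  have hmr' : m ≤ r - 2 := by
    have : m ≠ r := by
      rintro rfl
      have h1 : (r : ℤ) ∣ (q1 : ℤ) * (r : ℤ) ^ 2 - q2 := by
        have h2 : (r : ℤ) ∣ |(q1 : ℤ) * (r : ℤ) ^ 2 - q2| := by rw [hFabs]; exact dvd_mul_left _ _
        rwa [dvd_abs] at h2
      have h3 : (r : ℤ) ∣ q2 := by
        have h4 : (r : ℤ) ∣ q1 * (r : ℤ) ^ 2 := ⟨q1 * r, by ring⟩
        have := dvd_sub h4 h1
        simpa using this
      have h4 : r ∣ q2 := by exact_mod_cast h3
      have h5 := (Nat.prime_dvd_prime_iff_eq hr h.prime2).1 h4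
      have h6 : (r : ℤ) = q2 := by exact_mod_cast h5
      rw [h6] at hr2
      have h7 : (q1 : ℤ) * q2 ≤ q2 * q2 := mul_le_mul_of_nonneg_right hlt.le (by omega)
      nlinarith
    omega
  -- the second root
  have hR1 : (q1 : ℤ) * q2 < 4 * (2 * r - m) ^ 2 := by
    by_contra hcon
    push Not at hcon
    have hlt4 : 4 * (2 * r - m) ^ 2 < (q1 : ℤ) * q2 := by
      apply lt_of_le_of_ne hcon
      have hm8 : ((q1 : ℤ) * q2) % 8 = 5 := by exact_mod_cast h.mod8
      intro h'
      rw [← h'] at hm8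
      omega
    obtain ⟨k, hk, hk2⟩ := hc (2 * r - m) (by omega) (by omega) hlt4
    have hkabs := natAbs_four hk
    have h1 : (r : ℤ) ∣ (q1 : ℤ) * (2 * r - m) ^ 2 - q2 := by
      have h2 : (r : ℤ) ∣ (q1 : ℤ) * m ^ 2 - q2 := by
        have h2 : (r : ℤ) ∣ |(q1 : ℤ) * m ^ 2 - q2| := by rw [hFabs]; exact dvd_mul_left _ _
        rwa [dvd_abs] at h2
      have h3 : (q1 : ℤ) * (2 * r - m) ^ 2 - q2
        = (q1 : ℤ) * m ^ 2 - q2 + r * (4 * q1 * r - 4 * q1 * m) := by ring
      rw [h3]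
      exact dvd_add h2 (dvd_mul_right _ _)
    have h4 : r ∣ 4 * k := by
      rw [← hk]; exact Int.natCast_dvd.1 h1
    have h5 : r ∣ k := by
      rcases hr.dvd_mul.1 h4 with h' | h'
      · exfalso
        have h3 : r ∣ 2 ^ 2 := by simpa using h'
        have := hr.dvd_of_dvd_pow h3
        rw [Nat.prime_dvd_prime_iff_eq hr Nat.prime_two] at this
        omega
      · exact h'
    have h6 : k = r := by
      rcases hk2 with h' | h'
      · rw [h'] at h5
        exact absurd (Nat.dvd_one.1 h5) hr.one_lt.ne'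
      · exact ((Nat.prime_dvd_prime_iff_eq hr h').1 h5).symm
    rw [h6] at hkabs
    exact two_args h hm0 (by omega : 0 < 2 * (r : ℤ) - m) (by omega) hFabs hkabs
  -- a0 ≥ q1
  have ha0q : (q1 : ℤ) ≤ a0 := by
    have h1 : (q1 : ℤ) ^ 2 < (a0 + 2) ^ 2 := by
      have : (q1 : ℤ) ^ 2 ≤ q1 * q2 := by
        rw [sq]; exact mul_le_mul_of_nonneg_left hlt.le (by omega)
      linarith
    have := lt_of_pow_lt_pow_left₀ 2 (by omega) h1
    omega
  -- τ
  obtain ⟨τ, hτ, hτm⟩ : ∃ τ : ℤ, (τ = 1 ∨ τ = -1) ∧ (q2 : ℤ) - q1 * m ^ 2 = 4 * τ * r := by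
    rcases abs_cases ((q1 : ℤ) * m ^ 2 - q2) with ⟨h', _⟩ | ⟨h', _⟩
    · exact ⟨-1, Or.inr rfl, by rw [h'] at hFabs; linarith⟩
    · exact ⟨1, Or.inl rfl, by rw [h'] at hFabs; linarith⟩
  have hττ : τ * τ = 1 := by rcases hτ with h | h <;> rw [h] <;> norm_num
  have hprod : (a - q1 * m) * (a + q1 * m) = 4 * r * (τ * q1 - σ) := by
    linear_combination -hDa + q1 * hτm
  have hodd_cancel : ∀ {x : ℤ}, x % 2 = 0 → (r : ℤ) ∣ x → ∃ k : ℤ, x = 2 * r * k := by
    intro x hx hrx
    obtain ⟨y, hy⟩ := hrx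
    have hy2 : y % 2 = 0 := by
      rcases Int.emod_two_eq_zero_or_one y with h' | h'
      · exact h'
      · exfalso
        obtain ⟨u, hu⟩ : ∃ u : ℤ, y = 2 * u + 1 := ⟨y / 2, by omega⟩
        obtain ⟨v, hv⟩ : ∃ v : ℤ, (r : ℤ) = 2 * v + 1 := ⟨r / 2, by omega⟩
        rw [hu, hv] at hy
        have : (2 * v + 1) * (2 * u + 1) = 2 * (2 * v * u + v + u) + 1 := by ring
        omega
    exact ⟨y / 2, by
      have : y = 2 * (y / 2) := by omega
      rw [hy]
      conv_lhs => rw [this]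
      ring⟩
  have hparq : ((q1 : ℤ) * m) % 2 = 1 := by
    obtain ⟨u, hu⟩ : ∃ u : ℤ, m = 2 * u + 1 := ⟨m / 2, by omega⟩
    obtain ⟨v, hv⟩ : ∃ v : ℤ, (q1 : ℤ) = 2 * v + 1 := ⟨q1 / 2, by omega⟩
    rw [hu, hv]
    have : (2 * v + 1) * (2 * u + 1) = 2 * (2 * v * u + v + u) + 1 := by ring
    omega
  have hq1m : (q1 : ℤ) ≤ q1 * m := le_mul_of_one_le_right (by omega) hm0
  have hrdvd : (r : ℤ) ∣ (a - q1 * m) * (a + q1 * m) := by
    rw [hprod]; exact ⟨4 * (τ * q1 - σ), by ring⟩
  rcases hrp.dvd_or_dvd hrdvd with hcase | hcase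
  · -- excluded
    exfalso
    obtain ⟨k, hk⟩ := hodd_cancel (by omega) hcase
    have h1 : k * (a + q1 * m) = 2 * (τ * q1 - σ) := by
      have h2 : (2 * (r : ℤ)) * (k * (a + q1 * m)) = (2 * r) * (2 * (τ * q1 - σ)) := by
        rw [hk] at hprod
        linear_combination hprod
      exact mul_left_cancel₀ (by omega) h2
    have hk0 : k ≠ 0 := by
      rintro rfl
      rw [zero_mul] at h1
      rcases hτ with h' | h' <;> rcases hσ with h'' | h'' <;> rw [h', h''] at h1 <;> omega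
    have hbound : a + q1 * m ≤ 2 * (q1 + 1) := by
      have h2 : |k * (a + q1 * m)| ≤ 2 * (q1 + 1) := by
        rw [h1, abs_le]
        rcases hτ with h' | h' <;> rcases hσ with h'' | h'' <;> rw [h', h''] <;> omega
      rw [abs_mul] at h2
      have h3 : 1 ≤ |k| := Int.one_le_abs hk0
      have h4 : 0 < a + q1 * m := by omega
      rw [abs_of_pos h4] at h2
      have h5 : 1 * (a + q1 * m) ≤ |k| * (a + q1 * m) := mul_le_mul_of_nonneg_right h3 h4.le
      linarith
    have hm1' : m = 1 := by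
      by_contra hne
      have h2 : 3 ≤ m := by omega
      have h3 : (q1 : ℤ) * 3 ≤ q1 * m := mul_le_mul_of_nonneg_left h2 (by omega)
      omega
    rw [hm1', mul_one] at hbound h1
    rw [hm1'] at hτm
    have hτ1 : τ = 1 := by
      rcases hτ with h' | h'
      · exact h'
      · exfalso
        rw [h'] at hτm
        omega
    have ha5 : a = q1 ∨ a = q1 + 2 := by omega
    rcases ha5 with h' | h'
    · rw [h', hτ1] at h1
      have h2 : (q1 : ℤ) * (2 * k - 2) = -2 * σ := by linear_combination h1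
      have h3 : (q1 : ℤ) ∣ 2 := by
        rcases hσ with h'' | h'' <;> rw [h''] at h2
        · exact ⟨-(2 * k - 2), by linear_combination h2⟩
        · exact ⟨2 * k - 2, by linear_combination -h2⟩
      have := Int.le_of_dvd two_pos h3
      omega
    · have h4 : (q2 : ℤ) = q1 + 4 * r := by rw [hτ1] at hτm; linarith
      rw [h', h4] at hDa
      have h5 : (r : ℤ) * (q1 - σ) = q1 + 1 := by
        have : 4 * ((r : ℤ) * (q1 - σ)) = 4 * (q1 + 1) := by linear_combination hDa
        omega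
      have h6 : (q1 : ℤ) - 1 ≤ q1 - σ := by rcases hσ with h'' | h'' <;> omega
      have h7 : 3 * ((q1 : ℤ) - 1) ≤ r * (q1 - σ) :=
        mul_le_mul hr3 h6 (by omega) (by omega)
      omega
  · -- the main case
    obtain ⟨B, hB⟩ := hodd_cancel (by omega) hcase
    have hBeq : (a - q1 * m) * B = 2 * (τ * q1 - σ) := by
      have h2 : (2 * (r : ℤ)) * ((a - q1 * m) * B) = (2 * r) * (2 * (τ * q1 - σ)) := by
        rw [hB] at hprod
        linear_combination hprod
      exact mul_left_cancel₀ (by omega) h2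
    have hBpos : 0 < B := by
      have h1 : 0 < 2 * (r : ℤ) * B := by rw [← hB]; omega
      exact (mul_pos_iff_of_pos_left (by omega)).1 h1
    have hB2 : 2 ≤ B := by
      by_contra hcon
      have h1 : B = 1 := by omega
      rw [h1, mul_one] at hB
      omega
    have hr2m : 0 < 2 * (r : ℤ) - m := by omega
    have hB4 : B ≤ 4 := by
      by_contra hcon
      push Not at hcon
      -- X = a + q1 m - 5 m
      have h1 : 5 * (2 * (r : ℤ)) ≤ a + q1 * m := by
        rw [hB]
        have : 2 * (r : ℤ) * 5 ≤ 2 * r * B := mul_le_mul_of_nonneg_left (by omega) (by omega)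
        linarith
      have h2 : (5 * (2 * (r : ℤ) - m)) ^ 2 ≤ (a + q1 * m - 5 * m) ^ 2 :=
        pow_le_pow_left₀ (by omega) (by linarith) 2
      have h3 : (5 * a0) ^ 2 < (2 * (a + q1 * m - 5 * m)) ^ 2 := by
        have h4 : (5 * a0) ^ 2 = 25 * a0 ^ 2 := by ring
        have h5 : (2 * (a + q1 * m - 5 * m)) ^ 2 = 4 * (a + q1 * m - 5 * m) ^ 2 := by ring
        have h6 : (5 * (2 * (r : ℤ) - m)) ^ 2 = 25 * (2 * r - m) ^ 2 := by ring
        rw [h4, h5]
        rw [h6] at h2
        linarith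
      have h4 : 5 * a0 < 2 * (a + q1 * m - 5 * m) :=
        lt_of_pow_lt_pow_left₀ 2 (by linarith) h3
      -- w = q1 m - a
      have h5 : a0 + 3 ≤ 2 * (q1 * m - a) := by omega
      have h6 : (q1 * m - a) * B = 2 * (σ - τ * q1) := by linear_combination -hBeq
      have h7 : 5 * (q1 * m - a) ≤ (q1 * m - a) * B := by
        have : (q1 * m - a) * 5 ≤ (q1 * m - a) * B := mul_le_mul_of_nonneg_left (by omega) (by omega)
        linarith
      have h8 : 2 * (σ - τ * q1) ≤ 2 * (1 + q1) := by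
        rcases hτ with h' | h' <;> rcases hσ with h'' | h'' <;> rw [h', h''] <;> omega
      omega
    -- the element of norm ± q1
    have hA : (B * a + 2 * σ) ^ 2 - B ^ 2 * (q1 * q2) = 4 * (σ * τ) * q1 := by
      have h1 : (q1 : ℤ) * q2 = a ^ 2 + 4 * σ * r := by linarith
      have h2 : τ * q1 - σ = a * B - r * B ^ 2 := by
        have h3 : 2 * (τ * q1 - σ) = 2 * (a * B - r * B ^ 2) := by
          rw [← hBeq]
          have h4 : (q1 : ℤ) * m = 2 * r * B - a := by linarith
          rw [h4]; ring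
        linarith
      rw [h1]
      linear_combination -4 * σ * h2
    have hq1A : (q1 : ℤ) ∣ B * a + 2 * σ := by
      have h1 : (q1 : ℤ) ∣ (B * a + 2 * σ) ^ 2 :=
        ⟨4 * (σ * τ) + B ^ 2 * q2, by linear_combination hA⟩
      exact hp1.dvd_of_dvd_pow h1
    obtain ⟨c, hcA⟩ := hq1A
    have hcpos : 0 < c := by
      have h1 : 0 < B * a + 2 * σ := by
        have : 2 * 3 ≤ B * a := mul_le_mul hB2 (by omega) (by norm_num) (by omega)
        rcases hσ with h'' | h'' <;> omega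
      rw [hcA] at h1
      exact (mul_pos_iff_of_pos_left (by omega)).1 h1
    have hκ : (q1 : ℤ) * c ^ 2 - B ^ 2 * q2 = 4 * (σ * τ) := by
      have h1 : (q1 : ℤ) * ((q1 : ℤ) * c ^ 2 - B ^ 2 * q2) = q1 * (4 * (σ * τ)) := by
        rw [hcA] at hA
        linear_combination hA
      exact mul_left_cancel₀ (by omega) h1
    have hστ : σ * τ = 1 ∨ σ * τ = -1 := by
      rcases hτ with h' | h' <;> rcases hσ with h'' | h'' <;> rw [h', h''] <;> norm_num
    have hB' : B = 2 ∨ B = 3 ∨ B = 4 := by omega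
    rcases hB' with hB' | hB' | hB'
    · -- B = 2
      left
      rw [hB'] at hκ
      obtain ⟨c', hc'⟩ : ∃ c', c = 2 * c' := by
        refine ⟨c / 2, ?_⟩
        by_contra hne
        obtain ⟨u, hu⟩ : ∃ u, c = 2 * u + 1 := ⟨c / 2, by omega⟩
        obtain ⟨v, hv⟩ : ∃ v : ℤ, (q1 : ℤ) = 2 * v + 1 := ⟨q1 / 2, by omega⟩
        rw [hu, hv] at hκ
        have : (2 * v + 1) * (2 * u + 1) ^ 2 = 2 * ((2 * v + 1) * (2 * u ^ 2 + 2 * u) + v) + 1 := by
          ring
        omega
      have h1 : (q1 : ℤ) * c' ^ 2 - q2 = σ * τ := by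
        rw [hc'] at hκ
        have : 4 * ((q1 : ℤ) * c' ^ 2 - q2) = 4 * (σ * τ) := by linear_combination hκ
        omega
      obtain ⟨s, hs⟩ : ∃ s, c' = 2 * s := by
        refine ⟨c' / 2, ?_⟩
        by_contra hne
        obtain ⟨u, hu⟩ : ∃ u, c' = 2 * u + 1 := ⟨c' / 2, by omega⟩
        obtain ⟨v, hv⟩ : ∃ v : ℤ, (q1 : ℤ) = 2 * v + 1 := ⟨q1 / 2, by omega⟩
        rw [hu, hv] at h1
        have : (2 * v + 1) * (2 * u + 1) ^ 2 = 2 * ((2 * v + 1) * (2 * u ^ 2 + 2 * u) + v) + 1 := by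
          ring
        omega
      have h2 : σ * τ = 1 := by
        rw [hs] at h1
        have : (q1 : ℤ) * (2 * s) ^ 2 = 4 * (q1 * s ^ 2) := by ring
        omega
      refine ⟨s, Or.inr (Or.inr ?_)⟩
      rw [h2, hs] at h1
      linear_combination -q1 * h1
    · -- B = 3
      right; left
      rw [hB'] at hκ
      refine ⟨c, hcpos, ?_⟩
      rcases hστ with h' | h' <;> rw [h'] at hκ
      · left; linarith
      · right; linarith
    · -- B = 4
      right; right
      rw [hB'] at hκ hBeq hB hcA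
      obtain ⟨c', hc'⟩ : ∃ c', c = 2 * c' := by
        refine ⟨c / 2, ?_⟩
        by_contra hne
        obtain ⟨u, hu⟩ : ∃ u, c = 2 * u + 1 := ⟨c / 2, by omega⟩
        obtain ⟨v, hv⟩ : ∃ v : ℤ, (q1 : ℤ) = 2 * v + 1 := ⟨q1 / 2, by omega⟩
        rw [hu, hv] at hκ
        have : (2 * v + 1) * (2 * u + 1) ^ 2 = 2 * ((2 * v + 1) * (2 * u ^ 2 + 2 * u) + v) + 1 := by
          ring
        omega
      have h1 : (q1 : ℤ) * c' ^ 2 - 4 * q2 = σ * τ := by
        rw [hc'] at hκ
        have : 4 * ((q1 : ℤ) * c' ^ 2 - 4 * q2) = 4 * (σ * τ) := by linear_combination hκ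
        omega
      obtain ⟨u, hu⟩ : ∃ u, c' = 2 * u + 1 := by
        refine ⟨c' / 2, ?_⟩
        by_contra hne
        obtain ⟨u, hu⟩ : ∃ u, c' = 2 * u := ⟨c' / 2, by omega⟩
        rw [hu] at h1
        have : (q1 : ℤ) * (2 * u) ^ 2 = 2 * (2 * (q1 * u ^ 2)) := by ring
        omega
      have h2 : σ * τ = -1 := by
        obtain ⟨v, hv⟩ : ∃ v : ℤ, (q1 : ℤ) = 4 * v + 3 := ⟨q1 / 4, by omega⟩
        rw [hu, hv] at h1
        have : (4 * v + 3) * (2 * u + 1) ^ 2 = 4 * ((4 * v + 3) * (u ^ 2 + u) + v) + 3 := by ring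
        omega
      rw [h2] at h1
      -- q1 c' = 2 a + σ
      have h3 : (q1 : ℤ) * c' = 2 * a + σ := by
        rw [hc'] at hcA
        have : 2 * ((q1 : ℤ) * c') = 2 * (2 * a + σ) := by linear_combination -hcA
        omega
      have h4 : 2 * (q1 * m - a) = σ * (q1 + 1) := by
        have h5 : τ = -σ := by
          rcases hτ with h' | h' <;> rcases hσ with h'' | h'' <;> rw [h', h''] at h2 ⊢ <;> omega
        rw [h5] at hBeq
        linarith
      have hσ1 : σ = 1 := by
        rcases hσ with h'' | h''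
        · exact h''
        · exfalso
          rw [h''] at h4
          have h5 : 8 * (2 * (r : ℤ) - m) = 4 * a - (q1 + 1) - 8 * m := by linarith
          have h6 : 2 * (2 * (r : ℤ) - m) ≤ a0 := by omega
          have h7 : (2 * (2 * (r : ℤ) - m)) ^ 2 ≤ a0 ^ 2 := pow_le_pow_left₀ (by omega) h6 2
          have h8 : (2 * (2 * (r : ℤ) - m)) ^ 2 = 4 * (2 * r - m) ^ 2 := by ring
          rw [h8] at h7
          linarith
      rw [hσ1] at h3 h4
      have h5 : c' = 2 * m - 1 := by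
        have h6 : (q1 : ℤ) * c' = q1 * (2 * m - 1) := by linarith
        exact mul_left_cancel₀ (by omega) h6
      refine ⟨c', by omega, by omega, ?_, by linarith⟩
      -- the inequality
      have h6 : 8 * (2 * (r : ℤ) - m) = 2 * (q1 * c') + q1 - 4 * c' - 5 := by linarith
      have h7 : (2 * ((q1 : ℤ) * c')) ^ 2 < (8 * (2 * (r : ℤ) - m)) ^ 2 := by
        have h8 : (8 * (2 * (r : ℤ) - m)) ^ 2 = 16 * (4 * (2 * r - m) ^ 2) := by ring
        have h9 : (2 * ((q1 : ℤ) * c')) ^ 2 = 16 * (q1 * q2) - 4 * q1 := by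
          linear_combination 4 * (q1 : ℤ) * h1
        rw [h8, h9]
        linarith
      have h8 := lt_of_pow_lt_pow_left₀ 2 (by omega : 0 ≤ 8 * (2 * (r : ℤ) - m)) h7
      linarith

theorem one_shape {q1 q2 : ℕ} (h : Setting q1 q2) (hc : CondInt q1 q2) : SixShapes q1 q2 := by
  have hq1 : (3 : ℤ) ≤ q1 := by have := h.mod1; omega
  have hlt : (q1 : ℤ) < q2 := by exact_mod_cast h.lt
  have hm1 : (q1 : ℤ) % 4 = 3 := by have := h.mod1; omega
  have hm2 : (q2 : ℤ) % 4 = 3 := by have := h.mod2; omega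
  have hp1 : Prime (q1 : ℤ) := Nat.prime_iff_prime_int.1 h.prime1
  have hp2 : Prime (q2 : ℤ) := Nat.prime_iff_prime_int.1 h.prime2
  obtain ⟨a0, a, σ, n, ha0, ha1, ha2, ha0o, hao, ha3, ha4, hσ, hn0, hno, hn2, hDa⟩ := near_sqrt h
  have hσσ : σ * σ = 1 := by rcases hσ with h | h <;> rw [h] <;> norm_num
  have hn4 : 4 * n ^ 2 < q1 * q2 := by
    have h1 : (2 * n) ^ 2 ≤ a0 ^ 2 := pow_le_pow_left₀ (by omega) (by omega) 2
    have h2 : (2 * n) ^ 2 = 4 * n ^ 2 := by ring
    linarith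
  by_cases hqn : (q1 : ℤ) ∣ n
  · -- q1 divides n
    obtain ⟨n', hn'⟩ := hqn
    have hqa : (q1 : ℤ) ∣ a := by
      have h1 : (q1 : ℤ) ∣ a ^ 2 := ⟨q2 - 4 * σ * n', by rw [hn'] at hDa; linear_combination -hDa⟩
      exact hp1.dvd_of_dvd_pow h1
    obtain ⟨a', ha'⟩ := hqa
    have hapos : 0 < a' := by
      have : 0 < (q1 : ℤ) * a' := by rw [← ha']; omega
      exact (mul_pos_iff_of_pos_left (by omega)).1 this
    have hn'pos : 0 < n' := by
      have : 0 < (q1 : ℤ) * n' := by rw [← hn']; omega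
      exact (mul_pos_iff_of_pos_left (by omega)).1 this
    have hF1 : (q2 : ℤ) - q1 * a' ^ 2 = 4 * σ * n' := by
      have : (q1 : ℤ) * (q2 - q1 * a' ^ 2) = q1 * (4 * σ * n') := by
        rw [hn', ha'] at hDa
        linear_combination hDa
      exact mul_left_cancel₀ (by omega) this
    have ha'o : a' % 2 = 1 := by
      rcases Int.emod_two_eq_zero_or_one a' with h' | h'
      · exfalso
        obtain ⟨u, hu⟩ : ∃ u, a' = 2 * u := ⟨a' / 2, by omega⟩
        rw [hu] at ha'
        have : (q1 : ℤ) * (2 * u) = 2 * (q1 * u) := by ring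
        omega
      · exact h'
    have hn'q : (q1 : ℤ) * 1 ≤ q1 * n' := mul_le_mul_of_nonneg_left hn'pos (by omega)
    have ha'q : 3 * a' ≤ (q1 : ℤ) * a' := mul_le_mul_of_nonneg_right hq1 hapos.le
    have h4a : 4 * a' ^ 2 < q1 * q2 := by
      have h1 : 2 * a' < a0 := by
        rw [hn'] at hn2
        omega
      have h2 : (2 * a') ^ 2 < a0 ^ 2 := pow_lt_pow_left₀ h1 (by omega) two_ne_zero
      have h3 : (2 * a') ^ 2 = 4 * a' ^ 2 := by ring
      linarith
    obtain ⟨k, hk, hk2⟩ := hc a' hapos ha'o h4a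
    have hkabs := natAbs_four hk
    have hkn : (k : ℤ) = n' := by
      have h1 : |(q1 : ℤ) * a' ^ 2 - q2| = 4 * n' := by
        have h2 : (q1 : ℤ) * a' ^ 2 - q2 = -(4 * σ * n') := by linarith
        rw [h2, abs_neg]
        rcases hσ with h'' | h'' <;> rw [h''] <;> simp [abs_mul, abs_of_pos hn'pos]
      rw [h1] at hkabs
      omega
    rcases hk2 with h' | h'
    · -- n' = 1
      left
      rw [h'] at hkn
      rw [hn', ← hkn, ha'] at hDa
      push_cast at hDa
      rcases hσ with h'' | h'' <;> rw [h''] at hDa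
      · exact ⟨a', Or.inl (by linear_combination hDa)⟩
      · exact ⟨a', Or.inr (Or.inl (by linear_combination hDa))⟩
    · -- n' prime: impossible
      exfalso
      have hkp : Prime (k : ℤ) := Nat.prime_iff_prime_int.1 h'
      have h1 : 2 * (k : ℤ) < a' := by
        have h2 : (q1 : ℤ) * (2 * k) < q1 * a' := by
          rw [hkn, ← ha']
          rw [hn'] at hn2
          linarith
        exact lt_of_mul_lt_mul_left h2 (by omega)
      have hk1 : (1 : ℤ) < k := by exact_mod_cast h'.one_lt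
      have h2 : 4 * (a' - 2 * k) ^ 2 < q1 * q2 := by
        have h3 : (a' - 2 * k) ^ 2 ≤ a' ^ 2 := pow_le_pow_left₀ (by omega) (by omega) 2
        linarith
      obtain ⟨l, hl, hl2⟩ := hc (a' - 2 * k) (by omega) (by omega) h2
      have hlabs := natAbs_four hl
      have hkodd : k ≠ 2 := by
        rintro rfl
        rw [hn', ← hkn] at hno
        push_cast at hno
        omega
      have hkl : k ∣ l := by
        have h3 : (k : ℤ) ∣ (q1 : ℤ) * (a' - 2 * k) ^ 2 - q2 := by
          refine ⟨-4 * σ - 4 * q1 * a' + 4 * q1 * k, ?_⟩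
          have h4 : (q1 : ℤ) * a' ^ 2 - q2 = -(4 * σ * k) := by rw [hkn]; linarith
          linear_combination h4
        have h4 : k ∣ 4 * l := by rw [← hl]; exact Int.natCast_dvd.1 h3
        rcases h'.dvd_mul.1 h4 with h5 | h5
        · exfalso
          have h6 : k ∣ 2 ^ 2 := by simpa using h5
          have := h'.dvd_of_dvd_pow h6
          rw [Nat.prime_dvd_prime_iff_eq h' Nat.prime_two] at this
          exact hkodd this
        · exact h5
      have hlk : l = k := by
        rcases hl2 with h5 | h5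
        · rw [h5] at hkl
          exact absurd (Nat.dvd_one.1 hkl) h'.one_lt.ne'
        · exact ((Nat.prime_dvd_prime_iff_eq h' h5).1 hkl).symm
      rw [hlk] at hlabs
      exact two_args h hapos (by omega : 0 < a' - 2 * k) (by omega) hkabs hlabs
  · -- q1 does not divide n
    -- y with q1 y = a mod n
    obtain ⟨y, hy0, hyr, hyd⟩ : ∃ y : ℤ, 0 ≤ y ∧ y < n ∧ n ∣ q1 * y - a := by
      have hco : IsCoprime (q1 : ℤ) n := (hp1.coprime_iff_not_dvd).2 hqn
      obtain ⟨u, v, huv⟩ := hco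
      refine ⟨(u * a) % n, Int.emod_nonneg _ (by omega), Int.emod_lt_of_pos _ hn0, ?_⟩
      have h1 := Int.mul_ediv_add_emod (u * a) n
      have h2 : (u * a) % n = u * a - n * ((u * a) / n) := by linarith
      rw [h2]
      refine ⟨-(v * a) - q1 * ((u * a) / n), ?_⟩
      linear_combination a * huv
    obtain ⟨m, s, hm0, hmr, hmo, hs, hmd⟩ : ∃ m s : ℤ, 0 < m ∧ m ≤ n ∧ m % 2 = 1 ∧
        (s = 1 ∨ s = -1) ∧ n ∣ s * (q1 * m) - a := by
      rcases Int.emod_two_eq_zero_or_one y with h1 | h1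
      · refine ⟨n - y, -1, by omega, by omega, by omega, Or.inr rfl, ?_⟩
        have : -1 * ((q1 : ℤ) * (n - y)) - a = q1 * y - a - n * q1 := by ring
        rw [this]
        exact dvd_sub hyd (dvd_mul_right _ _)
      · refine ⟨y, 1, by omega, by omega, h1, Or.inl rfl, ?_⟩
        rw [one_mul]; exact hyd
    have hss : s * s = 1 := by rcases hs with h | h <;> rw [h] <;> norm_num
    have hm4 : 4 * m ^ 2 < q1 * q2 := by
      have : m ^ 2 ≤ n ^ 2 := pow_le_pow_left₀ hm0.le hmr 2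
      linarith
    obtain ⟨k, hk, hk2⟩ := hc m hm0 hmo hm4
    have hnk : n ∣ k := by
      have h1 : n ∣ q1 * ((q1 : ℤ) * m ^ 2 - q2) := by
        obtain ⟨t, ht⟩ := hmd
        refine ⟨t * (s * (q1 * m) + a) - 4 * σ, ?_⟩
        have h2 : (s * ((q1 : ℤ) * m)) ^ 2 = (q1 * m) ^ 2 := by
          have : (s * ((q1 : ℤ) * m)) ^ 2 = (s * s) * (q1 * m) ^ 2 := by ring
          rw [this, hss, one_mul]
        linear_combination (s * (q1 * m) + a) * ht - h2 - hDa
      have hco : IsCoprime n (q1 : ℤ) := ((hp1.coprime_iff_not_dvd).2 hqn).symm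
      have h2 : n ∣ (q1 : ℤ) * m ^ 2 - q2 := hco.dvd_of_dvd_mul_left h1
      have h3 : n ∣ |(q1 : ℤ) * m ^ 2 - q2| := (dvd_abs _ _).2 h2
      rw [natAbs_four hk] at h3
      have hco4 : IsCoprime n 4 := by
        obtain ⟨u, hu⟩ : ∃ u, n = 2 * u + 1 := ⟨n / 2, by omega⟩
        refine ⟨-2 * u - 1 + 2, u ^ 2, ?_⟩
        rw [hu]; ring
      exact hco4.dvd_of_dvd_mul_left h3
    rcases hk2 with h' | h'
    · -- n = 1
      rw [h'] at hnk
      have hn1 : n = 1 := by
        have := Int.le_of_dvd one_pos (by exact_mod_cast hnk)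
        omega
      rw [hn1, mul_one] at hDa
      rcases hσ with h'' | h''
      · exfalso
        rw [h''] at hDa
        refine no_neg_sq h.prime1 h.mod1 (x := a) (k := 2) ?_ ⟨q2, by linarith⟩
        intro h2
        have := Int.le_of_dvd two_pos h2
        omega
      · left
        rw [h''] at hDa
        have hfac : (a - 2) * (a + 2) = q1 * q2 := by linear_combination -hDa
        have hq2d : (q2 : ℤ) ∣ (a - 2) * (a + 2) := ⟨q1, by rw [hfac]; ring⟩
        have ha5 : 3 ≤ a := by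
          by_contra hcon
          have : a = 1 := by omega
          rw [this] at hfac
          have : (0 : ℤ) < q1 * q2 := by positivity
          omega
        have hpos : (0 : ℤ) < q2 := by omega
        rcases hp2.dvd_or_dvd hq2d with h3 | h3
        · exfalso
          have h4 := Int.le_of_dvd (by omega) h3
          have h5 : (q2 : ℤ) * q2 ≤ (a - 2) * (a + 2) :=
            mul_le_mul h4 (by omega) (by omega) (by omega)
          rw [hfac] at h5
          have h6 := le_of_mul_le_mul_right h5 hpos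
          omega
        · obtain ⟨t, ht⟩ := h3
          have h4 : (a - 2) * t = q1 := by
            have : (q2 : ℤ) * ((a - 2) * t) = q2 * q1 := by
              rw [ht] at hfac
              linear_combination hfac
            exact mul_left_cancel₀ (by omega) this
          have ht0 : 0 < t := by
            have : 0 < (q2 : ℤ) * t := by rw [← ht]; omega
            exact (mul_pos_iff_of_pos_left hpos).1 this
          have h5 : t ∣ q1 := ⟨a - 2, by rw [← h4]; ring⟩
          have h6 : t.natAbs ∣ q1 := by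
            have := Int.natAbs_dvd_natAbs.2 h5
            simpa using this
          rcases (Nat.dvd_prime h.prime1).1 h6 with h7 | h7
          · have ht1 : t = 1 := by omega
            rw [ht1, mul_one] at h4 ht
            refine ⟨1, Or.inl ?_⟩
            have h8 : (q2 : ℤ) = q1 + 4 := by omega
            rw [h8]; ring
          · exfalso
            have ht1 : t = q1 := by omega
            rw [ht1] at h4 ht
            have h8 : (a - 2) * (q1 : ℤ) = 1 * q1 := by rw [h4, one_mul]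
            have h9 := mul_right_cancel₀ (by omega : (q1 : ℤ) ≠ 0) h8
            have h10 : a = 3 := by omega
            rw [h10] at ht
            have : (q2 : ℤ) * 3 ≤ q2 * q1 := mul_le_mul_of_nonneg_left hq1 hpos.le
            omega
    · -- n prime
      have hkn : (k : ℤ) = n ∨ n = 1 := by
        have h1 : n.natAbs ∣ k := by
          have := Int.natAbs_dvd_natAbs.2 hnk
          simpa using this
        rcases (Nat.dvd_prime h').1 h1 with h2 | h2
        · right; omega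
        · left; omega
      rcases hkn with hkn | hn1
      · have hkq : k ≠ q1 := by
          rintro rfl
          exact hqn ⟨1, by rw [← hkn]; ring⟩
        exact shape_of_prime h hc h' hkq ha0 ha1 ha2 ha0o hao ha3 ha4 hσ (by omega) (by omega)
          (by rw [hkn]; exact hDa) hm0 hmo (by omega) hk
      · -- n = 1 again
        rw [hn1, mul_one] at hDa
        rcases hσ with h'' | h''
        · exfalso
          rw [h''] at hDa
          refine no_neg_sq h.prime1 h.mod1 (x := a) (k := 2) ?_ ⟨q2, by linarith⟩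
          intro h2
          have := Int.le_of_dvd two_pos h2
          omega
        · left
          rw [h''] at hDa
          have hfac : (a - 2) * (a + 2) = q1 * q2 := by linear_combination -hDa
          have hq2d : (q2 : ℤ) ∣ (a - 2) * (a + 2) := ⟨q1, by rw [hfac]; ring⟩
          have ha5 : 3 ≤ a := by
            by_contra hcon
            have : a = 1 := by omega
            rw [this] at hfac
            have : (0 : ℤ) < q1 * q2 := by positivity
            omega
          have hpos : (0 : ℤ) < q2 := by omega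
          rcases hp2.dvd_or_dvd hq2d with h3 | h3
          · exfalso
            have h4 := Int.le_of_dvd (by omega) h3
            have h5 : (q2 : ℤ) * q2 ≤ (a - 2) * (a + 2) :=
              mul_le_mul h4 (by omega) (by omega) (by omega)
            rw [hfac] at h5
            have h6 := le_of_mul_le_mul_right h5 hpos
            omega
          · obtain ⟨t, ht⟩ := h3
            have h4 : (a - 2) * t = q1 := by
              have : (q2 : ℤ) * ((a - 2) * t) = q2 * q1 := by
                rw [ht] at hfac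
                linear_combination hfac
              exact mul_left_cancel₀ (by omega) this
            have ht0 : 0 < t := by
              have : 0 < (q2 : ℤ) * t := by rw [← ht]; omega
              exact (mul_pos_iff_of_pos_left hpos).1 this
            have h5 : t ∣ q1 := ⟨a - 2, by rw [← h4]; ring⟩
            have h6 : t.natAbs ∣ q1 := by
              have := Int.natAbs_dvd_natAbs.2 h5
              simpa using this
            rcases (Nat.dvd_prime h.prime1).1 h6 with h7 | h7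
            · have ht1 : t = 1 := by omega
              rw [ht1, mul_one] at h4 ht
              refine ⟨1, Or.inl ?_⟩
              have h8 : (q2 : ℤ) = q1 + 4 := by omega
              rw [h8]; ring
            · exfalso
              have ht1 : t = q1 := by omega
              rw [ht1] at h4 ht
              have h8 : (a - 2) * (q1 : ℤ) = 1 * q1 := by rw [h4, one_mul]
              have h9 := mul_right_cancel₀ (by omega : (q1 : ℤ) ≠ 0) h8
              have h10 : a = 3 := by omega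
              rw [h10] at ht
              have : (q2 : ℤ) * 3 ≤ q2 * q1 := mul_le_mul_of_nonneg_left hq1 hpos.le
              omega

end QP
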