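import Mathlib
import Pool.Agent.Lib_MP_94ab8c.Defs
import Pool.Agent.Lib_MP_94ab8c.Factor
import Pool.Agent.Lib_MP_94ab8c.CondInt

/-!
(2) implies (1).
-/

namespace QP

theorem two_one {q1 q2 : ℕ} (h : Setting q1 q2) {e : ℤ} (he : 4 * e + 1 = q1 * q2)
    [IsPrincipalIdealRing (R e)] (hs : Shape q1 q2) : CondInt q1 q2 := by
  intro m hm hmo hmD
  have hsq := not_sq h he
  have hq1 : (3 : ℤ) ≤ q1 := by have := h.mod1; omega
  have hlt : (q1 : ℤ) < q2 := by exact_mod_cast h.lt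
  have hm1 : (q1 : ℤ) % 4 = 3 := by have := h.mod1; omega
  have hm2 : (q2 : ℤ) % 4 = 3 := by have := h.mod2; omega
  have hq2 : (7 : ℤ) ≤ q2 := by omega
  -- divisibility by 4
  obtain ⟨n, hn⟩ : ∃ n : ℕ, ((q1 : ℤ) * m ^ 2 - q2).natAbs = 4 * n := by
    have h1 : (4 : ℤ) ∣ (q1 : ℤ) * m ^ 2 - q2 := by
      obtain ⟨x, hx⟩ : ∃ x : ℤ, m = 2 * x + 1 := ⟨m / 2, by omega⟩
      obtain ⟨y, hy⟩ : ∃ y : ℤ, (q1 : ℤ) = 4 * y + 3 := ⟨q1 / 4, by omega⟩
      obtain ⟨z, hz⟩ : ∃ z : ℤ, (q2 : ℤ) = 4 * z + 3 := ⟨q2 / 4, by omega⟩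
      rw [hx, hy, hz]
      refine ⟨(4 * y + 3) * (x ^ 2 + x) + y - z, by ring⟩
    obtain ⟨k, hk⟩ := h1
    refine ⟨k.natAbs, ?_⟩
    rw [hk, Int.natAbs_mul]; rfl
  refine ⟨n, hn, ?_⟩
  by_contra hcon
  push Not at hcon
  obtain ⟨hn1, hnp⟩ := hcon
  have hn0 : n ≠ 0 := by
    rintro rfl
    have h0 : (q1 : ℤ) * m ^ 2 - q2 = 0 := by simpa using hn
    have h1 : (q1 : ℤ) ∣ q2 := ⟨m ^ 2, by linarith⟩
    have h2 : q1 ∣ q2 := by exact_mod_cast h1
    rw [Nat.prime_dvd_prime_iff_eq h.prime1 h.prime2] at h2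
    exact absurd h2 h.lt.ne
  have hp : n.minFac.Prime := Nat.minFac_prime hn1
  obtain ⟨l, hl⟩ := Nat.minFac_dvd n
  have hl1 : 1 < l := by
    rcases Nat.lt_or_ge 1 l with h | h
    · exact h
    · exfalso
      interval_cases l
      · omega
      · apply hnp
        rw [hl, mul_one]; exact hp
  rw [hl] at hn
  -- the shape
  obtain ⟨s0, hs0⟩ := hs
  obtain ⟨s, hspos, hs1⟩ : ∃ s : ℤ, 0 < s ∧ ((q1 : ℤ) * q2 = q1 ^ 2 * s ^ 2 + 4 * q1 ∨
      (q1 : ℤ) * q2 = q1 ^ 2 * s ^ 2 - 4 * q1 ∨ (q1 : ℤ) * q2 = 4 * q1 ^ 2 * s ^ 2 - q1) := by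
    refine ⟨|s0|, ?_, by rw [sq_abs]; exact hs0⟩
    rw [abs_pos]
    rintro rfl
    rcases hs0 with h' | h' | h'
    · have : (q1 : ℤ) * q2 = q1 * 4 := by rw [h']; ring
      have := mul_left_cancel₀ (by omega : (q1 : ℤ) ≠ 0) this
      omega
    · nlinarith
    · nlinarith
  have hq1p : (0 : ℤ) < q1 := by omega
  have hq10 : (q1 : ℤ) ≠ 0 := by omega
  have main1 : ∀ η : ℤ, (η = 1 ∨ η = -1) → (q1 : ℤ) * s ^ 2 - 1 ^ 2 * q2 = 4 * η → False := by
    intro η hη hκ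
    obtain ⟨a1, b1, a2, b2, ha1, hb1, ha2, hb2, -, -, hcase⟩ :=
      factor_coords (B := 1) he hsq hq1 hlt hm1 hm2 hspos one_pos hη hκ hm hmo hmD hp hl1 hn
    have hbb : 1 ≤ b1 * b2 := Int.mul_pos hb1 hb2
    have haa : 0 ≤ a1 * a2 := mul_nonneg ha1 ha2
    have hD0 : (0 : ℤ) < q1 * q2 := by positivity
    have hge : (q1 : ℤ) * q2 ≤ a1 * a2 + q1 * q2 * (b1 * b2) := by nlinarith
    -- bound q1 m s < D - q2
    have hη1 : η ≤ 1 := by rcases hη with h | h <;> omega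
    have hb : (q1 : ℤ) * m * s < q1 * q2 - q2 := by
      have h1 : (2 * ((q1 : ℤ) * m * s)) ^ 2 < (2 * (q1 * q2 - q2)) ^ 2 := by
        have h2 : (q1 : ℤ) * s ^ 2 ≤ q2 + 4 := by linarith
        have h3 : (2 * ((q1 : ℤ) * m * s)) ^ 2 = (4 * m ^ 2) * (q1 * (q1 * s ^ 2)) := by ring
        have h4 : (4 * m ^ 2) * (q1 * (q1 * s ^ 2)) ≤ (4 * m ^ 2) * ((q1 : ℤ) * (q2 + 4)) :=
          mul_le_mul_of_nonneg_left (mul_le_mul_of_nonneg_left h2 hq1p.le) (by positivity)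
        have h5 : (4 * m ^ 2) * ((q1 : ℤ) * (q2 + 4)) < (q1 * q2) * (q1 * (q2 + 4)) :=
          mul_lt_mul_of_pos_right hmD (by positivity)
        have h6 : ((q1 : ℤ) * q2) * (q1 * (q2 + 4)) ≤ (2 * (q1 * q2 - q2)) ^ 2 := by
          have h7 : (4 : ℤ) * (q1 ^ 2) ≤ 9 * (q1 - 1) ^ 2 := by nlinarith
          have h8 : (2 * ((q1 : ℤ) * q2 - q2)) ^ 2 = 4 * q2 ^ 2 * (q1 - 1) ^ 2 := by ring
          rw [h8]
          have h9 : 9 * (((q1 : ℤ) * q2) * (q1 * (q2 + 4))) ≤ 9 * (4 * q2 ^ 2 * (q1 - 1) ^ 2) := by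
            have h10 : 9 * (4 * (q2 : ℤ) ^ 2 * (q1 - 1) ^ 2) = 4 * q2 ^ 2 * (9 * (q1 - 1) ^ 2) := by
              ring
            rw [h10]
            have h11 : 4 * (q2 : ℤ) ^ 2 * (4 * q1 ^ 2) ≤ 4 * q2 ^ 2 * (9 * (q1 - 1) ^ 2) :=
              mul_le_mul_of_nonneg_left h7 (by positivity)
            have h12 : 9 * (((q1 : ℤ) * q2) * (q1 * (q2 + 4))) ≤ 4 * (q2 : ℤ) ^ 2 * (4 * q1 ^ 2) := by
              have : 4 * (q2 : ℤ) ^ 2 * (4 * q1 ^ 2) - 9 * (((q1 : ℤ) * q2) * (q1 * (q2 + 4)))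
                = q1 ^ 2 * q2 * (7 * q2 - 36) := by ring
              have h13 : 0 ≤ (q1 : ℤ) ^ 2 * q2 * (7 * q2 - 36) :=
                mul_nonneg (by positivity) (by omega)
              linarith
            linarith
          linarith
        rw [h3]
        linarith
      have h14 : (0 : ℤ) ≤ 2 * (q1 * q2 - q2) := by nlinarith
      have := lt_of_pow_lt_pow_left₀ 2 h14 h1
      linarith
    rcases hcase with ⟨hc1, -⟩ | ⟨hc1, -⟩
    · rw [hc1] at hge; linarith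
    · rw [hc1] at hge
      have h2 : |(q1 : ℤ) * m * s - 1 * q2| < q1 * q2 := by
        have h3 : (0 : ℤ) < q1 * m * s := by positivity
        rw [abs_lt]
        constructor <;> nlinarith
      linarith
  rcases hs1 with hs1 | hs1 | hs1
  · apply main1 (-1) (Or.inr rfl)
    have : (q1 : ℤ) * q2 = q1 * (q1 * s ^ 2 + 4) := by rw [hs1]; ring
    have := mul_left_cancel₀ hq10 this
    rw [this]; ring
  · apply main1 1 (Or.inl rfl)
    have : (q1 : ℤ) * q2 = q1 * (q1 * s ^ 2 - 4) := by rw [hs1]; ring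
    have := mul_left_cancel₀ hq10 this
    rw [this]; ring
  · have hq2s : (q2 : ℤ) = 4 * q1 * s ^ 2 - 1 := by
      have : (q1 : ℤ) * q2 = q1 * (4 * q1 * s ^ 2 - 1) := by rw [hs1]; ring
      exact mul_left_cancel₀ hq10 this
    have hκ : (q1 : ℤ) * (4 * s) ^ 2 - 2 ^ 2 * q2 = 4 * 1 := by rw [hq2s]; ring
    obtain ⟨a1, b1, a2, b2, ha1, hb1, ha2, hb2, -, -, hcase⟩ :=
      factor_coords (B := 2) he hsq hq1 hlt hm1 hm2 (by omega : 0 < 4 * s) two_pos (Or.inl rfl) hκ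
        hm hmo hmD hp hl1 hn
    have hbb : 1 ≤ b1 * b2 := Int.mul_pos hb1 hb2
    have haa : 0 ≤ a1 * a2 := mul_nonneg ha1 ha2
    have hD0 : (0 : ℤ) < q1 * q2 := by positivity
    have hms : m ≤ q1 * s - 1 := by
      have h1 : (2 * m) ^ 2 < (2 * ((q1 : ℤ) * s)) ^ 2 := by
        have h2 : (2 * m) ^ 2 = 4 * m ^ 2 := by ring
        have h3 : (2 * ((q1 : ℤ) * s)) ^ 2 = q1 * q2 + q1 := by rw [hs1]; ring
        rw [h2, h3]; linarith
      have h4 : (0 : ℤ) ≤ 2 * (q1 * s) := by positivity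
      have := lt_of_pow_lt_pow_left₀ 2 h4 h1
      omega
    have hbd : 4 * (q1 : ℤ) * m * s ≤ q1 * q2 + q1 - 4 * q1 * s := by
      have h1 : 4 * (q1 : ℤ) * m * s = (4 * q1 * s) * m := by ring
      have h2 : (4 * (q1 : ℤ) * s) * m ≤ (4 * q1 * s) * (q1 * s - 1) :=
        mul_le_mul_of_nonneg_left hms (by positivity)
      have h3 : (4 * (q1 : ℤ) * s) * (q1 * s - 1) = q1 * q2 + q1 - 4 * q1 * s := by rw [hs1]; ring
      linarith
    have hq1s : (q1 : ℤ) ≤ q1 * s := by nlinarith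
    rcases hcase with ⟨hc1, hc2⟩ | ⟨hc1, -⟩
    · -- b1 = b2 = 1
      have hb12 : b1 * b2 ≤ 1 := by
        by_contra hcc
        push Not at hcc
        have h1 : (q1 : ℤ) * q2 * 2 ≤ q1 * q2 * (b1 * b2) :=
          mul_le_mul_of_nonneg_left (by omega) hD0.le
        have h2 : (q1 : ℤ) * m * (4 * s) = 4 * q1 * m * s := by ring
        have h3 : (q1 : ℤ) * q2 = q2 * q1 := mul_comm _ _
        have h4 : (q2 : ℤ) * 3 ≤ q2 * q1 := mul_le_mul_of_nonneg_left hq1 (by omega)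
        linarith
      have hb1' : b1 = 1 := by
        have : b1 ≤ b1 * b2 := le_mul_of_one_le_right hb1.le hb2
        omega
      have hb2' : b2 = 1 := by
        have : b2 ≤ b1 * b2 := le_mul_of_one_le_left hb2.le hb1
        omega
      subst hb1'
      subst hb2'
      have hU : (2 * (q1 : ℤ) * s - a1) * (2 * q1 * s - a2) = q1 - 2 := by
        have h1 : (2 * (q1 : ℤ) * s - a1) * (2 * q1 * s - a2)
          = 4 * q1 ^ 2 * s ^ 2 - 2 * q1 * s * (a1 * 1 + 1 * a2) + (a1 * a2 + q1 * q2 * (1 * 1))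
            - q1 * q2 := by ring
        rw [h1, hc1, hc2, hs1, hq2s]; ring
      have hS : (2 * (q1 : ℤ) * s - a1) + (2 * q1 * s - a2) = 4 * q1 * s - 4 * s - 2 * m := by
        linear_combination -hc2
      have hS2 : 2 * s * (q1 - 2) + 2 ≤ (2 * (q1 : ℤ) * s - a1) + (2 * q1 * s - a2) := by
        rw [hS]
        have : 2 * s * ((q1 : ℤ) - 2) + 2 = 4 * q1 * s - 4 * s - 2 * (q1 * s - 1) := by ring
        rw [this]; linarith
      set U := 2 * (q1 : ℤ) * s - a1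
      set V := 2 * (q1 : ℤ) * s - a2
      have hs2 : 1 * ((q1 : ℤ) - 2) ≤ s * (q1 - 2) := mul_le_mul_of_nonneg_right hspos (by omega)
      have hS3 : 2 * ((q1 : ℤ) - 2) + 2 ≤ U + V := by linarith
      have hSpos : 0 < U + V := by omega
      have hUV : 0 < U * V := by rw [hU]; omega
      have hUpos : 0 < U := by
        by_contra hcc
        push Not at hcc
        have : V ≤ 0 := by
          by_contra h'
          push Not at h'
          have := mul_nonpos_of_nonpos_of_nonneg hcc h'.le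
          linarith
        linarith
      have hVpos : 0 < V := (mul_pos_iff_of_pos_left hUpos).1 hUV
      have h1 : 0 ≤ (U - 1) * (V - 1) := mul_nonneg (by omega) (by omega)
      have h2 : (U - 1) * (V - 1) = U * V - (U + V) + 1 := by ring
      rw [h2, hU] at h1
      omega
    · have h2 : |(q1 : ℤ) * m * (4 * s) - 2 * q2| < q1 * q2 := by
        have h3 : (0 : ℤ) < 4 * q1 * m * s := by positivity
        have h4 : (q1 : ℤ) * m * (4 * s) = 4 * q1 * m * s := by ring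
        rw [h4, abs_lt]
        constructor <;> nlinarith
      have hge : (q1 : ℤ) * q2 ≤ a1 * a2 + q1 * q2 * (b1 * b2) := by nlinarith
      linarith

end QP
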