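import Mathlib
import Pool.Agent.Lib_MP_94ab8c.Defs
import Pool.Agent.Lib_MP_94ab8c.TwoOne
import Pool.Agent.Lib_MP_94ab8c.OneH
import Pool.Agent.Lib_MP_94ab8c.ShapeQ
import Pool.Agent.Lib_MP_94ab8c.Bridge
import Pool.Agent.Lib_MP_94ab8c.ThreeFam
import Pool.Agent.Lib_MP_94ab8c.FourFam

/-!
# MP_94ab8c_nt, Q1: complete characterisation of condition (1)

For all `Δ = q1 q2` as in the setting, condition (1) holds if and only if `h_Δ = 1` and `Δ` is of
one of the three shapes of condition (2) or lies in one of two further explicit families. In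
particular (2) implies (1), (1) implies `h_Δ = 1`, and (1) and (2) can only differ for the `Δ` of
class number one in the two families.
-/

namespace Pool.Agent.Results.MP_94ab8c_nt.PrimeProducing

open QP

/-- the three excluded values -/
theorem excluded {q1 q2 : ℕ} (h : Setting q1 q2)
    (hD : q1 * q2 = 133 ∨ q1 * q2 = 341 ∨ q1 * q2 = 917) : ¬ CondInt q1 q2 := by
  intro hc
  have key : ∀ a b : ℕ, a.Prime → b.Prime → a < b → q1 * q2 = a * b → q1 = a ∧ q2 = b := by
    intro a b ha hb hab heq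
    have h1 : q1 ∣ a * b := ⟨q2, heq.symm⟩
    rcases h.prime1.dvd_mul.1 h1 with h2 | h2
    · have h3 := (Nat.prime_dvd_prime_iff_eq h.prime1 ha).1 h2
      subst h3
      exact ⟨rfl, Nat.eq_of_mul_eq_mul_left h.prime1.pos heq⟩
    · exfalso
      have h3 := (Nat.prime_dvd_prime_iff_eq h.prime1 hb).1 h2
      subst h3
      have h4 : q2 = a := Nat.eq_of_mul_eq_mul_left h.prime1.pos (by rw [heq, mul_comm])
      have := h.lt
      omega
  rcases hD with hD | hD | hD
  · obtain ⟨rfl, rfl⟩ := key 7 19 (by norm_num) (by norm_num) (by norm_num) (by rw [hD])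
    obtain ⟨n, hn, hn2⟩ := hc 5 (by norm_num) (by norm_num) (by norm_num)
    norm_num at hn
    have : n = 39 := by omega
    rw [this] at hn2
    norm_num at hn2
  · obtain ⟨rfl, rfl⟩ := key 11 31 (by norm_num) (by norm_num) (by norm_num) (by rw [hD])
    obtain ⟨n, hn, hn2⟩ := hc 9 (by norm_num) (by norm_num) (by norm_num)
    norm_num at hn
    have : n = 215 := by omega
    rw [this] at hn2
    norm_num at hn2
  · obtain ⟨rfl, rfl⟩ := key 7 131 (by norm_num) (by norm_num) (by norm_num) (by rw [hD])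
    obtain ⟨n, hn, hn2⟩ := hc 15 (by norm_num) (by norm_num) (by norm_num)
    norm_num at hn
    have : n = 361 := by omega
    rw [this] at hn2
    norm_num at hn2

/-- the small cases of the first family -/
theorem small_nine {q1 q2 : ℕ} (h : Setting q1 q2) {c : ℤ} (hc : 0 < c)
    (hκ : (q1 : ℤ) * c ^ 2 = 9 * q2 + 4 ∨ (q1 : ℤ) * c ^ 2 = 9 * q2 - 4)
    (hsmall : ((q1 : ℤ) - 6) * (c - 4) ≤ 13) :
    q1 * q2 = 133 ∨ q1 * q2 = 341 ∨ q1 * q2 = 917 := by
  have hm1 := h.mod1
  have hm2 := h.mod2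
  have hlt := h.lt
  have hq1 : (7 : ℤ) ≤ q1 := by
    by_contra hcon
    have h1 : (q1 : ℤ) = 3 := by omega
    rw [h1] at hκ
    rcases hκ with h' | h' <;> omega
  have hc5 : 5 ≤ c := by
    by_contra hcon
    have hc4 : c = 1 ∨ c = 2 ∨ c = 3 ∨ c = 4 := by omega
    rcases hc4 with h' | h' | h' | h' <;> rw [h'] at hκ <;> rcases hκ with h'' | h'' <;> omega
  have hq19 : (q1 : ℤ) ≤ 19 := by
    by_contra hcon
    push Not at hcon
    have : (14 : ℤ) * 1 ≤ ((q1 : ℤ) - 6) * (c - 4) :=
      mul_le_mul (by omega) (by omega) (by norm_num) (by omega)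
    omega
  have hc17 : c ≤ 17 := by
    by_contra hcon
    push Not at hcon
    have : (1 : ℤ) * 14 ≤ ((q1 : ℤ) - 6) * (c - 4) :=
      mul_le_mul (by omega) (by omega) (by norm_num) (by omega)
    omega
  have hq : q1 = 7 ∨ q1 = 11 ∨ q1 = 15 ∨ q1 = 19 := by omega
  rcases hq with rfl | rfl | rfl | rfl <;> interval_cases c <;>
    first
    | (exfalso; rcases hκ with h' | h' <;> norm_num at h' <;> omega)
    | (exfalso; norm_num at hsmall; done)
    | (rcases hκ with h' | h' <;> norm_num at h' <;> omega)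

theorem main {q1 q2 : ℕ} (h : Setting q1 q2) {e : ℤ} (he : 4 * e + 1 = q1 * q2) :
    CondInt q1 q2 ↔
      IsPrincipalIdealRing (R e) ∧ (Shape q1 q2 ∨ Family9 q1 q2 ∨ Family4 q1 q2) := by
  constructor
  · intro hc
    refine ⟨one_pid h he hc, ?_⟩
    rcases one_shape h hc with h1 | h1 | ⟨c, hc0, hc4, hcq, hκ⟩
    · exact Or.inl h1
    · right; left
      refine ⟨⟨?_, ?_, ?_⟩, h1⟩
      · intro hD; exact excluded h (Or.inl hD) hc
      · intro hD; exact excluded h (Or.inr (Or.inl hD)) hc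
      · intro hD; exact excluded h (Or.inr (Or.inr hD)) hc
    · right; right
      refine ⟨c, hc0, hc4, hcq, hκ, ?_, ?_⟩
      · intro d f hd hd4 hdf
        by_contra hcon
        exact four_compl h hc (Or.inl rfl) hc0 hc4 hcq hκ hd hd4 (by rw [← hdf]; ring)
          (by linarith)
      · intro d f hd hd4 hdf
        by_contra hcon
        exact four_compl h hc (Or.inr rfl) hc0 hc4 hcq hκ hd hd4 (by rw [← hdf]; ring)
          (by linarith)
  · rintro ⟨hP, h1 | ⟨⟨hx1, hx2, hx3⟩, c, hc0, hκ⟩ | ⟨c, hc0, hc4, hcq, hκ, hf1, hf2⟩⟩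
    · exact two_one h he h1
    · have hbig : 13 < ((q1 : ℤ) - 6) * (c - 4) := by
        by_contra hcon
        push Not at hcon
        rcases small_nine h hc0 hκ hcon with h' | h' | h'
        · exact hx1 h'
        · exact hx2 h'
        · exact hx3 h'
      rcases hκ with h' | h'
      · exact three_conv h he (Or.inl rfl) (by rw [h']; ring) hc0 hbig
      · exact three_conv h he (Or.inr rfl) (by rw [h']; ring) hc0 hbig
    · exact four_conv h he hc0 hc4 hcq hκ hf1 hf2

/-- **Main theorem.** Let `q1 < q2` be primes congruent to `3` modulo `4` with `Δ = q1 q2`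
congruent to `5` modulo `8`, and let `K = ℚ(√Δ)`. Then condition (1) holds if and only if the class
number of `K` is one and `Δ` has one of the three shapes of condition (2) or is in one of the two
families `Family9`, `Family4`. Hence (1) and (2) are equivalent for `Δ`, unless the class number is
one and `Δ` is in `Family9` or `Family4` but not of the shapes of (2). -/
theorem result (q1 q2 : ℕ) (h : Setting q1 q2) (K : Type) [Field K] [NumberField K]
    (hK : Module.finrank ℚ K = 2) (α : K) (hα : α ^ 2 = (q1 : K) * q2) :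
    (Cond1 q1 q2 ↔
      NumberField.classNumber K = 1 ∧ (Shape q1 q2 ∨ Family9 q1 q2 ∨ Family4 q1 q2)) ∧
    (¬ (Cond1 q1 q2 ↔ Cond2 q1 q2 K) ↔
      NumberField.classNumber K = 1 ∧ ¬ Shape q1 q2 ∧ (Family9 q1 q2 ∨ Family4 q1 q2)) := by
  obtain ⟨e, he⟩ : ∃ e : ℤ, 4 * e + 1 = (q1 : ℤ) * q2 := by
    have hm8 : ((q1 : ℤ) * q2) % 8 = 5 := by exact_mod_cast h.mod8
    exact ⟨((q1 : ℤ) * q2) / 4, by omega⟩
  have h1 : Cond1 q1 q2 ↔
      NumberField.classNumber K = 1 ∧ (Shape q1 q2 ∨ Family9 q1 q2 ∨ Family4 q1 q2) := by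
    rw [cond1_iff h, main h he, classNumber_iff h he hK α hα]
  refine ⟨h1, ?_⟩
  rw [h1, Cond2]
  tauto

end Pool.Agent.Results.MP_94ab8c_nt.PrimeProducing
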